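import Pool.Agent.H275R3.OhG

/-!
# The explicit integral curves
-/

open Set Metric
open scoped ContDiff ComplexConjugate Topology

noncomputable section

namespace Pool.Agent.H275R3

/-- vector of `ℂ³` -/
def vec (a b c : ℂ) : E3 := WithLp.toLp 2 ![a, b, c]

@[simp] lemma vec_zero (a b c : ℂ) : vec a b c 0 = a := rfl
@[simp] lemma vec_one (a b c : ℂ) : vec a b c 1 = b := rfl
@[simp] lemma vec_two (a b c : ℂ) : vec a b c 2 = c := rfl

lemma conj_div_norm_of {r : ℝ} {u : ℂ} (hr : 0 < r) (h : ‖u‖ = 1) :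
    conj ((r : ℂ) * u) / ((‖(r : ℂ) * u‖ : ℝ) : ℂ) = conj u := by
  have hr' : (r : ℂ) ≠ 0 := by exact_mod_cast hr.ne'
  rw [norm_mul, h, mul_one, Complex.norm_real, Real.norm_eq_abs, abs_of_pos hr, map_mul,
    Complex.conj_ofReal]
  field_simp

lemma pairing {κ x₀ X Y r r' : ℝ} {u1 u2 : ℂ} (hr : 0 < r) (h1 : ‖u1‖ = 1) (h2 : ‖u2‖ = 1)
    (hr' : r' * r = κ * X * (X - x₀) - κ * Y ^ 2) (v : E3) :
    fderiv ℝ (GG κ x₀) (vec ((X + Y * Complex.I) * u1 * u2) (r * u1) (r * u2)) v =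
      (inner ℂ (vec ((((-κ * (X - x₀) : ℝ) : ℂ) + ((κ * Y : ℝ) : ℂ) * Complex.I) * u1 * u2)
        (r' * u1) (r' * u2)) v).im := by
  have hu1 : u1 ≠ 0 := by
    intro h; rw [h, norm_zero] at h1; exact zero_ne_one h1
  have hu2 : u2 ≠ 0 := by
    intro h; rw [h, norm_zero] at h2; exact zero_ne_one h2
  have hr0 : (r : ℂ) ≠ 0 := by exact_mod_cast hr.ne'
  set z : E3 := vec ((X + Y * Complex.I) * u1 * u2) (r * u1) (r * u2) with hz
  have n1 : u1 * conj u1 = 1 := by
    rw [Complex.mul_conj, Complex.normSq_eq_norm_sq, h1]; simp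
  have n2 : u2 * conj u2 = 1 := by
    rw [Complex.mul_conj, Complex.normSq_eq_norm_sq, h2]; simp
  have hww : ww z = X + Y * Complex.I := by
    rw [ww, hz]
    simp only [vec_zero, vec_one, vec_two]
    rw [conj_div_norm_of hr h1, conj_div_norm_of hr h2]
    calc (X + Y * Complex.I) * u1 * u2 * conj u1 * conj u2
        = (X + Y * Complex.I) * (u1 * conj u1) * (u2 * conj u2) := by ring
      _ = X + Y * Complex.I := by rw [n1, n2]; ring
  have hd : dww z v = v 0 * conj u1 * conj u2 -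
      Complex.I * (X + Y * Complex.I) * ((((conj u1 * v 1).im + (conj u2 * v 2).im) / r : ℝ) : ℂ) := by
    rw [dww, hww, hz]
    simp only [vec_zero, vec_one, vec_two]
    rw [conj_div_norm_of hr h1, conj_div_norm_of hr h2]
    congr 3
    rw [norm_mul, norm_mul, h1, h2, mul_one, Complex.norm_real, Real.norm_eq_abs, abs_of_pos hr,
      map_mul, map_mul, Complex.conj_ofReal, mul_assoc, mul_assoc, Complex.im_ofReal_mul,
      Complex.im_ofReal_mul]
    field_simp
  rw [fderiv_GG κ x₀ (z := z) (mul_ne_zero hr0 hu1) (mul_ne_zero hr0 hu2), hww, hd]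
  set A : ℂ := v 0 * conj u1 * conj u2 with hA
  set s1 : ℝ := (conj u1 * v 1).im with hs1
  set s2 : ℝ := (conj u2 * v 2).im with hs2
  have hin : (inner ℂ (vec ((((-κ * (X - x₀) : ℝ) : ℂ) + ((κ * Y : ℝ) : ℂ) * Complex.I) * u1 * u2)
        (r' * u1) (r' * u2)) v).im =
      (conj (((-κ * (X - x₀) : ℝ) : ℂ) + ((κ * Y : ℝ) : ℂ) * Complex.I) * A).im
        + r' * s1 + r' * s2 := by
    rw [PiLp.inner_apply, Fin.sum_univ_three]
    simp only [RCLike.inner_apply, vec_zero, vec_one, vec_two, Complex.add_im]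
    congr 1
    · congr 1
      · congr 1
        rw [map_mul, map_mul, hA]; ring
      · rw [map_mul, Complex.conj_ofReal, hs1, ← Complex.im_ofReal_mul]
        congr 1; ring
    · rw [map_mul, Complex.conj_ofReal, hs2, ← Complex.im_ofReal_mul]
      congr 1; ring
  rw [hin]
  have e1 : (A - Complex.I * (X + Y * Complex.I) * (((s1 + s2) / r : ℝ) : ℂ)).re =
      A.re + Y * ((s1 + s2) / r) := by
    simp
  have e2 : (A - Complex.I * (X + Y * Complex.I) * (((s1 + s2) / r : ℝ) : ℂ)).im =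
      A.im - X * ((s1 + s2) / r) := by
    simp
  have e3 : ((X : ℂ) + Y * Complex.I).re = X := by simp
  have e4 : ((X : ℂ) + Y * Complex.I).im = Y := by simp
  have e5 : (conj (((-κ * (X - x₀) : ℝ) : ℂ) + ((κ * Y : ℝ) : ℂ) * Complex.I) * A).im =
      -κ * (X - x₀) * A.im - κ * Y * A.re := by
    simp; ring
  rw [e1, e2, e3, e4, e5]
  have hr'' : r' = (κ * X * (X - x₀) - κ * Y ^ 2) / r := by
    rw [eq_div_iff hr.ne']; exact hr'
  rw [hr'']
  ring

/-- A compactly supported smooth function that agrees with `GG` on a large region. -/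
lemma exists_cut (N M κ x₀ : ℝ) (hN : 0 < N) : ∃ F : E3 → ℝ, ContDiff ℝ ∞ F ∧
    HasCompactSupport F ∧ ∀ z : E3, N / 2 < ‖z 1‖ → N / 2 < ‖z 2‖ → ‖z‖ < M →
      F =ᶠ[𝓝 z] GG κ x₀ := by
  have hp : ∀ j : Fin 3, Continuous (fun z : E3 => ‖z j‖) := fun j => by
    have : Continuous (fun z : E3 => z j) := by fun_prop
    exact this.norm
  set s : Set E3 := {z | N / 2 ≤ ‖z 1‖ ∧ N / 2 ≤ ‖z 2‖ ∧ ‖z‖ ≤ M} with hs
  set o : Set E3 := {z | N / 4 < ‖z 1‖ ∧ N / 4 < ‖z 2‖ ∧ ‖z‖ < M + 1} with ho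
  set t : Set E3 := {z | N / 4 ≤ ‖z 1‖ ∧ N / 4 ≤ ‖z 2‖ ∧ ‖z‖ ≤ M + 1} with ht
  have hsc : IsClosed s := by
    refine (isClosed_le continuous_const (hp 1)).inter
      ((isClosed_le continuous_const (hp 2)).inter (isClosed_le continuous_norm continuous_const))
  have htc : IsClosed t := by
    refine (isClosed_le continuous_const (hp 1)).inter
      ((isClosed_le continuous_const (hp 2)).inter (isClosed_le continuous_norm continuous_const))
  have hoo : IsOpen o := by
    refine (isOpen_lt continuous_const (hp 1)).inter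
      ((isOpen_lt continuous_const (hp 2)).inter (isOpen_lt continuous_norm continuous_const))
  have hso : s ⊆ o := by
    rintro z ⟨h1, h2, h3⟩
    exact ⟨by linarith, by linarith, by linarith⟩
  have hot : o ⊆ t := by
    rintro z ⟨h1, h2, h3⟩
    exact ⟨h1.le, h2.le, h3.le⟩
  have hst : s ⊆ interior t := hso.trans (interior_maximal hot hoo)
  have htb : IsCompact t := by
    refine Metric.isCompact_of_isClosed_isBounded htc ?_
    refine (Metric.isBounded_closedBall (x := (0 : E3)) (r := M + 1)).subset ?_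
    rintro z ⟨_, _, h3⟩
    rw [mem_closedBall_zero_iff]; exact h3
  obtain ⟨f, hf1, hf0, -⟩ := exists_contMDiffMap_one_nhds_of_subset_interior
    (n := (⊤ : ℕ∞)) (modelWithCornersSelf ℝ E3) hsc hst
  have hfs : ContDiff ℝ ∞ f := f.contMDiff.contDiff
  refine ⟨fun z => f z * GG κ x₀ z, ?_, ?_, ?_⟩
  · rw [contDiff_iff_contDiffAt]
    intro z
    by_cases hz : z ∈ t
    · obtain ⟨h1, h2, _⟩ := hz
      have z1 : z 1 ≠ 0 := by
        rw [← norm_pos_iff]; linarith
      have z2 : z 2 ≠ 0 := by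
        rw [← norm_pos_iff]; linarith
      exact hfs.contDiffAt.mul (contDiffAt_GG κ x₀ z1 z2)
    · have : (fun z => f z * GG κ x₀ z) =ᶠ[𝓝 z] fun _ => 0 := by
        filter_upwards [htc.isOpen_compl.mem_nhds hz] with y hy
        rw [hf0 y hy, zero_mul]
      exact contDiffAt_const.congr_of_eventuallyEq this
  · refine HasCompactSupport.intro htb ?_
    intro z hz
    rw [hf0 z hz, zero_mul]
  · intro z h1 h2 h3
    have hz : z ∈ s := ⟨h1.le, h2.le, h3.le⟩
    have h4 : ∀ᶠ y in 𝓝 z, f y = 1 := by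
      have := hf1
      rw [Filter.Eventually, mem_nhdsSet_iff_forall] at this
      exact this z hz
    filter_upwards [h4] with y hy
    rw [hy, one_mul]

lemma hasDerivAt_vec {a b c : ℝ → ℂ} {a' b' c' : ℂ} {t : ℝ} (ha : HasDerivAt a a' t)
    (hb : HasDerivAt b b' t) (hc : HasDerivAt c c' t) :
    HasDerivAt (fun t => vec (a t) (b t) (c t)) (vec a' b' c') t := by
  rw [hasDerivAt_iff_hasFDerivAt]
  refine (hasFDerivWithinAt_univ).1 ?_
  rw [hasFDerivWithinAt_piLp]
  intro i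
  rw [hasFDerivWithinAt_univ]
  fin_cases i
  · exact ha.hasFDerivAt
  · exact hb.hasFDerivAt
  · exact hc.hasFDerivAt

end Pool.Agent.H275R3
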