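import Pool.Agent.H275R3.OhMeas

/-!
# Volume of `T(1, b, b)` in `ℂ³` can be decreased by a Hamiltonian isotopy
-/

open Set Metric MeasureTheory
open scoped ContDiff ComplexConjugate Topology NNReal ENNReal

noncomputable section

namespace Pool.Agent.H275R3

lemma pi_cube_lt : Real.pi ^ 3 < 32 := by
  have h1 := Real.pi_lt_d2
  have h2 := Real.pi_pos
  calc Real.pi ^ 3 < 3.15 ^ 3 := by gcongr
    _ < 32 := by norm_num

/-- Main statement: for `N = 10^6`, `b = √(N^6 - 1)`, some Hamiltonian isotopy decreases the volume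
of the product torus `T(1, b, b)`. -/
theorem main : ∃ b : ℝ, 1 ≤ b ∧ ∃ (H : ℝ → E3 → ℝ) (φ : ℝ → E3 → E3),
      ContDiff ℝ ((⊤ : ℕ∞) : WithTop ℕ∞) (Function.uncurry H) ∧
      HasCompactSupport (Function.uncurry H) ∧
      (∀ x, φ 0 x = x) ∧
      (∀ (t : ℝ) (x : E3),
          ∃ v : E3,
            HasDerivAt (fun s => φ s x) v t ∧
            ∀ w : E3,
              fderiv ℝ (H t) (φ t x) w = (inner ℂ v w).im) ∧
      μH[((3 : ℕ) : ℝ)] (φ 1 '' TT b) < μH[((3 : ℕ) : ℝ)] (TT b) := by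
  set N : ℝ := 10 ^ 6 with hNdef
  have hN : 10 ≤ N := by rw [hNdef]; norm_num
  have hN0 : 0 < N := by linarith
  have hb0 : (0 : ℝ) ≤ (N ^ 3) ^ 2 - 1 := by rw [hNdef]; norm_num
  set b : ℝ := √((N ^ 3) ^ 2 - 1) with hb
  have hb2 : b ^ 2 = (N ^ 3) ^ 2 - 1 := Real.sq_sqrt hb0
  have hb1 : 1 ≤ b := by
    rw [hb]
    apply Real.le_sqrt_of_sq_le
    rw [hNdef]; norm_num
  have hbpos : 0 < b := by linarith
  obtain ⟨F, hF, hFc, hFG⟩ := exists_cut N (2 * N ^ 3) (Real.log N) (x0 N) hN0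
  obtain ⟨H, φ, h1, h2, h3, h4, h5⟩ := exists_isotopy hF hFc
  refine ⟨b, hb1, H, φ, h1, h2, h3, h4, ?_⟩
  have hsub : φ 1 '' TT b ⊆ {z : E3 | ∃ w u1 u2 : ℂ, ‖w‖ = 1 ∧ ‖u1‖ = 1 ∧ ‖u2‖ = 1 ∧
      z = gam N w u1 u2 1} := by
    rintro _ ⟨z, ⟨hz0, hz1, hz2⟩, rfl⟩
    set u1 : ℂ := z 1 / b with hu1
    set u2 : ℂ := z 2 / b with hu2
    set w : ℂ := z 0 * conj u1 * conj u2 with hw
    have n1 : ‖u1‖ = 1 := by
      rw [hu1, norm_div, hz1, Complex.norm_real, Real.norm_eq_abs, abs_of_pos hbpos,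
        div_self hbpos.ne']
    have n2 : ‖u2‖ = 1 := by
      rw [hu2, norm_div, hz2, Complex.norm_real, Real.norm_eq_abs, abs_of_pos hbpos,
        div_self hbpos.ne']
    have nw : ‖w‖ = 1 := by
      rw [hw, norm_mul, norm_mul, RCLike.norm_conj, RCLike.norm_conj, hz0, n1, n2]; norm_num
    have hbc : (b : ℂ) ≠ 0 := by exact_mod_cast hbpos.ne'
    refine ⟨w, u1, u2, nw, n1, n2, ?_⟩
    apply h5 z (gam N w u1 u2)
    · have hX : Xt N w 0 = w.re := by rw [Xt]; simp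
      have hY : Yt N w 0 = w.im := by rw [Yt]; simp
      have hr : rt N w 0 = b := by
        rw [rt, hX, hY, hb]
        congr 1
        have : w.re ^ 2 + w.im ^ 2 = 1 := by
          have := Complex.sq_norm w
          rw [nw, Complex.normSq_apply] at this
          nlinarith
        linarith
      have m1 : u1 * conj u1 = 1 := by
        rw [Complex.mul_conj, Complex.normSq_eq_norm_sq, n1]; simp
      have m2 : u2 * conj u2 = 1 := by
        rw [Complex.mul_conj, Complex.normSq_eq_norm_sq, n2]; simp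
      ext i
      fin_cases i
      · show (gam N w u1 u2 0) 0 = z 0
        rw [gam, vec_zero, hX, hY, Complex.re_add_im, hw]
        calc z 0 * conj u1 * conj u2 * u1 * u2 = z 0 * (u1 * conj u1) * (u2 * conj u2) := by ring
          _ = z 0 := by rw [m1, m2]; ring
      · show (gam N w u1 u2 0) 1 = z 1
        rw [gam, vec_one, hr, hu1, mul_div_cancel₀ _ hbc]
      · show (gam N w u1 u2 0) 2 = z 2
        rw [gam, vec_two, hr, hu2, mul_div_cancel₀ _ hbc]
    · intro t ht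
      exact hasDerivAt_gam hN nw n1 n2 hFG ht
  refine (measure_mono hsub).trans_lt ((upper hN).trans_lt (lt_of_lt_of_le ?_ (lower hbpos.le)))
  rw [ENNReal.ofReal_lt_ofReal_iff (by positivity), hb2]
  have hp := pi_cube_lt
  have hN5 : 0 < N ^ 5 := by positivity
  calc 5832 * (8 * Real.pi ^ 3 * N ^ 5) ≤ 5832 * (8 * 32 * N ^ 5) := by gcongr
    _ < 8 * ((N ^ 3) ^ 2 - 1) := by rw [hNdef]; norm_num

end Pool.Agent.H275R3
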