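import Mathlib

/-!
# Hamiltonian isotopies generated by compactly supported functions on `ℂⁿ`
-/

open Set Metric
open scoped ContDiff

noncomputable section

namespace Pool.Agent.H275R3

section ode

variable {E : Type*} [NormedAddCommGroup E] [NormedSpace ℝ E] [CompleteSpace E]

/-- Global flow of a bounded Lipschitz vector field. -/
lemma exists_global_flow (v : E → E) {K B : NNReal} (hK : LipschitzWith K v)
    (hB : ∀ z, ‖v z‖ ≤ B) :
    ∃ φ : ℝ → E → E, (∀ z, φ 0 z = z) ∧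
      (∀ z t, HasDerivAt (fun s => φ s z) (v (φ t z)) t) := by
  have hloc : ∀ (z : E) (n : ℕ), ∃ α : ℝ → E, α 0 = z ∧
      ∀ t ∈ Ioo (-(n : ℝ)) n, HasDerivAt α (v (α t)) t := by
    intro z n
    have h0 : (0 : ℝ) ∈ Icc (-(n : ℝ)) n := ⟨by simp, by simp⟩
    have hP : IsPicardLindelof (fun _ : ℝ => v) (tmin := -(n : ℝ)) (tmax := n) ⟨0, h0⟩ z
        (B * n) 0 B K := by
      refine IsPicardLindelof.of_time_independent (fun y _ => hB y) hK.lipschitzOnWith ?_
      simp
    obtain ⟨α, h1, h2⟩ := hP.exists_eq_forall_mem_Icc_hasDerivWithinAt₀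
    refine ⟨α, h1, fun t ht => ?_⟩
    exact (h2 t (Ioo_subset_Icc_self ht)).hasDerivAt (Icc_mem_nhds ht.1 ht.2)
  choose α h0 hα using hloc
  have huniq : ∀ z (m n : ℕ) (t : ℝ), |t| < m → |t| < n → α z m t = α z n t := by
    have key : ∀ z (m n : ℕ) (t : ℝ), m ≤ n → |t| < m → α z m t = α z n t := by
      intro z m n t hmn ht
      have hm : (0 : ℝ) < m := lt_of_le_of_lt (abs_nonneg t) ht
      have hmn' : (m : ℝ) ≤ n := by exact_mod_cast hmn
      refine ODE_solution_unique_of_mem_Ioo (v := fun _ => v) (s := fun _ => univ) (K := K)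
        (a := -(m : ℝ)) (b := m) (t₀ := 0) (fun _ _ => hK.lipschitzOnWith)
        ⟨by linarith, hm⟩ (fun s hs => ⟨hα z m s hs, trivial⟩)
        (fun s hs => ⟨hα z n s ⟨by linarith [hs.1], by linarith [hs.2]⟩, trivial⟩)
        (by rw [h0, h0]) (abs_lt.1 ht)
    intro z m n t hm hn
    rcases le_total m n with h | h
    · exact key z m n t h hm
    · exact (key z n m t h hn).symm
  refine ⟨fun t z => α z (⌊|t|⌋₊ + 1) t, fun z => h0 z _, ?_⟩
  intro z t
  set N := ⌊|t|⌋₊ + 1 with hN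
  have htN : |t| < N := by
    rw [hN]; push_cast; exact Nat.lt_floor_add_one _
  have hev : (fun s => α z (⌊|s|⌋₊ + 1) s) =ᶠ[nhds t] α z N := by
    have : ∀ᶠ s : ℝ in nhds t, |s| < (N : ℝ) := continuous_abs.continuousAt.eventually_lt
      continuousAt_const htN
    filter_upwards [this] with s hs
    apply huniq z _ _ s _ hs
    push_cast; exact Nat.lt_floor_add_one _
  exact (hα z N t (abs_lt.1 htN)).congr_of_eventuallyEq hev

end ode

variable {n : ℕ}

/-- The Hamiltonian vector field of `F`. -/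
def ham (F : EuclideanSpace ℂ (Fin n) → ℝ) (z : EuclideanSpace ℂ (Fin n)) :
    EuclideanSpace ℂ (Fin n) :=
  WithLp.toLp 2 (fun j => ((fderiv ℝ F z (EuclideanSpace.single j Complex.I) : ℝ) : ℂ) -
    Complex.I * ((fderiv ℝ F z (EuclideanSpace.single j 1) : ℝ) : ℂ))

lemma decomp (w : EuclideanSpace ℂ (Fin n)) :
    w = ∑ j, ((w j).re • EuclideanSpace.single j (1 : ℂ) +
      (w j).im • EuclideanSpace.single j Complex.I) := by
  ext k
  rw [WithLp.ofLp_sum, Finset.sum_apply, Finset.sum_eq_single k]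
  · simp only [PiLp.add_apply, PiLp.smul_apply, PiLp.single_apply, if_true,
      Complex.real_smul, mul_one]
    exact (Complex.re_add_im _).symm
  · intro b _ hb
    simp [hb.symm]
  · simp

lemma ham_spec (F : EuclideanSpace ℂ (Fin n) → ℝ) (z w : EuclideanSpace ℂ (Fin n)) :
    fderiv ℝ F z w = (inner ℂ (ham F z) w).im := by
  conv_lhs => rw [decomp w]
  rw [map_sum, PiLp.inner_apply, Complex.im_sum]
  refine Finset.sum_congr rfl fun j _ => ?_
  rw [map_add, map_smul, map_smul]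
  simp [ham, RCLike.inner_apply]

/-- Uniqueness: a vector with the right pairing is the Hamiltonian vector. -/
lemma ham_unique (F : EuclideanSpace ℂ (Fin n) → ℝ) (z v : EuclideanSpace ℂ (Fin n))
    (h : ∀ w, fderiv ℝ F z w = (inner ℂ v w).im) : v = ham F z := by
  have h1 : ∀ w, (inner ℂ (v - ham F z) w).im = 0 := by
    intro w
    rw [inner_sub_left, Complex.sub_im, ← h, ← ham_spec, sub_self]
  have h2 := h1 (Complex.I • (v - ham F z))
  rw [inner_smul_right, inner_self_eq_norm_sq_to_K] at h2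
  have h3 : ‖v - ham F z‖ = 0 := by
    have : (Complex.I * ((‖v - ham F z‖ : ℂ)) ^ 2).im = ‖v - ham F z‖ ^ 2 := by
      rw [← Complex.ofReal_pow, Complex.I_mul_im, Complex.ofReal_re]
    have h4 : ‖v - ham F z‖ ^ 2 = 0 := by
      rw [← this]; exact h2
    exact pow_eq_zero_iff (two_ne_zero) |>.1 h4
  exact sub_eq_zero.1 (norm_eq_zero.1 h3)

lemma contDiff_ham {F : EuclideanSpace ℂ (Fin n) → ℝ} (hF : ContDiff ℝ ∞ F) :
    ContDiff ℝ ∞ (ham F) := by
  have hd : ContDiff ℝ ∞ (fderiv ℝ F) := hF.fderiv_right (by simp)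
  rw [contDiff_piLp]
  intro j
  simp only [ham]
  refine ContDiff.sub ?_ (contDiff_const.mul ?_)
  · exact Complex.ofRealCLM.contDiff.comp (hd.clm_apply contDiff_const)
  · exact Complex.ofRealCLM.contDiff.comp (hd.clm_apply contDiff_const)

lemma ham_zero_of {F : EuclideanSpace ℂ (Fin n) → ℝ} {z : EuclideanSpace ℂ (Fin n)}
    (h : fderiv ℝ F z = 0) : ham F z = 0 := by
  ext j; simp [ham, h]

lemma hasCompactSupport_ham {F : EuclideanSpace ℂ (Fin n) → ℝ} (hc : HasCompactSupport F) :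
    HasCompactSupport (ham F) := by
  refine (hc.fderiv ℝ).mono ?_
  intro z hz hz'
  exact hz (ham_zero_of hz')

/-- Time-independent generation: there is a global flow of `ham F`. -/
lemma exists_ham_flow {F : EuclideanSpace ℂ (Fin n) → ℝ} (hF : ContDiff ℝ ∞ F)
    (hc : HasCompactSupport F) :
    ∃ ψ : ℝ → EuclideanSpace ℂ (Fin n) → EuclideanSpace ℂ (Fin n), (∀ z, ψ 0 z = z) ∧
      (∀ z t, HasDerivAt (fun s => ψ s z) (ham F (ψ t z)) t) ∧
      ∀ (z : EuclideanSpace ℂ (Fin n)) (γ : ℝ → EuclideanSpace ℂ (Fin n)), γ 0 = z →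
        (∀ t ∈ Icc (0 : ℝ) 1, HasDerivAt γ (ham F (γ t)) t) → ψ 1 z = γ 1 := by
  obtain ⟨K, hK⟩ := ContDiff.lipschitzWith_of_hasCompactSupport (𝕂 := ℝ)
    (hasCompactSupport_ham hc) (contDiff_ham hF) (by simp)
  obtain ⟨C, hC⟩ := (hasCompactSupport_ham hc).exists_bound_of_continuous
    (contDiff_ham hF).continuous
  have hC' : ∀ z, ‖ham F z‖ ≤ (C.toNNReal : ℝ) := fun z => (hC z).trans (Real.le_coe_toNNReal C)
  obtain ⟨ψ, h0, hψ⟩ := exists_global_flow (ham F) hK hC'
  refine ⟨ψ, h0, hψ, ?_⟩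
  intro z γ hγ0 hγ
  have hu := ODE_solution_unique (v := fun _ => ham F) (K := K) (f := fun s => ψ s z) (g := γ)
      (a := 0) (b := 1) (fun _ => hK)
      (fun s _ => (hψ z s).continuousAt.continuousWithinAt)
      (fun s _ => (hψ z s).hasDerivWithinAt)
      (fun s hs => (hγ s hs).continuousAt.continuousWithinAt)
      (fun s hs => (hγ s (Ico_subset_Icc_self hs)).hasDerivWithinAt)
      (by simp only [h0, hγ0])
  exact hu (by norm_num)

/-- The time-one map of a compactly supported autonomous Hamiltonian is the time-one map of a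
Hamiltonian on `ℝ × ℂⁿ` that is compactly supported also in time. -/
lemma exists_isotopy {F : EuclideanSpace ℂ (Fin n) → ℝ} (hF : ContDiff ℝ ∞ F)
    (hc : HasCompactSupport F) :
    ∃ (H : ℝ → EuclideanSpace ℂ (Fin n) → ℝ)
      (φ : ℝ → EuclideanSpace ℂ (Fin n) → EuclideanSpace ℂ (Fin n)),
      ContDiff ℝ ((⊤ : ℕ∞) : WithTop ℕ∞) (Function.uncurry H) ∧
      HasCompactSupport (Function.uncurry H) ∧
      (∀ x, φ 0 x = x) ∧
      (∀ (t : ℝ) (x : EuclideanSpace ℂ (Fin n)),
          ∃ v : EuclideanSpace ℂ (Fin n),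
            HasDerivAt (fun s => φ s x) v t ∧
            ∀ w : EuclideanSpace ℂ (Fin n),
              fderiv ℝ (H t) (φ t x) w = (inner ℂ v w).im) ∧
      ∀ (z : EuclideanSpace ℂ (Fin n)) (γ : ℝ → EuclideanSpace ℂ (Fin n)), γ 0 = z →
        (∀ t ∈ Icc (0 : ℝ) 1, HasDerivAt γ (ham F (γ t)) t) → φ 1 z = γ 1 := by
  obtain ⟨ψ, h0, hψ, hψ1⟩ := exists_ham_flow hF hc
  let ρ : ContDiffBump (0 : ℝ) := ⟨1, 2, one_pos, one_lt_two⟩
  have hρc : Continuous ρ := ρ.continuous
  let S : ℝ → ℝ := fun t => ∫ s in (0 : ℝ)..t, ρ s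
  have hS : ∀ t, HasDerivAt S (ρ t) t := fun t =>
    intervalIntegral.integral_hasDerivAt_right (hρc.intervalIntegrable _ _)
      (hρc.stronglyMeasurableAtFilter _ _) hρc.continuousAt
  have hS0 : S 0 = 0 := by simp [S]
  have hS1 : S 1 = 1 := by
    have : S 1 = ∫ s in (0 : ℝ)..1, (1 : ℝ) := by
      apply intervalIntegral.integral_congr
      intro s hs
      rw [uIcc_of_le zero_le_one] at hs
      apply ρ.one_of_mem_closedBall
      rw [Metric.mem_closedBall, Real.dist_eq, sub_zero, abs_of_nonneg hs.1]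
      exact hs.2
    rw [this]; simp
  refine ⟨fun t z => ρ t * F z, fun t z => ψ (S t) z, ?_, ?_, ?_, ?_, ?_⟩
  · have h1 : ContDiff ℝ ∞ (fun p : ℝ × EuclideanSpace ℂ (Fin n) => ρ p.1) :=
      ρ.contDiff.comp contDiff_fst
    have h2 : ContDiff ℝ ∞ (fun p : ℝ × EuclideanSpace ℂ (Fin n) => F p.2) :=
      hF.comp contDiff_snd
    exact h1.mul h2
  · refine HasCompactSupport.intro (K := Metric.closedBall (0 : ℝ) 2 ×ˢ tsupport F)
      ((isCompact_closedBall _ _).prod hc) ?_
    rintro ⟨t, z⟩ hp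
    simp only [Function.uncurry]
    rw [mem_prod, not_and_or] at hp
    rcases hp with hp | hp
    · rw [ρ.zero_of_le_dist, zero_mul]
      rw [Metric.mem_closedBall, not_le] at hp
      exact hp.le
    · rw [image_eq_zero_of_notMem_tsupport hp, mul_zero]
  · intro x; simp only [hS0, h0]
  · intro t x
    refine ⟨ρ t • ham F (ψ (S t) x), (hψ x (S t)).scomp t (hS t), ?_⟩
    intro w
    have h1 : fderiv ℝ (fun z => ρ t * F z) (ψ (S t) x) = ρ t • fderiv ℝ F (ψ (S t) x) := by
      rw [fderiv_const_mul]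
      exact (hF.differentiable (by simp)).differentiableAt
    rw [h1, smul_apply, ham_spec]
    rw [← Complex.coe_smul, inner_smul_left, Complex.conj_ofReal, smul_eq_mul,
      Complex.im_ofReal_mul]
  · intro z γ hγ0 hγ
    simp only [hS1]
    exact hψ1 z γ hγ0 hγ

end Pool.Agent.H275R3
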