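import Pool.Agent.H275R3.OhFlow

/-!
# The reduced Hamiltonian
-/

open Set Metric
open scoped ContDiff ComplexConjugate

noncomputable section

namespace Pool.Agent.H275R3

/-- `ℂ³` -/
abbrev E3 := EuclideanSpace ℂ (Fin 3)

lemma hasDerivAt_conj_div_norm {Z : ℝ → ℂ} {v : ℂ} {s : ℝ} (hZ : HasDerivAt Z v s)
    (h0 : Z s ≠ 0) :
    HasDerivAt (fun s => conj (Z s) / (‖Z s‖ : ℂ))
      (-Complex.I * (conj (Z s) / (‖Z s‖ : ℂ)) * ((conj (Z s) * v).im / ‖Z s‖ ^ 2 : ℝ)) s := by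
  have hn : (0 : ℝ) < ‖Z s‖ := norm_pos_iff.2 h0
  have hc : HasDerivAt (fun s => conj (Z s)) (conj v) s := by
    exact (Complex.conjCLE : ℂ ≃L[ℝ] ℂ).toContinuousLinearMap.hasFDerivAt.comp_hasDerivAt s hZ
  have h1 : HasDerivAt (fun s => ‖Z s‖ ^ 2) (2 * (conj (Z s) * v).re) s := by
    have := hZ.norm_sq
    rw [Complex.inner, mul_comm v] at this
    exact this
  have h2 : HasDerivAt (fun s => ‖Z s‖) ((conj (Z s) * v).re / ‖Z s‖) s := by
    have h3 := h1.sqrt (by positivity)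
    have h4 : (fun s => ‖Z s‖) = fun s => √(‖Z s‖ ^ 2) := by
      funext s; rw [Real.sqrt_sq (norm_nonneg _)]
    rw [h4]
    convert h3 using 1
    rw [Real.sqrt_sq (norm_nonneg _)]
    field_simp
  have h5 : HasDerivAt (fun s => ((‖Z s‖ : ℝ) : ℂ)) (((conj (Z s) * v).re / ‖Z s‖ : ℝ) : ℂ) s :=
    h2.ofReal_comp
  have h6 := hc.div h5 (by exact_mod_cast hn.ne')
  refine HasDerivAt.congr_deriv (f := fun s => conj (Z s) / (‖Z s‖ : ℂ)) h6 ?_
  have hn' : ((‖Z s‖ : ℝ) : ℂ) ≠ 0 := by exact_mod_cast hn.ne'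
  have h7 : ((‖Z s‖ : ℝ) : ℂ) ^ 2 = conj (Z s) * Z s := by
    rw [← Complex.normSq_eq_conj_mul_self, Complex.normSq_eq_norm_sq]; push_cast; rfl
  push_cast
  have h8 : (((conj (Z s) * v).re : ℝ) : ℂ) = conj v * Z s +
      Complex.I * (((conj (Z s) * v).im : ℝ) : ℂ) := by
    apply Complex.ext
    · simp; ring
    · simp; ring
  rw [h8]
  rw [div_eq_iff (pow_ne_zero 2 hn')]
  field_simp
  rw [h7]
  ring

/-- The invariant coordinate. -/
def ww (z : E3) : ℂ := z 0 * (conj (z 1) / (‖z 1‖ : ℂ)) * (conj (z 2) / (‖z 2‖ : ℂ))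

/-- The reduced Hamiltonian. -/
def GG (κ x₀ : ℝ) (z : E3) : ℝ := -κ * (((ww z).re - x₀) * (ww z).im)

lemma contDiffAt_ww {z : E3} (h1 : z 1 ≠ 0) (h2 : z 2 ≠ 0) : ContDiffAt ℝ ∞ ww z := by
  have hp : ∀ j : Fin 3, ContDiffAt ℝ ∞ (fun z : E3 => z j) z := fun j => by
    have : ContDiff ℝ ∞ (fun z : E3 => z j) :=
      (contDiff_piLp 2).1 contDiff_id j
    exact this.contDiffAt
  have hc : ∀ j : Fin 3, ContDiffAt ℝ ∞ (fun z : E3 => conj (z j)) z := fun j =>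
    (Complex.conjCLE : ℂ ≃L[ℝ] ℂ).contDiff.contDiffAt.comp z (hp j)
  have hn : ∀ j : Fin 3, z j ≠ 0 → ContDiffAt ℝ ∞ (fun z : E3 => ((‖z j‖ : ℝ) : ℂ)) z :=
    fun j hj => Complex.ofRealCLM.contDiff.contDiffAt.comp z ((hp j).norm ℝ hj)
  have hq : ∀ j : Fin 3, z j ≠ 0 →
      ContDiffAt ℝ ∞ (fun z : E3 => conj (z j) / ((‖z j‖ : ℝ) : ℂ)) z := by
    intro j hj
    have h3 := (hc j).mul ((hn j hj).inv (by
      rw [Ne, Complex.ofReal_eq_zero, norm_eq_zero]; exact hj))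
    simp only [div_eq_mul_inv]
    exact h3
  exact ((hp 0).mul (hq 1 h1)).mul (hq 2 h2)

lemma contDiffAt_GG (κ x₀ : ℝ) {z : E3} (h1 : z 1 ≠ 0) (h2 : z 2 ≠ 0) :
    ContDiffAt ℝ ∞ (GG κ x₀) z := by
  have h := contDiffAt_ww h1 h2
  have hre : ContDiffAt ℝ ∞ (fun z => (ww z).re) z := Complex.reCLM.contDiff.contDiffAt.comp z h
  have him : ContDiffAt ℝ ∞ (fun z => (ww z).im) z := Complex.imCLM.contDiff.contDiffAt.comp z h
  exact contDiffAt_const.mul ((hre.sub contDiffAt_const).mul him)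

/-- directional derivative of `ww` -/
def dww (z v : E3) : ℂ :=
  v 0 * (conj (z 1) / (‖z 1‖ : ℂ)) * (conj (z 2) / (‖z 2‖ : ℂ)) -
    Complex.I * ww z * (((conj (z 1) * v 1).im / ‖z 1‖ ^ 2 + (conj (z 2) * v 2).im / ‖z 2‖ ^ 2 : ℝ) : ℂ)

lemma fderiv_GG (κ x₀ : ℝ) {z : E3} (h1 : z 1 ≠ 0) (h2 : z 2 ≠ 0) (v : E3) :
    fderiv ℝ (GG κ x₀) z v =
      -κ * ((dww z v).re * (ww z).im + ((ww z).re - x₀) * (dww z v).im) := by
  have hline : HasDerivAt (fun s : ℝ => z + s • v) v 0 := by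
    simpa using ((hasDerivAt_id (0 : ℝ)).smul_const v).const_add z
  have hz0 : z + (0 : ℝ) • v = z := by simp
  have hG : HasFDerivAt (GG κ x₀) (fderiv ℝ (GG κ x₀) z) (z + (0 : ℝ) • v) := by
    rw [hz0]
    exact ((contDiffAt_GG κ x₀ h1 h2).differentiableAt (by simp)).hasFDerivAt
  have hA := hG.comp_hasDerivAt (0 : ℝ) hline
  have hc : ∀ j : Fin 3, HasDerivAt (fun s : ℝ => z j + s • v j) (v j) 0 := fun j => by
    simpa using ((hasDerivAt_id (0 : ℝ)).smul_const (v j)).const_add (z j)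
  have e1 : z 1 + (0 : ℝ) • v 1 ≠ 0 := by simpa using h1
  have e2 : z 2 + (0 : ℝ) • v 2 ≠ 0 := by simpa using h2
  have hW : HasDerivAt (fun s : ℝ => ww (z + s • v)) (dww z v) 0 := by
    have := ((hc 0).mul (hasDerivAt_conj_div_norm (hc 1) e1)).mul
      (hasDerivAt_conj_div_norm (hc 2) e2)
    have hfun : (fun s : ℝ => ww (z + s • v)) = fun s : ℝ => (z 0 + s • v 0) *
      (conj (z 1 + s • v 1) / (‖z 1 + s • v 1‖ : ℂ)) *
      (conj (z 2 + s • v 2) / (‖z 2 + s • v 2‖ : ℂ)) := rfl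
    rw [hfun]
    refine this.congr_deriv ?_
    simp only [dww, ww, zero_smul, add_zero, Pi.mul_apply]
    push_cast
    ring
  have hre : HasDerivAt (fun s : ℝ => (ww (z + s • v)).re) (dww z v).re 0 :=
    Complex.reCLM.hasFDerivAt.comp_hasDerivAt (0 : ℝ) hW
  have him : HasDerivAt (fun s : ℝ => (ww (z + s • v)).im) (dww z v).im 0 :=
    Complex.imCLM.hasFDerivAt.comp_hasDerivAt (0 : ℝ) hW
  have hB := (((hre.sub_const x₀).mul him).const_mul (-κ))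
  have := hA.unique (f := GG κ x₀ ∘ fun s : ℝ => z + s • v) (by exact hB)
  rw [this, hz0]

end Pool.Agent.H275R3
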