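import Pool.Agent.H275R3.OhCurve

/-!
# The moving torus
-/

open Set Metric
open scoped ContDiff ComplexConjugate Topology

noncomputable section

namespace Pool.Agent.H275R3

/-- centre of the hyperbolic flow -/
def x0 (N : ℝ) : ℝ := (N ^ 3 * N - 2) / (N - 1)

def Xt (N : ℝ) (w : ℂ) (t : ℝ) : ℝ :=
  x0 N * (1 - Real.exp (-(Real.log N * t))) + Real.exp (-(Real.log N * t)) * w.re

def Yt (N : ℝ) (w : ℂ) (t : ℝ) : ℝ := Real.exp (Real.log N * t) * w.im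

def rt (N : ℝ) (w : ℂ) (t : ℝ) : ℝ := √((N ^ 3) ^ 2 - Xt N w t ^ 2 - Yt N w t ^ 2)

/-- the explicit integral curve -/
def gam (N : ℝ) (w u1 u2 : ℂ) (t : ℝ) : E3 :=
  vec ((Xt N w t + Yt N w t * Complex.I) * u1 * u2) (rt N w t * u1) (rt N w t * u2)

lemma tau_bounds {N : ℝ} (hN : 10 ≤ N) {t : ℝ} (ht : t ∈ Icc (0 : ℝ) 1) :
    1 / N ≤ Real.exp (-(Real.log N * t)) ∧ Real.exp (-(Real.log N * t)) ≤ 1 ∧
      Real.exp (Real.log N * t) ≤ N := by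
  have hN0 : 0 < N := by linarith
  have hl : 0 ≤ Real.log N := Real.log_nonneg (by linarith)
  refine ⟨?_, ?_, ?_⟩
  · have h1 : Real.exp (-(Real.log N)) = 1 / N := by
      rw [Real.exp_neg, Real.exp_log hN0, one_div]
    rw [← h1]
    apply Real.exp_le_exp.2
    nlinarith [ht.2]
  · rw [← Real.exp_zero]
    apply Real.exp_le_exp.2
    nlinarith [ht.1]
  · conv_rhs => rw [← Real.exp_log hN0]
    apply Real.exp_le_exp.2
    nlinarith [ht.2]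

lemma x0_mul {N : ℝ} (hN : 10 ≤ N) : x0 N * (1 - 1 / N) = N ^ 3 - 2 / N := by
  have h1 : N - 1 ≠ 0 := by linarith
  have h2 : N ≠ 0 := by linarith
  rw [x0]; field_simp

lemma x0_ge {N : ℝ} (hN : 10 ≤ N) : 1 ≤ x0 N := by
  have h1 : 0 < N - 1 := by linarith
  rw [x0, le_div_iff₀ h1]
  nlinarith [sq_nonneg (N ^ 2), pow_pos (show (0:ℝ) < N by linarith) 3]

lemma re_im_bounds {w : ℂ} (hw : ‖w‖ = 1) : |w.re| ≤ 1 ∧ |w.im| ≤ 1 :=
  ⟨(Complex.abs_re_le_norm w).trans hw.le, (Complex.abs_im_le_norm w).trans hw.le⟩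

lemma Xt_bounds {N : ℝ} (hN : 10 ≤ N) {w : ℂ} (hw : ‖w‖ = 1) {t : ℝ} (ht : t ∈ Icc (0 : ℝ) 1) :
    |Xt N w t| ≤ N ^ 3 - 1 / N := by
  obtain ⟨h1, h2, -⟩ := tau_bounds hN ht
  obtain ⟨h3, -⟩ := re_im_bounds hw
  have h4 := x0_ge hN
  have h5 := x0_mul hN
  have hN0 : 0 < N := by linarith
  have h6 : 1 / N ≤ 1 := by rw [div_le_one hN0]; linarith
  have hM : (1000 : ℝ) ≤ N ^ 3 := by
    calc (1000 : ℝ) = 10 ^ 3 := by norm_num
      _ ≤ N ^ 3 := by gcongr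
  rw [Xt]
  set τ := Real.exp (-(Real.log N * t)) with hτ
  rw [abs_le] at h3 ⊢
  have h20 : 2 / N = 2 * (1 / N) := by ring
  constructor
  · nlinarith [mul_nonneg (by linarith : (0:ℝ) ≤ x0 N) (by linarith : 0 ≤ 1 - τ)]
  · have hτ0 : 0 < τ := Real.exp_pos _
    have hτw : τ * w.re ≤ τ := by nlinarith
    nlinarith [mul_nonneg (by linarith : (0:ℝ) ≤ x0 N - 1) (by linarith : 0 ≤ τ - 1 / N)]

lemma Yt_bounds {N : ℝ} (hN : 10 ≤ N) {w : ℂ} (hw : ‖w‖ = 1) {t : ℝ} (ht : t ∈ Icc (0 : ℝ) 1) :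
    |Yt N w t| ≤ N := by
  obtain ⟨-, -, h2⟩ := tau_bounds hN ht
  obtain ⟨-, h3⟩ := re_im_bounds hw
  rw [Yt, abs_mul, abs_of_pos (Real.exp_pos _)]
  calc _ ≤ N * 1 := mul_le_mul h2 h3 (abs_nonneg _) (by linarith)
    _ = N := mul_one N

lemma rad_ge {N : ℝ} (hN : 10 ≤ N) {X Y : ℝ} (hX : |X| ≤ N ^ 3 - 1 / N) (hY : |Y| ≤ N) :
    N ^ 2 / 2 ≤ (N ^ 3) ^ 2 - X ^ 2 - Y ^ 2 := by
  have hN0 : 0 < N := by linarith
  have h1 : X ^ 2 ≤ (N ^ 3 - 1 / N) ^ 2 := by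
    rw [← sq_abs]; gcongr
  have h2 : Y ^ 2 ≤ N ^ 2 := by rw [← sq_abs]; gcongr
  have h3 : (N ^ 3 - 1 / N) ^ 2 = (N ^ 3) ^ 2 - 2 * N ^ 2 + 1 / N ^ 2 := by
    field_simp; ring
  have h4 : 1 / N ^ 2 ≤ 1 := by
    rw [div_le_one (by positivity)]; nlinarith
  nlinarith

lemma rt_sq {N : ℝ} (hN : 10 ≤ N) {w : ℂ} (hw : ‖w‖ = 1) {t : ℝ} (ht : t ∈ Icc (0 : ℝ) 1) :
    rt N w t ^ 2 = (N ^ 3) ^ 2 - Xt N w t ^ 2 - Yt N w t ^ 2 := by
  rw [rt, Real.sq_sqrt]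
  have := rad_ge hN (Xt_bounds hN hw ht) (Yt_bounds hN hw ht)
  have : 0 < N ^ 2 / 2 := by positivity
  linarith

lemma rt_gt {N : ℝ} (hN : 10 ≤ N) {w : ℂ} (hw : ‖w‖ = 1) {t : ℝ} (ht : t ∈ Icc (0 : ℝ) 1) :
    N / 2 < rt N w t := by
  have h1 := rad_ge hN (Xt_bounds hN hw ht) (Yt_bounds hN hw ht)
  have hN0 : 0 < N := by linarith
  rw [rt]
  apply Real.lt_sqrt_of_sq_lt
  nlinarith

lemma hasDerivAt_Xt (N : ℝ) (w : ℂ) (t : ℝ) :
    HasDerivAt (Xt N w) (-Real.log N * (Xt N w t - x0 N)) t := by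
  have h1 : HasDerivAt (fun t => Real.exp (-(Real.log N * t)))
      (Real.exp (-(Real.log N * t)) * (-(Real.log N * 1))) t :=
    (((hasDerivAt_id t).const_mul (Real.log N)).neg).exp
  have h2 := ((h1.const_sub 1).const_mul (x0 N)).add (h1.mul_const w.re)
  refine h2.congr_deriv ?_
  rw [Xt]; ring

lemma hasDerivAt_Yt (N : ℝ) (w : ℂ) (t : ℝ) :
    HasDerivAt (Yt N w) (Real.log N * Yt N w t) t := by
  have h1 : HasDerivAt (fun t => Real.exp (Real.log N * t))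
      (Real.exp (Real.log N * t) * (Real.log N * 1)) t :=
    (((hasDerivAt_id t).const_mul (Real.log N))).exp
  refine (h1.mul_const w.im).congr_deriv ?_
  rw [Yt]; ring

lemma hasDerivAt_gam {N : ℝ} (hN : 10 ≤ N) {w u1 u2 : ℂ} (hw : ‖w‖ = 1) (h1 : ‖u1‖ = 1)
    (h2 : ‖u2‖ = 1) {F : E3 → ℝ}
    (hF : ∀ z : E3, N / 2 < ‖z 1‖ → N / 2 < ‖z 2‖ → ‖z‖ < 2 * N ^ 3 →
      F =ᶠ[𝓝 z] GG (Real.log N) (x0 N)) {t : ℝ} (ht : t ∈ Icc (0 : ℝ) 1) :
    HasDerivAt (gam N w u1 u2) (ham F (gam N w u1 u2 t)) t := by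
  have hr := rt_gt hN hw ht
  have hr2 := rt_sq hN hw ht
  have hN0 : 0 < N := by linarith
  have hr0 : 0 < rt N w t := by linarith
  set X := Xt N w t with hX
  set Y := Yt N w t with hY
  set κ := Real.log N with hκ
  have dX := hasDerivAt_Xt N w t
  have dY := hasDerivAt_Yt N w t
  set r' : ℝ := (κ * X * (X - x0 N) - κ * Y ^ 2) / rt N w t with hr'
  have dr : HasDerivAt (rt N w) r' t := by
    have h3 := (((dX.pow 2).const_sub ((N ^ 3) ^ 2)).sub (dY.pow 2)).sqrt (by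
      simp only [Pi.pow_apply, Pi.sub_apply]
      rw [← hX, ← hY, ← hr2]; positivity)
    refine h3.congr_deriv ?_
    simp only [Pi.pow_apply, Pi.sub_apply]
    rw [← hX, ← hY, hr']
    have h4 : √((N ^ 3) ^ 2 - X ^ 2 - Y ^ 2) = rt N w t := rfl
    rw [h4]
    field_simp
    simp only [Nat.cast_ofNat, Nat.add_one_sub_one, pow_one]
    ring
  have hd : HasDerivAt (gam N w u1 u2)
      (vec ((((-κ * (X - x0 N) : ℝ) : ℂ) + ((κ * Y : ℝ) : ℂ) * Complex.I) * u1 * u2)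
        (r' * u1) (r' * u2)) t := by
    apply hasDerivAt_vec
    · exact (((dX.ofReal_comp).add ((dY.ofReal_comp).mul_const Complex.I)).mul_const u1).mul_const u2
    · exact (dr.ofReal_comp).mul_const u1
    · exact (dr.ofReal_comp).mul_const u2
  have hn1 : N / 2 < ‖(gam N w u1 u2 t) 1‖ := by
    rw [gam, vec_one, norm_mul, h1, mul_one, Complex.norm_real, Real.norm_eq_abs, abs_of_pos hr0]
    exact hr
  have hn2 : N / 2 < ‖(gam N w u1 u2 t) 2‖ := by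
    rw [gam, vec_two, norm_mul, h2, mul_one, Complex.norm_real, Real.norm_eq_abs, abs_of_pos hr0]
    exact hr
  have hn3 : ‖gam N w u1 u2 t‖ < 2 * N ^ 3 := by
    have h5 : ‖gam N w u1 u2 t‖ ^ 2 = (N ^ 3) ^ 2 + rt N w t ^ 2 := by
      rw [EuclideanSpace.norm_sq_eq, Fin.sum_univ_three, gam]
      simp only [vec_zero, vec_one, vec_two]
      rw [norm_mul, norm_mul, norm_mul, norm_mul, h1, h2, mul_one, mul_one, mul_one,
        Complex.norm_real, Real.norm_eq_abs, sq_abs, ← Complex.normSq_eq_norm_sq,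
        Complex.normSq_add_mul_I, hr2]
      ring
    have h6 : rt N w t ^ 2 ≤ (N ^ 3) ^ 2 := by
      rw [hr2]; nlinarith [sq_nonneg X, sq_nonneg Y]
    have h7 : 0 < N ^ 3 := by positivity
    nlinarith [norm_nonneg (gam N w u1 u2 t)]
  have hE := hF _ hn1 hn2 hn3
  have hh := ham_unique F (gam N w u1 u2 t) _ (fun v => by
    rw [hE.fderiv_eq]
    exact pairing (κ := κ) (x₀ := x0 N) (r' := r') hr0 h1 h2
      (by rw [hr', div_mul_cancel₀ _ hr0.ne']) v)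
  rw [← hh]
  exact hd

end Pool.Agent.H275R3
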