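import Pool.Agent.H275R3.OhMain

/-!
# Volume estimates
-/

open Set Metric MeasureTheory
open scoped ContDiff ComplexConjugate Topology NNReal ENNReal

noncomputable section

namespace Pool.Agent.H275R3

/-- the product torus -/
def TT (b : ℝ) : Set E3 := {z | ‖z 0‖ = 1 ∧ ‖z 1‖ = b ∧ ‖z 2‖ = b}

lemma norm_le_three (z : E3) : ‖z‖ ≤ ‖z 0‖ + ‖z 1‖ + ‖z 2‖ := by
  have h : ‖z‖ ^ 2 = ‖z 0‖ ^ 2 + ‖z 1‖ ^ 2 + ‖z 2‖ ^ 2 := by
    rw [EuclideanSpace.norm_sq_eq, Fin.sum_univ_three]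
  have h0 := norm_nonneg (z 0)
  have h1 := norm_nonneg (z 1)
  have h2 := norm_nonneg (z 2)
  apply le_of_sq_le_sq _ (by positivity)
  rw [h]
  nlinarith [mul_nonneg h0 h1, mul_nonneg h0 h2, mul_nonneg h1 h2]

/-- lower bound for the volume of the product torus -/
lemma lower {b : ℝ} (hb : 0 ≤ b) :
    ENNReal.ofReal (8 * b ^ 2) ≤ μH[((3 : ℕ) : ℝ)] (TT b) := by
  let π : E3 → (Fin 3 → ℝ) := fun z i => (z i).re
  have hπ : LipschitzWith 1 π := by
    refine LipschitzWith.of_dist_le_mul fun z z' => ?_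
    rw [NNReal.coe_one, one_mul, dist_pi_le_iff dist_nonneg]
    intro i
    rw [Real.dist_eq, dist_eq_norm]
    calc |(z i).re - (z' i).re| = |((z - z') i).re| := by simp
      _ ≤ ‖(z - z') i‖ := Complex.abs_re_le_norm _
      _ ≤ ‖z - z'‖ := PiLp.norm_apply_le _ _
  have h1 := hπ.hausdorffMeasure_image_le (d := ((3 : ℕ) : ℝ)) (by positivity) (TT b)
  rw [ENNReal.coe_one, ENNReal.one_rpow, one_mul] at h1
  refine le_trans ?_ h1
  have h2 : Icc (![-1, -b, -b] : Fin 3 → ℝ) ![1, b, b] ⊆ π '' TT b := by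
    rintro s ⟨hs1, hs2⟩
    have key : ∀ (c x : ℝ), 0 ≤ c → -c ≤ x → x ≤ c → ‖(x : ℂ) + √(c ^ 2 - x ^ 2) * Complex.I‖ = c := by
      intro c x hc h1 h2
      have h3 : 0 ≤ c ^ 2 - x ^ 2 := by nlinarith
      have h4 : ‖(x : ℂ) + √(c ^ 2 - x ^ 2) * Complex.I‖ ^ 2 = c ^ 2 := by
        rw [← Complex.normSq_eq_norm_sq, Complex.normSq_add_mul_I, Real.sq_sqrt h3]; ring
      exact (sq_eq_sq₀ (norm_nonneg _) hc).1 h4
    have a0 := hs1 0
    have a1 := hs1 1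
    have a2 := hs1 2
    have b0 := hs2 0
    have b1 := hs2 1
    have b2 := hs2 2
    simp at a0 a1 a2 b0 b1 b2
    refine ⟨vec (s 0 + √(1 ^ 2 - s 0 ^ 2) * Complex.I) (s 1 + √(b ^ 2 - s 1 ^ 2) * Complex.I)
      (s 2 + √(b ^ 2 - s 2 ^ 2) * Complex.I), ⟨?_, ?_, ?_⟩, ?_⟩
    · rw [vec_zero]; exact key 1 (s 0) one_pos.le a0 b0
    · rw [vec_one]; exact key b (s 1) hb a1 b1
    · rw [vec_two]; exact key b (s 2) hb a2 b2
    · funext i
      fin_cases i <;> simp [π]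
  refine le_trans ?_ (measure_mono h2)
  have h3 : ((3 : ℕ) : ℝ) = ((Fintype.card (Fin 3) : ℕ) : ℝ) := by simp
  rw [h3, hausdorffMeasure_pi_real, Real.volume_Icc_pi, Fin.prod_univ_three]
  simp only [Matrix.cons_val]
  rw [← ENNReal.ofReal_mul (by norm_num), ← ENNReal.ofReal_mul (by nlinarith)]
  apply ENNReal.ofReal_le_ofReal
  nlinarith

/-- The final curve in the reduced plane. -/
def Xf (N φ : ℝ) : ℝ := N ^ 3 - 2 / N + Real.cos φ / N
def Yf (N φ : ℝ) : ℝ := N * Real.sin φ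
def Rf (N φ : ℝ) : ℝ := √((N ^ 3) ^ 2 - Xf N φ ^ 2 - Yf N φ ^ 2)

lemma Xf_bounds {N : ℝ} (hN : 10 ≤ N) (φ : ℝ) : |Xf N φ| ≤ N ^ 3 - 1 / N ∧
    N ^ 3 - 3 / N ≤ Xf N φ := by
  have hN0 : 0 < N := by linarith
  have h1 := Real.cos_le_one φ
  have h2 := Real.neg_one_le_cos φ
  have hM : (1000 : ℝ) ≤ N ^ 3 := by
    calc (1000 : ℝ) = 10 ^ 3 := by norm_num
      _ ≤ N ^ 3 := by gcongr
  have h6 : 1 / N ≤ 1 := by rw [div_le_one hN0]; linarith
  have h7 : Real.cos φ / N ≤ 1 / N := by gcongr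
  have h8 : -(1 / N) ≤ Real.cos φ / N := by
    rw [← neg_div]; gcongr
  have h20 : 2 / N = 2 * (1 / N) := by ring
  have h30 : 3 / N = 3 * (1 / N) := by ring
  have h9 : 0 < 1 / N := by positivity
  rw [Xf, abs_le]
  refine ⟨⟨?_, ?_⟩, ?_⟩ <;> linarith

lemma Yf_bounds {N : ℝ} (hN : 10 ≤ N) (φ : ℝ) : |Yf N φ| ≤ N := by
  rw [Yf, abs_mul, abs_of_pos (by linarith : 0 < N)]
  have := Real.abs_sin_le_one φ
  nlinarith

lemma Rf_sq {N : ℝ} (hN : 10 ≤ N) (φ : ℝ) :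
    Rf N φ ^ 2 = (N ^ 3) ^ 2 - Xf N φ ^ 2 - Yf N φ ^ 2 := by
  rw [Rf, Real.sq_sqrt]
  have := rad_ge hN (Xf_bounds hN φ).1 (Yf_bounds hN φ)
  have : 0 < N ^ 2 / 2 := by have : 0 < N := by linarith
                             positivity
  linarith

lemma Rf_ge {N : ℝ} (hN : 10 ≤ N) (φ : ℝ) : 2 / 3 * N ≤ Rf N φ := by
  have h1 := rad_ge hN (Xf_bounds hN φ).1 (Yf_bounds hN φ)
  have hN0 : 0 < N := by linarith
  rw [Rf]
  apply Real.le_sqrt_of_sq_le
  nlinarith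

lemma Rf_le {N : ℝ} (hN : 10 ≤ N) (φ : ℝ) : Rf N φ ≤ 3 * N := by
  have hN0 : 0 < N := by linarith
  obtain ⟨-, h1⟩ := Xf_bounds hN φ
  have h2 : 0 ≤ N ^ 3 - 3 / N := by
    have hM : (1000 : ℝ) ≤ N ^ 3 := by
      calc (1000 : ℝ) = 10 ^ 3 := by norm_num
        _ ≤ N ^ 3 := by gcongr
    have h6 : 3 / N ≤ 1 := by rw [div_le_one hN0]; linarith
    linarith
  have h3 : (N ^ 3 - 3 / N) ^ 2 ≤ Xf N φ ^ 2 := by gcongr
  have h4 : (N ^ 3 - 3 / N) ^ 2 = (N ^ 3) ^ 2 - 6 * N ^ 2 + 9 / N ^ 2 := by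
    field_simp; ring
  have h5 : 0 < 9 / N ^ 2 := by positivity
  have h6 := Rf_sq hN φ
  have h7 : 0 ≤ Rf N φ := Real.sqrt_nonneg _
  apply le_of_sq_le_sq _ (by positivity)
  rw [h6]
  nlinarith [sq_nonneg (Yf N φ)]

lemma Xf_lip {N : ℝ} (hN : 10 ≤ N) (a b : ℝ) : |Xf N a - Xf N b| ≤ 1 / N * |a - b| := by
  have hN0 : 0 < N := by linarith
  have h : Xf N a - Xf N b = 1 / N * (Real.cos a - Real.cos b) := by rw [Xf, Xf]; ring
  rw [h, abs_mul, abs_of_pos (by positivity : 0 < 1 / N)]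
  exact mul_le_mul_of_nonneg_left (Real.abs_cos_sub_cos_le a b) (by positivity)

lemma Yf_lip {N : ℝ} (hN : 10 ≤ N) (a b : ℝ) : |Yf N a - Yf N b| ≤ N * |a - b| := by
  have hN0 : 0 < N := by linarith
  have h : Yf N a - Yf N b = N * (Real.sin a - Real.sin b) := by rw [Yf, Yf]; ring
  rw [h, abs_mul, abs_of_pos hN0]
  exact mul_le_mul_of_nonneg_left (Real.abs_sin_sub_sin_le a b) (by positivity)

lemma Rf_lip {N : ℝ} (hN : 10 ≤ N) (a b : ℝ) : |Rf N a - Rf N b| ≤ 3 * N * |a - b| := by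
  have hN0 : 0 < N := by linarith
  have h1 := Rf_ge hN a
  have h2 := Rf_ge hN b
  have h3 : (Rf N a - Rf N b) * (Rf N a + Rf N b) =
      -((Xf N a - Xf N b) * (Xf N a + Xf N b)) - (Yf N a - Yf N b) * (Yf N a + Yf N b) := by
    have e1 := Rf_sq hN a
    have e2 := Rf_sq hN b
    linear_combination e1 - e2
  have h4 : |(Xf N a - Xf N b) * (Xf N a + Xf N b)| ≤ 2 * N ^ 2 * |a - b| := by
    rw [abs_mul]
    have h5 : |Xf N a + Xf N b| ≤ 2 * N ^ 3 := by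
      refine (abs_add_le _ _).trans ?_
      have e1 := (Xf_bounds hN a).1
      have e2 := (Xf_bounds hN b).1
      have : 0 < 1 / N := by positivity
      linarith
    calc _ ≤ (1 / N * |a - b|) * (2 * N ^ 3) := mul_le_mul (Xf_lip hN a b) h5 (abs_nonneg _)
            (by positivity)
      _ = 2 * N ^ 2 * |a - b| := by field_simp
  have h6 : |(Yf N a - Yf N b) * (Yf N a + Yf N b)| ≤ 2 * N ^ 2 * |a - b| := by
    rw [abs_mul]
    have h5 : |Yf N a + Yf N b| ≤ 2 * N := by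
      refine (abs_add_le _ _).trans ?_
      have e1 := Yf_bounds hN a
      have e2 := Yf_bounds hN b
      linarith
    calc _ ≤ (N * |a - b|) * (2 * N) := mul_le_mul (Yf_lip hN a b) h5 (abs_nonneg _)
            (by positivity)
      _ = 2 * N ^ 2 * |a - b| := by ring
  have h7 : |(Rf N a - Rf N b) * (Rf N a + Rf N b)| ≤ 4 * N ^ 2 * |a - b| := by
    rw [h3]
    refine (abs_sub _ _).trans ?_
    rw [abs_neg]
    linarith
  rw [abs_mul, abs_of_pos (by linarith : 0 < Rf N a + Rf N b)] at h7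
  have h8 : |Rf N a - Rf N b| * (4 / 3 * N) ≤ 4 * N ^ 2 * |a - b| := by
    refine le_trans ?_ h7
    gcongr
    linarith
  have h9 : |Rf N a - Rf N b| * (4 / 3 * N) ≤ (3 * N * |a - b|) * (4 / 3 * N) := by
    refine h8.trans (le_of_eq ?_); ring
  exact le_of_mul_le_mul_right h9 (by positivity)

lemma exp_lip (a b : ℝ) :
    ‖Complex.exp (Complex.I * a) - Complex.exp (Complex.I * b)‖ ≤ |a - b| := by
  have h : Complex.exp (Complex.I * a) - Complex.exp (Complex.I * b) =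
      Complex.exp (Complex.I * b) * (Complex.exp (Complex.I * ((a - b : ℝ) : ℂ)) - 1) := by
    rw [mul_sub, mul_one, ← Complex.exp_add]
    congr 2
    push_cast; ring
  rw [h, norm_mul]
  have h1 : ‖Complex.exp (Complex.I * b)‖ = 1 := by
    rw [mul_comm]; exact Complex.norm_exp_ofReal_mul_I b
  rw [h1, one_mul]
  exact Real.norm_exp_I_mul_ofReal_sub_one_le

lemma norm_exp_I (a : ℝ) : ‖Complex.exp (Complex.I * a)‖ = 1 := by
  rw [mul_comm]; exact Complex.norm_exp_ofReal_mul_I a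

lemma prod_lip (p q u v : ℂ) (hu : ‖u‖ = 1) : ‖p * u - q * v‖ ≤ ‖p - q‖ + ‖q‖ * ‖u - v‖ := by
  have : p * u - q * v = (p - q) * u + q * (u - v) := by ring
  rw [this]
  refine (norm_add_le _ _).trans ?_
  rw [norm_mul, norm_mul, hu, mul_one]

/-- A parametrisation of the final torus. -/
def Psi (N : ℝ) (s : Fin 3 → ℝ) : E3 :=
  vec (((Xf N (s 2 / N) : ℝ) + (Yf N (s 2 / N) : ℝ) * Complex.I) *
      Complex.exp (Complex.I * ((s 0 / N ^ 3 : ℝ) : ℂ)))
    ((Rf N (s 2 / N) : ℝ) * Complex.exp (Complex.I * ((s 1 / N : ℝ) : ℂ)))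
    ((Rf N (s 2 / N) : ℝ) * Complex.exp (Complex.I * ((s 0 / N ^ 3 - s 1 / N : ℝ) : ℂ)))

lemma Psi_lip {N : ℝ} (hN : 10 ≤ N) : LipschitzWith 18 (Psi N) := by
  have hN0 : 0 < N := by linarith
  have hN3 : 0 < N ^ 3 := by positivity
  refine LipschitzWith.of_dist_le_mul fun s s' => ?_
  set d := dist s s' with hd
  have hd0 : 0 ≤ d := dist_nonneg
  have hc : ∀ i, |s i - s' i| ≤ d := fun i => by
    rw [← Real.dist_eq]; exact dist_le_pi_dist s s' i
  have d0 : |s 0 / N ^ 3 - s' 0 / N ^ 3| ≤ d / N ^ 3 := by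
    rw [← sub_div, abs_div, abs_of_pos hN3]; gcongr; exact hc 0
  have d1 : |s 1 / N - s' 1 / N| ≤ d / N := by
    rw [← sub_div, abs_div, abs_of_pos hN0]; gcongr; exact hc 1
  have d2 : |s 2 / N - s' 2 / N| ≤ d / N := by
    rw [← sub_div, abs_div, abs_of_pos hN0]; gcongr; exact hc 2
  have hNN : d / N ^ 3 ≤ d / N := by
    gcongr
    nlinarith [sq_nonneg (N - 1), sq_nonneg N]
  have hR : |Rf N (s 2 / N) - Rf N (s' 2 / N)| ≤ 3 * d := by
    refine (Rf_lip hN _ _).trans ?_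
    calc _ ≤ 3 * N * (d / N) := by gcongr
      _ = 3 * d := by field_simp
  have hR' : ‖((Rf N (s 2 / N) : ℝ) : ℂ) - ((Rf N (s' 2 / N) : ℝ) : ℂ)‖ ≤ 3 * d := by
    rw [← Complex.ofReal_sub, Complex.norm_real, Real.norm_eq_abs]; exact hR
  have hRn : ‖((Rf N (s' 2 / N) : ℝ) : ℂ)‖ ≤ 3 * N := by
    rw [Complex.norm_real, Real.norm_eq_abs, abs_of_nonneg (by rw [Rf]; exact Real.sqrt_nonneg _)]
    exact Rf_le hN _
  have c1 : ‖(Psi N s - Psi N s') 1‖ ≤ 6 * d := by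
    have : (Psi N s - Psi N s') 1 = (Psi N s) 1 - (Psi N s') 1 := rfl
    rw [this, Psi, Psi, vec_one, vec_one]
    refine (prod_lip _ _ _ _ (norm_exp_I _)).trans ?_
    have h1 := exp_lip (s 1 / N) (s' 1 / N)
    calc _ ≤ 3 * d + 3 * N * (d / N) := by
            gcongr
            exact h1.trans d1
      _ = 6 * d := by field_simp; ring
  have c2 : ‖(Psi N s - Psi N s') 2‖ ≤ 9 * d := by
    have : (Psi N s - Psi N s') 2 = (Psi N s) 2 - (Psi N s') 2 := rfl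
    rw [this, Psi, Psi, vec_two, vec_two]
    refine (prod_lip _ _ _ _ (norm_exp_I _)).trans ?_
    have h1 := exp_lip (s 0 / N ^ 3 - s 1 / N) (s' 0 / N ^ 3 - s' 1 / N)
    have h2 : |(s 0 / N ^ 3 - s 1 / N) - (s' 0 / N ^ 3 - s' 1 / N)| ≤ 2 * (d / N) := by
      have : (s 0 / N ^ 3 - s 1 / N) - (s' 0 / N ^ 3 - s' 1 / N) =
        (s 0 / N ^ 3 - s' 0 / N ^ 3) - (s 1 / N - s' 1 / N) := by ring
      rw [this]
      refine (abs_sub _ _).trans ?_
      linarith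
    calc _ ≤ 3 * d + 3 * N * (2 * (d / N)) := by
            gcongr
            exact h1.trans h2
      _ = 9 * d := by field_simp; ring
  have c0 : ‖(Psi N s - Psi N s') 0‖ ≤ 3 * d := by
    have : (Psi N s - Psi N s') 0 = (Psi N s) 0 - (Psi N s') 0 := rfl
    rw [this, Psi, Psi, vec_zero, vec_zero]
    refine (prod_lip _ _ _ _ (norm_exp_I _)).trans ?_
    have h1 := exp_lip (s 0 / N ^ 3) (s' 0 / N ^ 3)
    have h2 : ‖(((Xf N (s 2 / N) : ℝ) : ℂ) + (Yf N (s 2 / N) : ℝ) * Complex.I) -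
        (((Xf N (s' 2 / N) : ℝ) : ℂ) + (Yf N (s' 2 / N) : ℝ) * Complex.I)‖ ≤ 2 * d := by
      have e : (((Xf N (s 2 / N) : ℝ) : ℂ) + (Yf N (s 2 / N) : ℝ) * Complex.I) -
        (((Xf N (s' 2 / N) : ℝ) : ℂ) + (Yf N (s' 2 / N) : ℝ) * Complex.I) =
        ((Xf N (s 2 / N) - Xf N (s' 2 / N) : ℝ) : ℂ) +
          ((Yf N (s 2 / N) - Yf N (s' 2 / N) : ℝ) : ℂ) * Complex.I := by
        push_cast; ring
      rw [e]
      refine (norm_add_le _ _).trans ?_
      rw [norm_mul, Complex.norm_I, mul_one, Complex.norm_real, Complex.norm_real,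
        Real.norm_eq_abs, Real.norm_eq_abs]
      have e1 := (Xf_lip hN (s 2 / N) (s' 2 / N)).trans
        (mul_le_mul_of_nonneg_left d2 (by positivity))
      have e2 := (Yf_lip hN (s 2 / N) (s' 2 / N)).trans
        (mul_le_mul_of_nonneg_left d2 (by positivity))
      have e3 : N * (d / N) = d := by field_simp
      have e4 : 1 / N * (d / N) ≤ d := by
        have : 1 / N * (d / N) = d * (1 / N ^ 2) := by field_simp
        rw [this]
        have : 1 / N ^ 2 ≤ 1 := by rw [div_le_one (by positivity)]; nlinarith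
        nlinarith
      linarith
    have h3 : ‖((Xf N (s' 2 / N) : ℝ) : ℂ) + (Yf N (s' 2 / N) : ℝ) * Complex.I‖ ≤ N ^ 3 := by
      apply le_of_sq_le_sq _ (by positivity)
      rw [← Complex.normSq_eq_norm_sq, Complex.normSq_add_mul_I]
      have := Rf_sq hN (s' 2 / N)
      nlinarith [sq_nonneg (Rf N (s' 2 / N))]
    calc _ ≤ 2 * d + N ^ 3 * (d / N ^ 3) := by
            gcongr
            exact h1.trans d0
      _ = 3 * d := by field_simp; norm_num
  rw [dist_eq_norm]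
  refine (norm_le_three _).trans ?_
  push_cast
  linarith

lemma exists_arg (u : ℂ) (hu : ‖u‖ = 1) : ∃ a ∈ Icc (-Real.pi) Real.pi,
    u = Complex.exp (Complex.I * (a : ℝ)) := by
  refine ⟨Complex.arg u, ⟨(Complex.neg_pi_lt_arg u).le, Complex.arg_le_pi u⟩, ?_⟩
  have := Complex.norm_mul_exp_arg_mul_I u
  rw [hu, Complex.ofReal_one, one_mul, mul_comm] at this
  exact this.symm

/-- upper bound for the volume of the final torus -/
lemma upper {N : ℝ} (hN : 10 ≤ N) :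
    μH[((3 : ℕ) : ℝ)] {z : E3 | ∃ w u1 u2 : ℂ, ‖w‖ = 1 ∧ ‖u1‖ = 1 ∧ ‖u2‖ = 1 ∧
      z = gam N w u1 u2 1} ≤ ENNReal.ofReal (5832 * (8 * Real.pi ^ 3 * N ^ 5)) := by
  have hN0 : 0 < N := by linarith
  have hN3 : 0 < N ^ 3 := by positivity
  set B : Set (Fin 3 → ℝ) := Icc ![-(Real.pi * N ^ 3), -(Real.pi * N), -(Real.pi * N)]
    ![Real.pi * N ^ 3, Real.pi * N, Real.pi * N] with hB
  have hsub : {z : E3 | ∃ w u1 u2 : ℂ, ‖w‖ = 1 ∧ ‖u1‖ = 1 ∧ ‖u2‖ = 1 ∧
      z = gam N w u1 u2 1} ⊆ Psi N '' B := by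
    rintro z ⟨w, u1, u2, hw, h1, h2, rfl⟩
    obtain ⟨φ, hφ, ew⟩ := exists_arg w hw
    obtain ⟨θ, hθ, e1⟩ := exists_arg u1 h1
    obtain ⟨Θ, hΘ, e2⟩ := exists_arg (u1 * u2) (by rw [norm_mul, h1, h2, one_mul])
    have hre : w.re = Real.cos φ := by
      rw [ew, mul_comm, Complex.exp_ofReal_mul_I_re]
    have him : w.im = Real.sin φ := by
      rw [ew, mul_comm, Complex.exp_ofReal_mul_I_im]
    have hX : Xt N w 1 = Xf N φ := by
      have h3 : Real.exp (-(Real.log N * 1)) = 1 / N := by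
        rw [mul_one, Real.exp_neg, Real.exp_log hN0, one_div]
      rw [Xt, Xf, h3, x0_mul hN, hre]; ring
    have hY : Yt N w 1 = Yf N φ := by
      rw [Yt, Yf, mul_one, Real.exp_log hN0, him]
    have hR : rt N w 1 = Rf N φ := by rw [rt, Rf, hX, hY]
    have eu2 : u2 = Complex.exp (Complex.I * ((Θ - θ : ℝ) : ℂ)) := by
      have hne : u1 ≠ 0 := by
        intro h; rw [h, norm_zero] at h1; exact zero_ne_one h1
      apply mul_left_cancel₀ hne
      rw [e2, e1, ← Complex.exp_add]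
      congr 1; push_cast; ring
    refine ⟨![Θ * N ^ 3, θ * N, φ * N], ⟨?_, ?_⟩, ?_⟩
    · intro i
      fin_cases i
      · simp; nlinarith [hΘ.1]
      · simp; nlinarith [hθ.1]
      · simp; nlinarith [hφ.1]
    · intro i
      fin_cases i
      · simp; exact mul_le_mul_of_nonneg_right hΘ.2 hN3.le
      · simp; exact mul_le_mul_of_nonneg_right hθ.2 hN0.le
      · simp; exact mul_le_mul_of_nonneg_right hφ.2 hN0.le
    · have i0 : (![Θ * N ^ 3, θ * N, φ * N] : Fin 3 → ℝ) 0 / N ^ 3 = Θ := by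
        simp only [Matrix.cons_val]; field_simp
      have i1 : (![Θ * N ^ 3, θ * N, φ * N] : Fin 3 → ℝ) 1 / N = θ := by
        simp only [Matrix.cons_val]; field_simp
      have i2 : (![Θ * N ^ 3, θ * N, φ * N] : Fin 3 → ℝ) 2 / N = φ := by
        simp only [Matrix.cons_val]; field_simp
      rw [Psi, i0, i1, i2, gam, hX, hY, hR, mul_assoc _ u1 u2, e2, ← eu2, ← e1]
  refine (measure_mono hsub).trans ?_
  refine ((Psi_lip hN).hausdorffMeasure_image_le (d := ((3 : ℕ) : ℝ)) (by positivity) B).trans ?_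
  have h3 : ((3 : ℕ) : ℝ) = ((Fintype.card (Fin 3) : ℕ) : ℝ) := by simp
  rw [h3, hausdorffMeasure_pi_real, hB, Real.volume_Icc_pi, Fin.prod_univ_three]
  simp only [Matrix.cons_val]
  have hpi := Real.pi_pos
  rw [← ENNReal.ofReal_mul (by nlinarith [mul_pos hpi hN3]),
    ← ENNReal.ofReal_mul (by
      have := mul_pos hpi hN3
      have := mul_pos hpi hN0
      apply mul_nonneg <;> linarith)]
  have h18 : ((18 : ℝ≥0) : ℝ≥0∞) ^ ((Fintype.card (Fin 3) : ℕ) : ℝ) = ENNReal.ofReal 5832 := by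
    rw [ENNReal.rpow_natCast, Fintype.card_fin]
    have : ((18 : ℝ≥0) : ℝ≥0∞) = ENNReal.ofReal 18 := by
      rw [ENNReal.ofReal]; congr 1; ext; simp
    rw [this, ← ENNReal.ofReal_pow (by norm_num)]
    norm_num
  rw [h18, ← ENNReal.ofReal_mul (by norm_num)]
  apply ENNReal.ofReal_le_ofReal
  apply le_of_eq
  ring

end Pool.Agent.H275R3
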