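import Mathlib

set_option autoImplicit false

namespace Pool.Agent.H275R3.PS

open FreeGroup Filter

variable {M : Type*} [DecidableEq M]

/-- inverse letter -/
def il (a : M × Bool) : M × Bool := (a.1, !a.2)

omit [DecidableEq M] in
@[simp] lemma il_il (a : M × Bool) : il (il a) = a := by simp [il]

omit [DecidableEq M] in
lemma il_ne (a : M × Bool) : il a ≠ a := by
  intro h
  have := congrArg Prod.snd h
  simp [il] at this

omit [DecidableEq M] in
lemma mk_il (a : M × Bool) : (mk [il a] : FreeGroup M) = (mk [a])⁻¹ := by
  simp [il, inv_mk, invRev]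

/-- first letter -/
def hd (u : FreeGroup M) : Option (M × Bool) := u.toWord.head?

omit [DecidableEq M] in
lemma isReduced_cons_iff (a : M × Bool) (L : List (M × Bool)) :
    FreeGroup.IsReduced (a :: L) ↔ (L.head? ≠ some (il a)) ∧ FreeGroup.IsReduced L := by
  cases L with
  | nil => simp [FreeGroup.IsReduced]
  | cons b L =>
    rw [FreeGroup.isReduced_cons_cons]
    constructor
    · rintro ⟨h1, h2⟩
      refine ⟨?_, h2⟩
      intro h
      simp only [List.head?_cons, Option.some.injEq] at h
      rw [h] at h1
      have := h1 rfl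
      simp [il] at this
    · rintro ⟨h1, h2⟩
      refine ⟨?_, h2⟩
      intro h
      by_contra h3
      apply h1
      simp only [List.head?_cons, Option.some.injEq, il]
      ext
      · exact h.symm
      · simp only
        cases h4 : a.2 <;> cases h5 : b.2 <;> simp_all

lemma norm_pow_ge {w : FreeGroup M} (hw : w ≠ 1) (n : ℕ) : n ≤ FreeGroup.norm (w ^ n) := by
  rcases Nat.eq_zero_or_pos n with hn | hn
  · simp [hn]
  have h1 := toWord_pow w n
  rw [reduceCyclically.reduce_flatten_replicate isReduced_toWord, if_neg (by omega)] at h1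
  unfold FreeGroup.norm
  rw [h1]
  have h2 : reduceCyclically w.toWord ≠ [] := by
    intro h
    have h3 := reduceCyclically.conj_conjugator_reduceCyclically w.toWord
    rw [h, List.append_nil] at h3
    apply hw
    have h4 : (mk w.toWord : FreeGroup M) = 1 := by
      have h5 : (mk (reduceCyclically.conjugator w.toWord) : FreeGroup M)
        * (mk (reduceCyclically.conjugator w.toWord))⁻¹ = 1 := mul_inv_cancel _
      rw [inv_mk, mul_mk, h3] at h5
      exact h5
    rwa [mk_toWord] at h4
  have h3 : 1 ≤ (reduceCyclically w.toWord).length := List.length_pos_of_ne_nil h2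
  simp only [List.length_append, List.length_flatten, List.map_replicate, List.sum_replicate,
    smul_eq_mul]
  nlinarith

/-- if the heads differ then the concatenation `u⁻¹ v` is reduced -/
lemma norm_inv_mul_of_hd_ne {u v : FreeGroup M} (h : hd u ≠ hd v) :
    FreeGroup.norm (u⁻¹ * v) = FreeGroup.norm u + FreeGroup.norm v := by
  unfold FreeGroup.norm
  rw [toWord_mul, toWord_inv]
  have h1 : FreeGroup.IsReduced (invRev u.toWord ++ v.toWord) := by
    have hu : FreeGroup.IsReduced (invRev u.toWord) := by
      rw [← toWord_inv]; exact isReduced_toWord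
    have hv : FreeGroup.IsReduced v.toWord := isReduced_toWord
    unfold FreeGroup.IsReduced at hu hv ⊢
    rw [List.isChain_append]
    refine ⟨hu, hv, ?_⟩
    intro a ha b hb hab
    unfold hd at h
    have h2 : u.toWord.head? = some (il a) := by
      unfold invRev at ha
      rw [List.getLast?_reverse] at ha
      rw [List.head?_map] at ha
      cases h3 : u.toWord.head? with
      | none => rw [h3] at ha; simp at ha
      | some c =>
        rw [h3] at ha
        simp only [Option.map_some, Option.mem_def, Option.some.injEq] at ha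
        rw [← ha]
        simp [il]
    have h3 : v.toWord.head? = some b := hb
    rw [h2, h3] at h
    by_contra h4
    apply h
    congr 1
    simp only [il]
    ext
    · exact hab
    · simp only
      cases h5 : a.2 <;> cases h6 : b.2 <;> simp_all
  rw [h1.reduce_eq]
  simp

lemma hd_eq_of_norm_lt {u v : FreeGroup M}
    (h : FreeGroup.norm (u⁻¹ * v) < FreeGroup.norm u + FreeGroup.norm v) : hd u = hd v := by
  by_contra h1
  rw [norm_inv_mul_of_hd_ne h1] at h
  exact lt_irrefl _ h

lemma norm_mul_pow_ge {w : FreeGroup M} (hw : w ≠ 1) (u : FreeGroup M) (n : ℕ) :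
    n ≤ FreeGroup.norm (u * w ^ n) + FreeGroup.norm u := by
  have h1 := norm_pow_ge hw n
  have h2 : w ^ n = u⁻¹ * (u * w ^ n) := by group
  have h3 := norm_mul_le u⁻¹ (u * w ^ n)
  rw [← h2, norm_inv_eq] at h3
  omega

lemma hd_isSome {u : FreeGroup M} (h : FreeGroup.norm u ≠ 0) : ∃ a, hd u = some a := by
  unfold hd
  cases h1 : u.toWord with
  | nil =>
    exfalso
    apply h
    unfold FreeGroup.norm
    rw [h1]; rfl
  | cons a L => exact ⟨a, rfl⟩

lemma exists_endLetter {w : FreeGroup M} (hw : w ≠ 1) (u : FreeGroup M) :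
    ∃ a : M × Bool, ∀ᶠ k : ℕ in atTop, hd (u * w ^ k) = some a := by
  set K : ℕ := FreeGroup.norm u + FreeGroup.norm w + 1 with hK
  have hstep : ∀ k, K ≤ k → hd (u * w ^ (k + 1)) = hd (u * w ^ k) := by
    intro k hk
    symm
    apply hd_eq_of_norm_lt
    have h1 : (u * w ^ k)⁻¹ * (u * w ^ (k + 1)) = w := by
      rw [pow_succ]; group
    rw [h1]
    have h2 := norm_mul_pow_ge hw u k
    have h3 := norm_mul_pow_ge hw u (k + 1)
    omega
  have hK0 : FreeGroup.norm (u * w ^ K) ≠ 0 := by
    have h2 := norm_mul_pow_ge hw u K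
    omega
  obtain ⟨a, ha⟩ := hd_isSome hK0
  refine ⟨a, ?_⟩
  rw [eventually_atTop]
  refine ⟨K, ?_⟩
  intro k hk
  induction k, hk using Nat.le_induction with
  | base => exact ha
  | succ k hk ih => rw [hstep k hk]; exact ih

/-- the first letter towards the end `w^∞` -/
noncomputable def endLetter (w : FreeGroup M) (hw : w ≠ 1) (u : FreeGroup M) : M × Bool :=
  (exists_endLetter hw u).choose

lemma endLetter_spec {w : FreeGroup M} (hw : w ≠ 1) (u : FreeGroup M) :
    ∀ᶠ k : ℕ in atTop, hd (u * w ^ k) = some (endLetter w hw u) :=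
  (exists_endLetter hw u).choose_spec

lemma endLetter_mul_comm {w : FreeGroup M} (hw : w ≠ 1) (u z : FreeGroup M)
    (hz : z * w = w * z) : endLetter w hw (u * z) = endLetter w hw u := by
  have h1 := endLetter_spec hw u
  have h2 := endLetter_spec hw (u * z)
  have h3 : ∀ᶠ k : ℕ in atTop, hd (u * w ^ k) = hd (u * z * w ^ k) := by
    rw [eventually_atTop]
    refine ⟨FreeGroup.norm u + FreeGroup.norm z + 1, ?_⟩
    intro k hk
    apply hd_eq_of_norm_lt
    have hzk : z * w ^ k = w ^ k * z := (Commute.pow_right hz k : Commute z (w ^ k))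
    have h4 : (u * w ^ k)⁻¹ * (u * z * w ^ k) = z := by
      rw [mul_assoc u z, hzk]; group
    rw [h4]
    have h5 := norm_mul_pow_ge hw u k
    omega
  obtain ⟨k, hk1, hk2, hk3⟩ := (h1.and (h2.and h3)).exists
  rw [hk1, hk2] at hk3
  exact (Option.some.inj hk3).symm

lemma endLetter_step {w : FreeGroup M} (hw : w ≠ 1) (u : FreeGroup M) (a : M × Bool) :
    endLetter w hw (mk [a] * u) = a ↔ endLetter w hw u ≠ il a := by
  have h1 := endLetter_spec hw u
  have h2 := endLetter_spec hw (mk [a] * u)
  obtain ⟨k, hk1, hk2⟩ := (h1.and h2).exists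
  set v : FreeGroup M := u * w ^ k with hv
  rw [mul_assoc, ← hv] at hk2
  set b := endLetter w hw u with hb
  set c := endLetter w hw (mk [a] * u) with hc
  constructor
  · intro hca hba
    -- v starts with il a, so a*v has word tail
    unfold hd at hk1
    cases h3 : v.toWord with
    | nil => rw [h3] at hk1; simp at hk1
    | cons d L =>
      rw [h3] at hk1
      simp only [List.head?_cons, Option.some.injEq] at hk1
      have hd1 : d = il a := by rw [hk1, hba]
      have hred : FreeGroup.IsReduced (d :: L) := by rw [← h3]; exact isReduced_toWord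
      rw [isReduced_cons_iff] at hred
      have hvm : v = mk (d :: L) := by rw [← h3, mk_toWord]
      have h4 : (mk [a] : FreeGroup M) * v = mk L := by
        have h5 : (mk (il a :: L) : FreeGroup M) = mk [il a] * mk L := by
          rw [mul_mk]; rfl
        rw [hvm, hd1, h5, mk_il]
        group
      rw [h4] at hk2
      unfold hd at hk2
      rw [toWord_mk, hred.2.reduce_eq] at hk2
      apply hred.1
      rw [hk2, hca, hd1, il_il]
  · intro hba
    have h3 : v ∉ startsWith (a.1, !a.2) := by
      intro h4
      apply hba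
      unfold startsWith at h4
      unfold hd at hk1
      rw [Set.mem_ofPred_eq] at h4
      rw [← List.head?_eq_getElem?, hk1] at h4
      exact Option.some.inj h4
    have h5 := startsWith_mk_mul v h3
    unfold startsWith at h5
    rw [Set.mem_ofPred_eq, ← List.head?_eq_getElem?] at h5
    unfold hd at hk2
    rw [hk2] at h5
    exact Option.some.inj h5

/-- the ownership function for an action with commutative stabilisers -/
theorem exists_letter {X : Type*} [MulAction (FreeGroup M) X] [Nonempty M]
    (hstab : ∀ (x : X) (z z' : FreeGroup M), z • x = x → z' • x = x → z * z' = z' * z) :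
    ∃ ℓ : X → M × Bool, ∀ (a : M × Bool) (x : X),
      (ℓ ((mk [a] : FreeGroup M) • x) = a ↔ ℓ x ≠ il a) := by
  classical
  -- for each base point an element commuting with the stabiliser
  have hw : ∀ x : X, ∃ w : FreeGroup M, w ≠ 1 ∧ ∀ z : FreeGroup M, z • x = x → z * w = w * z := by
    intro x
    by_cases h : ∃ w : FreeGroup M, w ≠ 1 ∧ w • x = x
    · obtain ⟨w, hw1, hw2⟩ := h
      exact ⟨w, hw1, fun z hz => hstab x z w hz hw2⟩
    · refine ⟨FreeGroup.of (Classical.arbitrary M), of_ne_one _, ?_⟩
      intro z hz
      have : z = 1 := by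
        by_contra h1
        exact h ⟨z, h1, hz⟩
      rw [this]; simp
  choose W hW1 hW2 using hw
  let base : X → X := fun x => (Quotient.out (Quotient.mk (MulAction.orbitRel (FreeGroup M) X) x))
  have hbase : ∀ x, ∃ u : FreeGroup M, u • base x = x := by
    intro x
    have h1 : Quotient.mk (MulAction.orbitRel (FreeGroup M) X) (base x)
        = Quotient.mk (MulAction.orbitRel (FreeGroup M) X) x := Quotient.out_eq _
    have h2 := Quotient.exact h1
    have h3 : base x ∈ MulAction.orbit (FreeGroup M) x := h2
    obtain ⟨u, hu⟩ := h3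
    refine ⟨u⁻¹, ?_⟩
    rw [← hu]; simp
  choose U hU using hbase
  have hbase2 : ∀ (g : FreeGroup M) (x : X), base (g • x) = base x := by
    intro g x
    have h1 : Quotient.mk (MulAction.orbitRel (FreeGroup M) X) (g • x)
        = Quotient.mk (MulAction.orbitRel (FreeGroup M) X) x := by
      apply Quotient.sound
      exact ⟨g, rfl⟩
    simp only [base, h1]
  refine ⟨fun x => endLetter (W (base x)) (hW1 _) (U x), ?_⟩
  intro a x
  have hcong : ∀ (y y' : X) (h : y = y') (u : FreeGroup M),
      endLetter (W y) (hW1 y) u = endLetter (W y') (hW1 y') u := by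
    intro y y' h u
    subst h; rfl
  simp only
  rw [hcong _ _ (hbase2 _ _)]
  set b := base x with hb
  -- U (a x) = mk[a] * U x * z
  set z : FreeGroup M := (mk [a] * U x)⁻¹ * U ((mk [a] : FreeGroup M) • x) with hz
  have hz1 : z • b = b := by
    have h1 := hU ((mk [a] : FreeGroup M) • x)
    rw [hbase2] at h1
    rw [hz, mul_smul, h1, hb, inv_smul_eq_iff, mul_smul, hU x]
  have hz2 := hW2 b z hz1
  have h3 : U ((mk [a] : FreeGroup M) • x) = (mk [a] * U x) * z := by rw [hz]; group
  rw [h3, endLetter_mul_comm _ _ _ hz2]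
  exact endLetter_step _ _ _

end Pool.Agent.H275R3.PS
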