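import Mathlib
import Pool.Agent.H275R3.PSFree

set_option autoImplicit false

namespace Pool.Agent.H275R3.PS

open Matrix Cardinal

/-- matrix with attracting point `x` and repelling point `y` -/
def Bm (x y l m : ℝ) : Matrix (Fin 2) (Fin 2) ℝ :=
  !![l * x - m * y, -(x * y * (l - m)); l - m, m * x - l * y]

lemma det_Bm (x y l m : ℝ) : (Bm x y l m).det = (x - y) ^ 2 * (l * m) := by
  rw [Bm, Matrix.det_fin_two_of]; ring

lemma Bm_mul_Bm (x y l m : ℝ) :
    Bm x y l m * Bm y x l m = (-((x - y) ^ 2 * (l * m))) • (1 : Matrix (Fin 2) (Fin 2) ℝ) := by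
  rw [Bm, Bm, Matrix.mul_fin_two]
  ext i j
  fin_cases i <;> fin_cases j <;> simp <;> ring

/-- Continuum many points and a number transcendental over the ring they generate. -/
theorem exists_points (T : Type) (hT : #T ≤ 𝔠) :
    ∃ (K : Subalgebra ℚ ℝ) (ξ : T → K) (l : ℝ), Function.Injective ξ ∧ Transcendental K l := by
  obtain ⟨s, hs⟩ := exists_isTranscendenceBasis ℚ ℝ
  have hne : Nonempty s := by
    by_contra h
    rw [not_nonempty_iff] at h
    have h1 := hs.isAlgebraic
    have h2 : Algebra.IsAlgebraic ℚ ℝ := by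
      rw [IsTranscendenceBasis.isEmpty_iff_isAlgebraic hs] at h
      exact h
    have h3 := Algebra.IsAlgebraic.cardinalMk_le_max ℚ ℝ
    rw [Cardinal.mk_real, Cardinal.mk_eq_aleph0 ℚ, max_self] at h3
    exact absurd aleph0_lt_continuum (not_lt.2 h3)
  have hcard : #s = 𝔠 := by
    have h1 := hs.lift_cardinalMk_eq_max_lift
    simp only [Cardinal.lift_id, Cardinal.mk_real] at h1
    have h2 : #ℚ = ℵ₀ := Cardinal.mk_eq_aleph0 ℚ
    rw [h2] at h1
    apply le_antisymm
    · rw [h1]
      exact le_sup_of_le_left le_sup_right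
    · by_contra h3
      push Not at h3
      have h4 : (ℵ₀ ⊔ #s) ⊔ ℵ₀ < 𝔠 := by
        rw [max_lt_iff, max_lt_iff]
        exact ⟨⟨aleph0_lt_continuum, h3⟩, aleph0_lt_continuum⟩
      rw [← h1] at h4
      exact lt_irrefl _ h4
  obtain ⟨i⟩ := hne
  have hinf : Infinite s := by
    rw [Cardinal.infinite_iff, hcard]
    exact aleph0_le_continuum
  have hcompl : #(({i} : Set s)ᶜ : Set s) = 𝔠 := by
    rw [Cardinal.mk_compl_of_infinite, hcard]
    rw [Cardinal.mk_singleton, hcard]
    exact lt_of_lt_of_le one_lt_aleph0 aleph0_le_continuum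
  have hle : #T ≤ #(({i} : Set s)ᶜ : Set s) := by rw [hcompl]; exact hT
  obtain ⟨f⟩ := (Cardinal.le_def _ _).1 hle
  refine ⟨Algebra.adjoin ℚ ((fun j : s => (j : ℝ)) '' ({i} : Set s)ᶜ),
    fun t => ⟨((f t : s) : ℝ), Algebra.subset_adjoin ⟨(f t : s), (f t).2, rfl⟩⟩, (i : ℝ), ?_, ?_⟩
  · intro t t' h
    apply f.injective
    have h1 := congrArg Subtype.val h
    simp only at h1
    exact Subtype.ext (Subtype.ext h1)
  · have h1 : AlgebraicIndependent ℚ (fun j : s => (j : ℝ)) := hs.1
    exact h1.transcendental_adjoin (s := ({i} : Set s)ᶜ) (i := i) (by simp)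

open Polynomial in
lemma lin_mul {K : Type*} [CommRing K] (a b : K) (p : K[X]) (n : ℕ) (hp : p.natDegree ≤ n) :
    ((C a * X + C b) * p).natDegree ≤ n + 1 ∧
      ((C a * X + C b) * p).coeff (n + 1) = a * p.coeff n := by
  constructor
  · refine (Polynomial.natDegree_mul_le).trans ?_
    have h1 : (C a * X + C b).natDegree ≤ 1 := Polynomial.natDegree_linear_le
    omega
  · have h1 : p.coeff (n + 1) = 0 := Polynomial.coeff_eq_zero_of_natDegree_lt (by omega)
    rw [add_mul, mul_assoc, Polynomial.coeff_add, Polynomial.coeff_C_mul, Polynomial.coeff_C_mul,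
      Polynomial.coeff_X_mul, h1]
    ring

open Polynomial in
/-- A free family in `PGL(2,ℝ)` of rank at most the continuum with prescribed orientations. -/
theorem exists_family (M : Type) [DecidableEq M] (hM : #M ≤ 𝔠) (ε : M → Prop) :
    ∃ φ : FreeGroup M →* GL (Fin 2) ℝ,
      (∀ e, 0 < (φ (FreeGroup.of e)).val.det ↔ ε e) ∧
      (∀ e, (φ (FreeGroup.of e)).val.det ≠ 0) ∧
      (∀ w, (∃ r : ℝ, (φ w).val = r • (1 : Matrix (Fin 2) (Fin 2) ℝ)) → w = 1) := by
  classical
  have hT : #(Option (M × Bool)) ≤ 𝔠 := by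
    rw [Cardinal.mk_option, Cardinal.mk_prod, Cardinal.lift_id, Cardinal.lift_id]
    have h1 : #Bool ≤ 𝔠 := by
      have : #Bool = 2 := by simp
      rw [this]
      exact (Cardinal.nat_lt_continuum 2).le
    have h2 : #M * #Bool ≤ 𝔠 := by
      calc #M * #Bool ≤ 𝔠 * 𝔠 := mul_le_mul' hM h1
        _ = 𝔠 := Cardinal.continuum_mul_self
    calc #M * #Bool + 1 ≤ 𝔠 + 𝔠 := add_le_add h2 (Cardinal.nat_lt_continuum 1 |>.le.trans' (by simp))
      _ = 𝔠 := Cardinal.continuum_add_self
  obtain ⟨K, ξ, l, hξ, hl⟩ := exists_points (Option (M × Bool)) hT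
  have hlinj : Function.Injective (Polynomial.aeval l : K[X] →ₐ[K] ℝ) :=
    transcendental_iff_injective.1 hl
  have hl0 : l ≠ 0 := by
    intro h
    apply hl
    rw [h]
    exact isAlgebraic_zero
  -- orientation numbers
  let μ : M → K := fun e => if (0 < l ↔ ε e) then 1 else -1
  have hμ0 : ∀ e, ((μ e : K) : ℝ) ≠ 0 := by
    intro e
    simp only [μ]
    split_ifs <;> simp
  have hμs : ∀ e, 0 < l * ((μ e : K) : ℝ) ↔ ε e := by
    intro e
    simp only [μ]
    by_cases h1 : (0 < l ↔ ε e)
    · rw [if_pos h1]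
      simp only [OneMemClass.coe_one, mul_one]
      exact h1
    · rw [if_neg h1]
      simp only [NegMemClass.coe_neg, OneMemClass.coe_one, mul_neg, mul_one, Left.neg_pos_iff]
      rcases lt_or_gt_of_ne hl0 with h2 | h2
      · have h3 : ¬ (0 < l) := not_lt.2 h2.le
        tauto
      · have h3 : ¬ (l < 0) := not_lt.2 h2.le
        tauto
  have hξne : ∀ a b : Option (M × Bool), a ≠ b → ((ξ a : K) : ℝ) - ((ξ b : K) : ℝ) ≠ 0 := by
    intro a b hab h
    apply hab
    apply hξ
    apply Subtype.ext
    linarith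
  let B : M × Bool → Matrix (Fin 2) (Fin 2) ℝ := fun a =>
    Bm (ξ (some a)) (ξ (some (il a))) l (μ a.1)
  have hdetB : ∀ a, (B a).det ≠ 0 := by
    intro a
    simp only [B, det_Bm]
    have h1 := hξne (some a) (some (il a)) (by
      intro h
      exact il_ne a (Option.some.inj h).symm)
    exact mul_ne_zero (pow_ne_zero 2 h1) (mul_ne_zero hl0 (hμ0 _))
  let g : M → GL (Fin 2) ℝ := fun e => GeneralLinearGroup.mkOfDetNeZero (B (e, true)) (hdetB _)
  have hg : ∀ e, (g e).val = B (e, true) := fun e => rfl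
  let φ : FreeGroup M →* GL (Fin 2) ℝ := FreeGroup.lift g
  have hφof : ∀ e, φ (FreeGroup.of e) = g e := fun e => FreeGroup.lift_apply_of
  have hletter : ∀ a : M × Bool, ∃ c : ℝ, c ≠ 0 ∧ (φ (FreeGroup.mk [a])).val = c • B a := by
    rintro ⟨e, b⟩
    cases b with
    | true =>
      refine ⟨1, one_ne_zero, ?_⟩
      rw [one_smul]
      have : (FreeGroup.mk [(e, true)] : FreeGroup M) = FreeGroup.of e := rfl
      rw [this, hφof, hg]
    | false =>
      have h1 : (FreeGroup.mk [(e, false)] : FreeGroup M) = (FreeGroup.of e)⁻¹ := by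
        have h2 := mk_il (M := M) (e, true)
        exact h2
      rw [h1, map_inv, hφof]
      have h3 := Bm_mul_Bm (ξ (some (e, true))) (ξ (some (e, false))) l (μ e)
      set D : ℝ := (((ξ (some (e, true)) : K) : ℝ) - ((ξ (some (e, false)) : K) : ℝ)) ^ 2 *
        (l * (μ e : K)) with hD
      have hD0 : D ≠ 0 := by
        have := hdetB (e, true)
        simp only [B, det_Bm] at this
        exact this
      refine ⟨-D⁻¹, neg_ne_zero.2 (inv_ne_zero hD0), ?_⟩
      have h4 : (g e).val * ((-D⁻¹) • B (e, false)) = 1 := by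
        rw [hg, Matrix.mul_smul]
        have h5 : B (e, true) * B (e, false) = (-D) • (1 : Matrix (Fin 2) (Fin 2) ℝ) := h3
        rw [h5, smul_smul]
        have : -D⁻¹ * -D = 1 := by field_simp
        rw [this, one_smul]
      have h6 : ((g e)⁻¹).val * ((g e).val * ((-D⁻¹) • B (e, false))) = ((g e)⁻¹).val := by
        rw [h4, Matrix.mul_one]
      rw [← Matrix.mul_assoc] at h6
      have h7 : ((g e)⁻¹).val * (g e).val = 1 := by
        rw [← Units.val_mul, inv_mul_cancel]; rfl
      rw [h7, Matrix.one_mul] at h6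
      exact h6.symm
  refine ⟨φ, ?_, ?_, ?_⟩
  · intro e
    rw [hφof, hg]
    simp only [B, det_Bm]
    have h1 := hξne (some (e, true)) (some (il (e, true))) (by
      intro h
      exact il_ne (e, true) (Option.some.inj h).symm)
    have h2 : 0 < (((ξ (some (e, true)) : K) : ℝ) - ((ξ (some (il (e, true))) : K) : ℝ)) ^ 2 := by
      positivity
    rw [mul_pos_iff_of_pos_left h2]
    exact hμs e
  · intro e
    rw [hφof, hg]
    exact hdetB _
  · -- main induction
    have hmain : ∀ L : List (M × Bool), FreeGroup.IsReduced L →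
        ∃ (c : ℝ) (p1 p2 : K[X]), c ≠ 0 ∧
          (φ (FreeGroup.mk L)).val *ᵥ ![((ξ none : K) : ℝ), 1] =
            ![c * Polynomial.aeval l p1, c * Polynomial.aeval l p2] ∧
          p1.natDegree ≤ L.length ∧ p2.natDegree ≤ L.length ∧
          p1.coeff L.length = ξ L.head? * p2.coeff L.length ∧ p2.coeff L.length ≠ 0 := by
      intro L
      induction L with
      | nil =>
        intro _
        refine ⟨1, C (ξ none), 1, one_ne_zero, ?_, by simp, by simp, by simp, by simp⟩
        have : (FreeGroup.mk [] : FreeGroup M) = 1 := rfl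
        rw [this, map_one]
        simp
      | cons a L ih =>
        intro hL
        rw [isReduced_cons_iff] at hL
        obtain ⟨c, p1, p2, hc, hv, hd1, hd2, hco, hne⟩ := ih hL.2
        obtain ⟨c', hc', hB⟩ := hletter a
        set x : K := ξ (some a) with hx
        set y : K := ξ (some (il a)) with hy
        set m : K := μ a.1 with hm
        have e1 := lin_mul x (-(m * y)) p1 L.length hd1
        have e2 := lin_mul (-(x * y)) (m * x * y) p2 L.length hd2
        have e3 := lin_mul (1 : K) (-m) p1 L.length hd1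
        have e4 := lin_mul (-y) (m * x) p2 L.length hd2
        refine ⟨c' * c, (C x * X + C (-(m * y))) * p1 + (C (-(x * y)) * X + C (m * x * y)) * p2,
          (C 1 * X + C (-m)) * p1 + (C (-y) * X + C (m * x)) * p2, mul_ne_zero hc' hc, ?_, ?_, ?_,
          ?_, ?_⟩
        · have h1 : (FreeGroup.mk (a :: L) : FreeGroup M) = FreeGroup.mk [a] * FreeGroup.mk L := by
            rw [FreeGroup.mul_mk]; rfl
          rw [h1, map_mul, Units.val_mul, ← Matrix.mulVec_mulVec, hv, hB, Matrix.smul_mulVec]
          simp only [B, Bm, ← hx, ← hy, ← hm]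
          ext i
          fin_cases i
          · simp [map_add, map_mul, Polynomial.aeval_C, Polynomial.aeval_X]
            ring
          · simp [map_add, map_mul, Polynomial.aeval_C, Polynomial.aeval_X]
            ring
        · exact (Polynomial.natDegree_add_le _ _).trans (max_le e1.1 e2.1)
        · exact (Polynomial.natDegree_add_le _ _).trans (max_le e3.1 e4.1)
        · rw [List.length_cons, Polynomial.coeff_add, Polynomial.coeff_add, e1.2, e2.2, e3.2, e4.2,
            List.head?_cons, ← hx]
          ring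
        · rw [List.length_cons, Polynomial.coeff_add, e3.2, e4.2, hco]
          have h1 : (1 : K) * (ξ L.head? * p2.coeff L.length) + -y * p2.coeff L.length
              = (ξ L.head? - y) * p2.coeff L.length := by ring
          rw [h1]
          apply mul_ne_zero _ hne
          intro h2
          apply hL.1
          apply hξ
          exact sub_eq_zero.1 h2
    rintro w ⟨r, hr⟩
    by_contra hw
    obtain ⟨c, p1, p2, hc, hv, hd1, hd2, hco, hne⟩ := hmain w.toWord FreeGroup.isReduced_toWord
    rw [FreeGroup.mk_toWord, hr, Matrix.smul_mulVec, Matrix.one_mulVec] at hv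
    have h0 := congrFun hv 0
    have h1 := congrFun hv 1
    simp only [Pi.smul_apply, Matrix.cons_val_zero, Matrix.cons_val_one, smul_eq_mul, mul_one] at h0 h1
    have h2 : Polynomial.aeval l p1 = Polynomial.aeval l (C (ξ none) * p2) := by
      rw [map_mul, Polynomial.aeval_C]
      have h3 : c * Polynomial.aeval l p1 = c * (((ξ none : K) : ℝ) * Polynomial.aeval l p2) := by
        rw [← h0, h1]; ring
      exact mul_left_cancel₀ hc h3
    have h3 : p1 = C (ξ none) * p2 := hlinj h2
    rw [h3, Polynomial.coeff_C_mul] at hco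
    have h4 := mul_right_cancel₀ hne hco
    have h5 := hξ h4
    have h6 : w.toWord = [] := by
      rw [← List.head?_eq_none_iff]
      exact h5.symm
    exact hw (FreeGroup.toWord_eq_nil_iff.1 h6)

end Pool.Agent.H275R3.PS
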