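import Mathlib
import Pool.Agent.H275R3.PSFree

set_option autoImplicit false

namespace Pool.Agent.H275R3.PS

open UpperHalfPlane Matrix

/-- every element of `GL(2,ℝ)` acts on `ℍ` by an isometry -/
lemma isometry_gl (g : GL (Fin 2) ℝ) : Isometry (fun z : ℍ => g • z) := by
  apply Isometry.of_dist_eq
  intro z w
  have hd : g.det.val ≠ 0 := g.det.ne_zero
  have hz := denom_ne_zero g z
  have hw := denom_ne_zero g w
  have h1 : Real.cosh (dist (g • z) (g • w)) = Real.cosh (dist z w) := by
    rw [cosh_dist, cosh_dist, im_smul_eq_div_normSq, im_smul_eq_div_normSq]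
    congr 1
    have h2 : dist ((g • z : ℍ) : ℂ) ((g • w : ℍ) : ℂ) =
        |g.det.val| * dist (z : ℂ) w / (‖denom g z‖ * ‖denom g w‖) := by
      rw [Complex.dist_eq, Complex.dist_eq, coe_smul, coe_smul, ← map_sub, norm_σ]
      have h3 : num g z / denom g z - num g w / denom g w =
          ((g.det.val : ℝ) : ℂ) * ((z : ℂ) - w) / (denom g z * denom g w) := by
        rw [div_sub_div _ _ hz hw]
        congr 1
        simp only [num, denom]
        have : (g.det.val : ℝ) = g 0 0 * g 1 1 - g 0 1 * g 1 0 := by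
          change Matrix.det g.val = _
          rw [Matrix.det_fin_two]
        rw [this]
        push_cast
        ring
      rw [h3, norm_div, norm_mul, norm_mul, Complex.norm_real, Real.norm_eq_abs]
    rw [h2]
    have h4 : 0 < ‖denom g z‖ := norm_pos_iff.2 hz
    have h5 : 0 < ‖denom g w‖ := norm_pos_iff.2 hw
    have h6 : 0 < |g.det.val| := abs_pos.2 hd
    have h7 := z.im_pos
    have h8 := w.im_pos
    rw [Complex.normSq_eq_norm_sq, Complex.normSq_eq_norm_sq]
    field_simp
  have h2 := Real.cosh_injOn ?_ ?_ h1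
  · exact h2
  · exact dist_nonneg
  · exact dist_nonneg

/-- the isometry attached to an element of `GL(2,ℝ)` -/
noncomputable def glIso (g : GL (Fin 2) ℝ) : IsometryEquiv ℍ ℍ :=
  { MulAction.toPerm g with isometry_toFun := isometry_gl g }

lemma glIso_apply (g : GL (Fin 2) ℝ) (z : ℍ) : glIso g z = g • z := rfl

/-- orientation-preserving elements fixing the same point commute -/
lemma commute_of_fix {g h : GL (Fin 2) ℝ} {z : ℍ} (hg : 0 < g.val.det) (hh : 0 < h.val.det)
    (h1 : g • z = z) (h2 : h • z = z) : g * h = h * g := by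
  rw [gl_smul_eq_self_iff_quadratic hg] at h1
  rw [gl_smul_eq_self_iff_quadratic hh] at h2
  have hz : 0 < z.im := z.im_pos
  have key : ∀ (a b c d : ℝ), ((c : ℂ) * ((z : ℂ) * z) + ((d : ℂ) - a) * z + -b = 0) →
      a = d + 2 * c * z.re ∧ b = - c * (z.re ^ 2 + z.im ^ 2) := by
    intro a b c d h
    have hre := congrArg Complex.re h
    have him := congrArg Complex.im h
    simp at hre him
    have h3 : z.im * (2 * c * z.re + (d - a)) = 0 := by
      have := him
      nlinarith
    have h4 : 2 * c * z.re + (d - a) = 0 := by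
      rcases mul_eq_zero.1 h3 with h5 | h5
      · exact absurd h5 hz.ne'
      · exact h5
    constructor
    · linarith
    · have h5 : a = d + 2 * c * z.re := by linarith
      rw [h5] at hre
      nlinarith
  obtain ⟨a1, b1⟩ := key _ _ _ _ h1
  obtain ⟨a2, b2⟩ := key _ _ _ _ h2
  apply Units.ext
  rw [Units.val_mul, Units.val_mul]
  have e1 : g.val = !![g.val 0 0, g.val 0 1; g.val 1 0, g.val 1 1] := Matrix.eta_fin_two _
  have e2 : h.val = !![h.val 0 0, h.val 0 1; h.val 1 0, h.val 1 1] := Matrix.eta_fin_two _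
  rw [e1, e2, Matrix.mul_fin_two, Matrix.mul_fin_two]
  have a1' : g.val 0 0 = g.val 1 1 + 2 * g.val 1 0 * z.re := a1
  have b1' : g.val 0 1 = - g.val 1 0 * (z.re ^ 2 + z.im ^ 2) := b1
  have a2' : h.val 0 0 = h.val 1 1 + 2 * h.val 1 0 * z.re := a2
  have b2' : h.val 0 1 = - h.val 1 0 * (z.re ^ 2 + z.im ^ 2) := b2
  rw [a1', b1', a2', b2']
  congr 2
  · congr 1
    · ring
    · congr 1
      ring
  · congr 2
    · ring_nf
    · ring_nf

end Pool.Agent.H275R3.PS
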