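import Mathlib
import Pool.Agent.H275R3.PSFree

set_option autoImplicit false

namespace Pool.Agent.H275R3.PS

open FreeGroup

/-- functional constraint system solved by Knaster–Tarski -/
theorem functional_solution {X I : Type*} (π : X → X) (P Q : X → Set I) (i0 : I)
    (s : X → Prop)
    (hQ1 : ∀ x, (Q x).Nonempty) (hQ2 : ∀ x, (Q x)ᶜ.Nonempty)
    (hQi : ∀ x, i0 ∈ Q x ↔ s x) (hPi : ∀ x, i0 ∈ P x ↔ s (π x)) :
    ∃ τ : X → I, ∀ x, τ (π x) ∈ P x ↔ τ x ∈ Q x := by
  classical
  have hr : ∀ x, ∃ r : I, r ∈ Q x ∧ (s x → r = i0) := by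
    intro x
    by_cases h : s x
    · exact ⟨i0, (hQi x).2 h, fun _ => rfl⟩
    · obtain ⟨r, hr⟩ := hQ1 x
      exact ⟨r, hr, fun h1 => absurd h1 h⟩
  have hr' : ∀ x, ∃ r : I, r ∉ Q x ∧ (¬ s x → r = i0) := by
    intro x
    by_cases h : s x
    · obtain ⟨r, hr⟩ := hQ2 x
      exact ⟨r, hr, fun h1 => absurd h h1⟩
    · exact ⟨i0, fun h1 => h ((hQi x).1 h1), fun _ => rfl⟩
  choose r hr1 hr2 using hr
  choose r' hr'1 hr'2 using hr'
  let τ : Set X → X → I := fun σ x => if x ∈ σ then r x else r' x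
  let Φ : Set X →o Set X :=
    { toFun := fun σ => {x | τ σ (π x) ∈ P x}
      monotone' := by
        intro σ σ' hσ x hx
        simp only [Set.mem_ofPred_eq, τ] at hx ⊢
        by_cases h1 : π x ∈ σ
        · have h2 : π x ∈ σ' := hσ h1
          rw [if_pos h1] at hx
          rw [if_pos h2]
          exact hx
        · rw [if_neg h1] at hx
          by_cases h2 : π x ∈ σ'
          · rw [if_pos h2]
            by_cases h3 : s (π x)
            · rw [hr2 _ h3, hPi]; exact h3
            · exfalso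
              rw [hr'2 _ h3, hPi] at hx
              exact h3 hx
          · rw [if_neg h2]; exact hx }
  refine ⟨τ (OrderHom.lfp Φ), ?_⟩
  intro x
  have h1 : x ∈ OrderHom.lfp Φ ↔ τ (OrderHom.lfp Φ) (π x) ∈ P x := by
    conv_lhs => rw [← Φ.map_lfp]
    rfl
  rw [← h1]
  simp only [τ]
  by_cases h2 : x ∈ OrderHom.lfp Φ
  · rw [if_pos h2]
    exact ⟨fun _ => hr1 x, fun _ => h2⟩
  · rw [if_neg h2]
    exact ⟨fun h => absurd h h2, fun h => absurd h (hr'1 x)⟩

/-- Solution of a proper system of congruences for a free group acting with commutative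
stabilisers and a sign potential. -/
theorem exists_types {X I M : Type*} [DecidableEq M] [Nonempty M] [MulAction (FreeGroup M) X]
    (hstab : ∀ (x : X) (z z' : FreeGroup M), z • x = x → z' • x = x → z * z' = z' * z)
    (L R : M → Set I) (i0 : I)
    (hLR : ∀ i, (L i).Nonempty ∧ L i ≠ Set.univ ∧ (R i).Nonempty ∧ R i ≠ Set.univ)
    (s : X → Prop)
    (hs : ∀ (e : M) (x : X), s ((FreeGroup.of e) • x) ↔ (s x ↔ (i0 ∈ L e ↔ i0 ∈ R e))) :
    ∃ τ : X → I, ∀ (e : M) (x : X), τ x ∈ L e ↔ τ ((FreeGroup.of e) • x) ∈ R e := by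
  classical
  obtain ⟨ℓ, hℓ⟩ := exists_letter hstab
  let La : M × Bool → Set I := fun a => if a.2 then L a.1 else R a.1
  let Ra : M × Bool → Set I := fun a => if a.2 then R a.1 else L a.1
  have hsgn : ∀ (a : M × Bool) (x : X), s ((mk [a] : FreeGroup M) • x) ↔
      (s x ↔ (i0 ∈ La a ↔ i0 ∈ Ra a)) := by
    rintro ⟨e, b⟩ x
    cases b with
    | true =>
      simp only [La, Ra, if_true]
      exact hs e x
    | false =>
      simp only [La, Ra, Bool.false_eq_true, if_false]
      have h1 := hs e ((mk [(e, false)] : FreeGroup M) • x)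
      have h2 : (FreeGroup.of e : FreeGroup M) • ((mk [(e, false)] : FreeGroup M) • x) = x := by
        rw [← mul_smul]
        have h3 : (FreeGroup.of e : FreeGroup M) * mk [(e, false)] = 1 := by
          have h4 := mk_il (M := M) (e, true)
          simp only [il, Bool.not_true] at h4
          rw [h4]
          exact mul_inv_cancel _
        rw [h3, one_smul]
      rw [h2] at h1
      tauto
  let π : X → X := fun x => (mk [ℓ x] : FreeGroup M)⁻¹ • x
  have hπ : ∀ x, (mk [ℓ x] : FreeGroup M) • π x = x := fun x => smul_inv_smul _ _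
  let P : X → Set I := fun x => {t | (t ∈ La (ℓ x) ↔ i0 ∈ La (ℓ x)) ↔ s (π x)}
  let Q : X → Set I := fun x => {t | (t ∈ Ra (ℓ x) ↔ i0 ∈ Ra (ℓ x)) ↔ s x}
  have hRa : ∀ a, (Ra a).Nonempty ∧ (Ra a)ᶜ.Nonempty := by
    rintro ⟨e, b⟩
    obtain ⟨h1, h2, h3, h4⟩ := hLR e
    cases b with
    | true =>
      simp only [Ra, if_true]
      exact ⟨h3, Set.nonempty_compl.2 h4⟩
    | false =>
      simp only [Ra, Bool.false_eq_true, if_false]
      exact ⟨h1, Set.nonempty_compl.2 h2⟩
  have hQboth : ∀ x, (Q x).Nonempty ∧ (Q x)ᶜ.Nonempty := by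
    intro x
    obtain ⟨⟨t1, ht1⟩, ⟨t2, ht2⟩⟩ := hRa (ℓ x)
    rw [Set.mem_compl_iff] at ht2
    by_cases h1 : t1 ∈ Q x
    · refine ⟨⟨t1, h1⟩, ⟨t2, ?_⟩⟩
      rw [Set.mem_compl_iff]
      intro h2
      simp only [Q, Set.mem_ofPred_eq] at h1 h2
      tauto
    · refine ⟨⟨t2, ?_⟩, ⟨t1, h1⟩⟩
      simp only [Q, Set.mem_ofPred_eq] at h1 ⊢
      tauto
  obtain ⟨τ, hτ⟩ := functional_solution π P Q i0 s (fun x => (hQboth x).1) (fun x => (hQboth x).2)
    (by intro x; simp only [Q, Set.mem_ofPred_eq, true_iff])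
    (by intro x; simp only [P, Set.mem_ofPred_eq, true_iff])
  have hmain : ∀ x, τ (π x) ∈ La (ℓ x) ↔ τ x ∈ Ra (ℓ x) := by
    intro x
    have h1 := hτ x
    have h2 := hsgn (ℓ x) (π x)
    rw [hπ] at h2
    simp only [P, Q, Set.mem_ofPred_eq] at h1
    tauto
  refine ⟨τ, ?_⟩
  intro e x
  by_cases h1 : ℓ ((mk [(e, true)] : FreeGroup M) • x) = (e, true)
  · have h2 := hmain ((mk [(e, true)] : FreeGroup M) • x)
    have h3 : π ((mk [(e, true)] : FreeGroup M) • x) = x := by
      simp only [π, h1, inv_smul_smul]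
    rw [h3, h1] at h2
    simp only [La, Ra, if_true] at h2
    exact h2
  · have h2 : ℓ x = il (e, true) := by
      by_contra h3
      exact h1 ((hℓ (e, true) x).2 h3)
    have h3 := hmain x
    have h4 : π x = (FreeGroup.of e : FreeGroup M) • x := by
      simp only [π, h2, mk_il, inv_inv]
      rfl
    rw [h4, h2] at h3
    simp only [La, Ra, il, Bool.not_true, Bool.false_eq_true, if_false] at h3
    exact h3.symm

end Pool.Agent.H275R3.PS
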