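import Mathlib

/-!
# Integral identities for packings by shells
-/

open Set Metric MeasureTheory Filter
open scoped ContDiff Topology RealInnerProductSpace

noncomputable section

namespace Pool.Agent.H275R3.Sh

variable {V : Type*} [NormedAddCommGroup V] [InnerProductSpace ℝ V]

section euler

variable [FiniteDimensional ℝ V] [MeasurableSpace V] [BorelSpace V]

/-- Divergence theorem for the Euler field. -/
lemma euler_int {f : V → ℝ} (hf : ContDiff ℝ 1 f) (hc : HasCompactSupport f) :
    ∫ x, fderiv ℝ f x x = -(Module.finrank ℝ V : ℝ) * ∫ x, f x := by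
  set b := stdOrthonormalBasis ℝ V with hb
  have hfd : Continuous (fderiv ℝ f) := hf.continuous_fderiv (by simp)
  have hfc : HasCompactSupport (fderiv ℝ f) := hc.fderiv ℝ
  have h1 : ∀ x, fderiv ℝ f x x = ∑ i, ⟪b i, x⟫ * fderiv ℝ f x (b i) := by
    intro x
    conv_lhs => rw [← b.sum_repr' x]
    rw [map_sum]
    refine Finset.sum_congr rfl fun i _ => ?_
    rw [map_smul, smul_eq_mul, b.sum_repr' x]
  have hci : ∀ i, Continuous (fun x => ⟪b i, x⟫ * fderiv ℝ f x (b i)) := fun i =>
    (continuous_const.inner continuous_id).mul (hfd.clm_apply continuous_const)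
  have hsi : ∀ i, HasCompactSupport (fun x => ⟪b i, x⟫ * fderiv ℝ f x (b i)) := fun i => by
    refine hfc.mono ?_
    intro x hx hx'
    apply hx
    simp only [hx', zero_apply, mul_zero]
  have h2 : ∀ i, ∫ x, ⟪b i, x⟫ * fderiv ℝ f x (b i) = - ∫ x, f x := by
    intro i
    have hlin : ∀ x, fderiv ℝ (fun x : V => ⟪b i, x⟫) x (b i) = 1 := by
      intro x
      have : HasFDerivAt (fun x : V => ⟪b i, x⟫) (innerSL ℝ (b i)) x :=
        (innerSL ℝ (b i)).hasFDerivAt
      rw [this.fderiv, innerSL_apply_apply, real_inner_self_eq_norm_sq, b.norm_eq_one]; norm_num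
    have := integral_mul_fderiv_eq_neg_fderiv_mul_of_integrable (μ := (volume : Measure V))
      (f := fun x : V => ⟪b i, x⟫) (g := f) (v := b i) ?_ ?_ ?_ ?_ ?_
    · rw [this]; simp only [hlin, one_mul]
    · simp only [hlin, one_mul]
      exact hf.continuous.integrable_of_hasCompactSupport hc
    · exact (hci i).integrable_of_hasCompactSupport (hsi i)
    · exact ((continuous_const.inner continuous_id).mul hf.continuous).integrable_of_hasCompactSupport
        (hc.mul_left)
    · intro x _
      exact (innerSL ℝ (b i)).differentiableAt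
    · intro x _
      exact (hf.differentiable (by simp)).differentiableAt
  simp_rw [h1]
  rw [integral_finsetSum]
  · simp only [h2]
    rw [Finset.sum_const, Finset.card_univ, Fintype.card_fin, nsmul_eq_mul]
    ring
  · intro i _
    exact (hci i).integrable_of_hasCompactSupport (hsi i)

end euler

section loops

/-- The integral of a closed one-form over a great circle of a sphere of dimension `≥ 2` is `0`. -/
lemma great_circle {η : V → V →L[ℝ] ℝ} {r : ℝ} {U : Set V} (hU : IsOpen U)
    (hη : ContDiffOn ℝ 1 η U)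
    (hsymm : ∀ x ∈ U, ∀ a b, fderiv ℝ η x a b = fderiv ℝ η x b a)
    (hr : ∀ x : V, ‖x‖ = |r| → x ∈ U) {u v w : V} (hu : ‖u‖ = 1) (hv : ‖v‖ = 1) (hw : ‖w‖ = 1)
    (huv : ⟪u, v⟫ = 0) (huw : ⟪u, w⟫ = 0) (hvw : ⟪v, w⟫ = 0) :
    ∫ t in (0 : ℝ)..(2 * Real.pi), η (r • (Real.cos t • u + Real.sin t • v))
      (r • (-Real.sin t • u + Real.cos t • v)) = 0 := by
  -- the family of loops
  let q : ℝ → V := fun θ => Real.cos θ • v + Real.sin θ • w
  let q' : ℝ → V := fun θ => -Real.sin θ • v + Real.cos θ • w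
  let c : ℝ × ℝ → V := fun p => r • (Real.cos p.2 • u + Real.sin p.2 • q p.1)
  let ct : ℝ × ℝ → V := fun p => r • (-Real.sin p.2 • u + Real.cos p.2 • q p.1)
  let cθ : ℝ × ℝ → V := fun p => r • (Real.sin p.2 • q' p.1)
  have hcU : ∀ p, c p ∈ U := by
    intro p
    apply hr
    have hq : ‖q p.1‖ ^ 2 = 1 := by
      simp only [q]
      rw [norm_add_sq_real, norm_smul, norm_smul, hv, hw, inner_smul_left, inner_smul_right, hvw]
      simp
    have hqu : ⟪u, q p.1⟫ = 0 := by
      simp only [q]
      rw [inner_add_right, inner_smul_right, inner_smul_right, huv, huw]; simp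
    have : ‖Real.cos p.2 • u + Real.sin p.2 • q p.1‖ ^ 2 = 1 := by
      rw [norm_add_sq_real, norm_smul, norm_smul, hu, inner_smul_left, inner_smul_right, hqu,
        mul_pow, mul_pow, hq]
      simp
    have h1 : ‖Real.cos p.2 • u + Real.sin p.2 • q p.1‖ = 1 :=
      (pow_eq_one_iff_of_nonneg (norm_nonneg _) two_ne_zero).1 this
    simp only [c]
    rw [norm_smul, h1, mul_one, Real.norm_eq_abs]
  have hqd : ContDiff ℝ ∞ q := by
    simp only [q]
    exact (Real.contDiff_cos.smul contDiff_const).add (Real.contDiff_sin.smul contDiff_const)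
  have hq'd : ContDiff ℝ ∞ q' := by
    simp only [q']
    exact (Real.contDiff_sin.neg.smul contDiff_const).add (Real.contDiff_cos.smul contDiff_const)
  have hcd : ContDiff ℝ ∞ c := by
    simp only [c]
    exact contDiff_const.smul (((Real.contDiff_cos.comp contDiff_snd).smul contDiff_const).add
      ((Real.contDiff_sin.comp contDiff_snd).smul (hqd.comp contDiff_fst)))
  have hctd : ContDiff ℝ ∞ ct := by
    simp only [ct]
    exact contDiff_const.smul (((Real.contDiff_sin.comp contDiff_snd).neg.smul contDiff_const).add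
      ((Real.contDiff_cos.comp contDiff_snd).smul (hqd.comp contDiff_fst)))
  have hcθd : ContDiff ℝ ∞ cθ := by
    simp only [cθ]
    exact contDiff_const.smul ((Real.contDiff_sin.comp contDiff_snd).smul (hq'd.comp contDiff_fst))
  have hq1 : ∀ θ, HasDerivAt q (q' θ) θ := by
    intro θ
    exact ((Real.hasDerivAt_cos θ).smul_const v).add ((Real.hasDerivAt_sin θ).smul_const w)
  -- directional derivatives
  have d1 : ∀ p : ℝ × ℝ, fderiv ℝ c p (1, 0) = cθ p := by
    intro p
    have h1 : HasDerivAt (fun s : ℝ => c (p + s • ((1 : ℝ), (0 : ℝ)))) (cθ p) 0 := by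
      have h2 : HasDerivAt (fun s : ℝ => q (p.1 + s)) (q' p.1) 0 := by
        have h3 := (hq1 (p.1 + 0)).comp_const_add p.1 0
        simpa using h3
      have h4 := ((h2.const_smul (Real.sin p.2)).const_add (Real.cos p.2 • u)).const_smul r
      refine h4.congr_of_eventuallyEq (Filter.Eventually.of_forall fun s => ?_)
      simp [c]
    have h5 : HasDerivAt (fun s : ℝ => p + s • ((1 : ℝ), (0 : ℝ))) ((1 : ℝ), (0 : ℝ)) 0 := by
      simpa using ((hasDerivAt_id (0 : ℝ)).smul_const ((1 : ℝ), (0 : ℝ))).const_add p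
    have h6 := ((hcd.differentiable (by simp)) (p + (0 : ℝ) • ((1 : ℝ), (0 : ℝ)))).hasFDerivAt.comp_hasDerivAt (0 : ℝ) h5
    have := h1.unique h6
    rw [this]; simp
  have d2 : ∀ p : ℝ × ℝ, fderiv ℝ c p (0, 1) = ct p := by
    intro p
    have h1 : HasDerivAt (fun s : ℝ => c (p + s • ((0 : ℝ), (1 : ℝ)))) (ct p) 0 := by
      have h2 : HasDerivAt (fun s : ℝ => Real.cos (p.2 + s)) (-Real.sin p.2) 0 := by
        have h3 := (Real.hasDerivAt_cos (p.2 + 0)).comp_const_add p.2 0
        simpa using h3
      have h2' : HasDerivAt (fun s : ℝ => Real.sin (p.2 + s)) (Real.cos p.2) 0 := by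
        have h3 := (Real.hasDerivAt_sin (p.2 + 0)).comp_const_add p.2 0
        simpa using h3
      have h4 := ((h2.smul_const u).add (h2'.smul_const (q p.1))).const_smul r
      refine h4.congr_of_eventuallyEq (Filter.Eventually.of_forall fun s => ?_)
      simp [c]
    have h5 : HasDerivAt (fun s : ℝ => p + s • ((0 : ℝ), (1 : ℝ))) ((0 : ℝ), (1 : ℝ)) 0 := by
      simpa using ((hasDerivAt_id (0 : ℝ)).smul_const ((0 : ℝ), (1 : ℝ))).const_add p
    have h6 := ((hcd.differentiable (by simp)) (p + (0 : ℝ) • ((0 : ℝ), (1 : ℝ)))).hasFDerivAt.comp_hasDerivAt (0 : ℝ) h5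
    have := h1.unique h6
    rw [this]; simp
  have d3 : ∀ p : ℝ × ℝ, fderiv ℝ ct p (1, 0) = fderiv ℝ cθ p (0, 1) := by
    have e1 : ct = fun p => fderiv ℝ c p (0, 1) := by funext p; rw [d2]
    have e2 : cθ = fun p => fderiv ℝ c p (1, 0) := by funext p; rw [d1]
    intro p
    have hcs : ContDiff ℝ ∞ (fderiv ℝ c) := hcd.fderiv_right (by simp)
    have hdd : DifferentiableAt ℝ (fderiv ℝ c) p := (hcs.differentiable (by simp)) p
    rw [e1, e2, fderiv_clm_apply hdd (differentiableAt_const _),
      fderiv_clm_apply hdd (differentiableAt_const _)]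
    simp only [fderiv_fun_const, Pi.zero_apply, ContinuousLinearMap.comp_zero, zero_add,
      ContinuousLinearMap.flip_apply]
    have hsy : IsSymmSndFDerivAt ℝ c p := hcd.contDiffAt.isSymmSndFDerivAt (by simp only [minSmoothness_of_isRCLikeNormedField]; exact WithTop.coe_le_coe.2 (le_top : (2 : ℕ∞) ≤ ⊤))
    exact hsy (1, 0) (0, 1)
  -- pulled back form
  let P : ℝ × ℝ → ℝ := fun p => η (c p) (ct p)
  let Q : ℝ × ℝ → ℝ := fun p => η (c p) (cθ p)
  have hηc : ContDiff ℝ 1 (fun p => η (c p)) := by
    rw [contDiff_iff_contDiffAt]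
    intro p
    exact ((hη.contDiffAt (hU.mem_nhds (hcU p))).comp p (hcd.contDiffAt.of_le (by simp)))
  have hP : ContDiff ℝ 1 P := hηc.clm_apply (hctd.of_le (by simp))
  have hQ : ContDiff ℝ 1 Q := hηc.clm_apply (hcθd.of_le (by simp))
  have hηd : ∀ p a, fderiv ℝ (fun p => η (c p)) p a = fderiv ℝ η (c p) (fderiv ℝ c p a) := by
    intro p a
    have h1 : DifferentiableAt ℝ η (c p) :=
      (hη.contDiffAt (hU.mem_nhds (hcU p))).differentiableAt (by simp)
    have h2 : DifferentiableAt ℝ c p := (hcd.differentiable (by simp)) p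
    have h3 : fderiv ℝ (fun p => η (c p)) p = (fderiv ℝ η (c p)).comp (fderiv ℝ c p) :=
      fderiv_comp p h1 h2
    rw [h3, ContinuousLinearMap.comp_apply]
  have hdiv : ∀ p, fderiv ℝ P p (1, 0) + (-fderiv ℝ Q p) (0, 1) = 0 := by
    intro p
    have hdd : DifferentiableAt ℝ (fun p => η (c p)) p := (hηc.differentiable (by simp)) p
    have h1 : DifferentiableAt ℝ ct p := (hctd.differentiable (by simp)) p
    have h2 : DifferentiableAt ℝ cθ p := (hcθd.differentiable (by simp)) p
    have e1 : fderiv ℝ P p = _ := fderiv_clm_apply hdd h1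
    have e2 : fderiv ℝ Q p = _ := fderiv_clm_apply hdd h2
    rw [neg_apply, e1, e2]
    simp only [add_apply, ContinuousLinearMap.comp_apply,
      ContinuousLinearMap.flip_apply]
    rw [hηd, hηd, d1, d2, d3, hsymm _ (hcU p)]
    ring
  have hdivint := integral2_divergence_prod_of_hasFDerivAt_off_countable P (fun p => -Q p)
    (fun p => fderiv ℝ P p) (fun p => -fderiv ℝ Q p) 0 0 Real.pi (2 * Real.pi) ∅ countable_empty
    hP.continuous.continuousOn hQ.continuous.neg.continuousOn
    (fun x _ => ((hP.differentiable (by simp)) x).hasFDerivAt)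
    (fun x _ => ((hQ.differentiable (by simp)) x).hasFDerivAt.neg)
    (by simp only [hdiv]; exact integrableOn_zero)
  simp only [hdiv] at hdivint
  have hQp : ∀ x, Q (x, 2 * Real.pi) = Q (x, 0) := by
    intro x
    simp [Q, c, cθ]
  simp only [hQp, sub_self, zero_add, intervalIntegral.integral_zero] at hdivint
  have hI : ∫ y in (0 : ℝ)..2 * Real.pi, P (Real.pi, y) = ∫ y in (0 : ℝ)..2 * Real.pi, P (0, y) := by
    linarith
  have hI2 : ∫ y in (0 : ℝ)..2 * Real.pi, P (Real.pi, y) =
      ∫ y in (0 : ℝ)..2 * Real.pi, P (Real.pi, 2 * Real.pi - y) := by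
    rw [intervalIntegral.integral_comp_sub_left (fun y => P (Real.pi, y)) (2 * Real.pi)]
    simp
  have hI3 : ∀ y, P (Real.pi, 2 * Real.pi - y) = - P (0, y) := by
    intro y
    simp only [P, c, ct, q, Real.cos_pi, Real.sin_pi, Real.cos_two_pi_sub, Real.sin_two_pi_sub,
      Real.cos_zero, Real.sin_zero]
    rw [← map_neg]
    congr 2
    · simp
    · simp
      abel
  rw [hI2] at hI
  simp only [hI3, intervalIntegral.integral_neg] at hI
  have hfin : ∫ y in (0 : ℝ)..2 * Real.pi, P (0, y) = 0 := by linarith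
  refine Eq.trans ?_ hfin
  apply intervalIntegral.integral_congr
  intro y _
  simp [P, c, ct, q]

end loops

end Pool.Agent.H275R3.Sh
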