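import Pool.Agent.H275R3.ShInt

/-!
# Symplectic linear algebra, rotations and primitives
-/

open Set Metric MeasureTheory Filter
open scoped ContDiff Topology RealInnerProductSpace

noncomputable section

namespace Pool.Agent.H275R3.Sh

variable {V : Type*} [NormedAddCommGroup V] [InnerProductSpace ℝ V]

/-- A compatible complex structure on a Euclidean space. -/
structure IsJ (J : V →L[ℝ] V) : Prop where
  sq : ∀ x, J (J x) = -x
  iso : ∀ x y, ⟪J x, J y⟫ = ⟪x, y⟫

namespace IsJ

variable {J : V →L[ℝ] V}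

lemma skew (hJ : IsJ J) (x y : V) : ⟪J x, y⟫ = -⟪x, J y⟫ := by
  have h1 := hJ.iso (J x) y
  rw [hJ.sq, inner_neg_left] at h1
  linarith

lemma self (hJ : IsJ J) (x : V) : ⟪J x, x⟫ = 0 := by
  have h1 := hJ.skew x x
  rw [real_inner_comm x (J x)] at h1
  rw [real_inner_comm]
  linarith

lemma self' (hJ : IsJ J) (x : V) : ⟪x, J x⟫ = 0 := by
  rw [real_inner_comm]; exact hJ.self x

lemma norm_map (hJ : IsJ J) (x : V) : ‖J x‖ = ‖x‖ := by
  have h := hJ.iso x x
  rw [real_inner_self_eq_norm_sq, real_inner_self_eq_norm_sq] at h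
  exact (sq_eq_sq₀ (norm_nonneg _) (norm_nonneg _)).1 h

/-- A linear map preserving the symplectic form is injective. -/
lemma inj_of (hJ : IsJ J) {A : V →L[ℝ] V} (hA : ∀ u v, ⟪J (A u), A v⟫ = ⟪J u, v⟫) :
    Function.Injective A := by
  rw [injective_iff_map_eq_zero]
  intro u hu
  have h := hA u (J u)
  rw [hu, map_zero, inner_zero_left, hJ.iso, real_inner_self_eq_norm_sq] at h
  have : ‖u‖ = 0 := by
    have := h.symm
    exact pow_eq_zero_iff (two_ne_zero) |>.1 this
  exact norm_eq_zero.1 this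

/-- A linear map preserving the symplectic form has determinant `± 1`. -/
lemma abs_det (hJ : IsJ J) [FiniteDimensional ℝ V] {A : V →L[ℝ] V}
    (hA : ∀ u v, ⟪J (A u), A v⟫ = ⟪J u, v⟫) : |A.det| = 1 := by
  set b := stdOrthonormalBasis ℝ V with hb
  set A' : V →ₗ[ℝ] V := (A : V →ₗ[ℝ] V) with hA'
  set J' : V →ₗ[ℝ] V := (J : V →ₗ[ℝ] V) with hJ'
  have h1 : (LinearMap.adjoint A') ∘ₗ (J' ∘ₗ A') = J' := by
    ext u
    apply ext_inner_right ℝ
    intro v
    rw [LinearMap.comp_apply, LinearMap.comp_apply, LinearMap.adjoint_inner_left]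
    exact hA u v
  have h2 : LinearMap.det (LinearMap.adjoint A') = LinearMap.det A' := by
    rw [← LinearMap.det_toMatrix b.toBasis, ← LinearMap.det_toMatrix b.toBasis A',
      LinearMap.toMatrix_adjoint, Matrix.det_conjTranspose]
    simp
  have h3 : LinearMap.det J' * LinearMap.det J' = (-1) ^ Module.finrank ℝ V := by
    rw [← LinearMap.det_comp]
    have : J' ∘ₗ J' = (-1 : ℝ) • LinearMap.id := by
      ext u; simp [hJ', hJ.sq]
    rw [this, LinearMap.det_smul, LinearMap.det_id, mul_one]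
  have h4 : LinearMap.det J' ≠ 0 := by
    intro h
    rw [h, mul_zero] at h3
    have : ((-1 : ℝ)) ^ Module.finrank ℝ V ≠ 0 := pow_ne_zero _ (by norm_num)
    exact this h3.symm
  have h5 := congrArg LinearMap.det h1
  rw [LinearMap.det_comp, LinearMap.det_comp, h2] at h5
  have h6 : LinearMap.det A' * LinearMap.det A' = 1 := by
    have : (LinearMap.det A' * LinearMap.det A') * LinearMap.det J' = 1 * LinearMap.det J' := by
      linear_combination h5
    exact mul_right_cancel₀ h4 this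
  have h7 : A.det = LinearMap.det A' := rfl
  rw [h7]
  have h8 : |LinearMap.det A'| ^ 2 = 1 := by rw [sq_abs]; linarith
  exact (pow_eq_one_iff_of_nonneg (abs_nonneg _) two_ne_zero).1 h8

/-- rotation by angle `t` -/
def rot (_hJ : IsJ J) (t : ℝ) (z : V) : V := Real.cos t • z + Real.sin t • J z

lemma norm_rot (hJ : IsJ J) (t : ℝ) (z : V) : ‖hJ.rot t z‖ = ‖z‖ := by
  apply (sq_eq_sq₀ (norm_nonneg _) (norm_nonneg _)).1
  rw [rot, norm_add_sq_real, norm_smul, norm_smul, hJ.norm_map, inner_smul_left, inner_smul_right,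
    hJ.self', mul_pow, mul_pow]
  simp only [Real.norm_eq_abs, sq_abs]
  have := Real.sin_sq_add_cos_sq t
  simp
  nlinarith

def rotIso (hJ : IsJ J) (t : ℝ) : V →ₗᵢ[ℝ] V where
  toFun := hJ.rot t
  map_add' x y := by simp only [rot, map_add, smul_add]; abel
  map_smul' c x := by
    simp only [rot, map_smul, RingHom.id_apply, smul_add]
    rw [smul_comm, smul_comm c (Real.sin t)]
  norm_map' := hJ.norm_rot t

lemma integral_rot (hJ : IsJ J) [FiniteDimensional ℝ V] [MeasurableSpace V] [BorelSpace V]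
    (t : ℝ) (Φ : V → ℝ) : ∫ z, Φ (hJ.rot t z) = ∫ z, Φ z := by
  have h := ((hJ.rotIso t).toLinearIsometryEquiv rfl).measurePreserving
  have h2 := h.integral_comp' (f := ((hJ.rotIso t).toLinearIsometryEquiv rfl).toHomeomorph.toMeasurableEquiv) Φ
  exact h2

lemma continuous_rot (hJ : IsJ J) : Continuous (fun p : ℝ × V => hJ.rot p.1 p.2) := by
  unfold rot
  fun_prop

lemma integral_zero_of_circle (hJ : IsJ J) [FiniteDimensional ℝ V] [MeasurableSpace V]
    [BorelSpace V] {Φ : V → ℝ} (hΦ : Continuous Φ) (hc : HasCompactSupport Φ)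
    (h0 : ∀ z, ∫ t in (0 : ℝ)..(2 * Real.pi), Φ (hJ.rot t z) = 0) : ∫ z, Φ z = 0 := by
  have hpi := Real.pi_pos
  obtain ⟨R, hR⟩ : ∃ R : ℝ, ∀ z, R < ‖z‖ → Φ z = 0 := by
    obtain ⟨R, hR⟩ := hc.isBounded.subset_closedBall (0 : V)
    refine ⟨R, fun z hz => ?_⟩
    by_contra h
    have := hR (subset_tsupport _ h)
    rw [mem_closedBall_zero_iff] at this
    linarith
  have hFc : Continuous (fun p : ℝ × V => Φ (hJ.rot p.1 p.2)) := hΦ.comp hJ.continuous_rot
  have hint : Integrable (Function.uncurry fun (t : ℝ) (z : V) => Φ (hJ.rot t z))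
      ((volume.restrict (Ioc 0 (2 * Real.pi))).prod volume) := by
    have h1 : IntegrableOn (fun p : ℝ × V => Φ (hJ.rot p.1 p.2))
        (Icc 0 (2 * Real.pi) ×ˢ closedBall (0 : V) R) (volume.prod volume) :=
      hFc.continuousOn.integrableOn_compact (isCompact_Icc.prod (isCompact_closedBall _ _))
    have h2 : IntegrableOn (fun p : ℝ × V => Φ (hJ.rot p.1 p.2))
        (Ioc 0 (2 * Real.pi) ×ˢ univ) (volume.prod volume) := by
      refine (h1.mono_set (prod_mono Ioc_subset_Icc_self (subset_refl (closedBall (0 : V) R)))).of_forall_sdiff_eq_zero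
        (measurableSet_Ioc.prod MeasurableSet.univ) ?_
      rintro ⟨t, z⟩ ⟨h3, h4⟩
      have h5 : z ∉ closedBall (0 : V) R := by
        intro h6; exact h4 ⟨h3.1, h6⟩
      rw [mem_closedBall_zero_iff, not_le] at h5
      apply hR
      rw [hJ.norm_rot]; exact h5
    have h3 : (volume.restrict (Ioc 0 (2 * Real.pi))).prod (volume : Measure V) =
        (volume.prod volume).restrict (Ioc 0 (2 * Real.pi) ×ˢ univ) := by
      rw [← Measure.prod_restrict, Measure.restrict_univ]
    rw [h3]
    exact h2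
  have hswap := integral_integral_swap hint
  have e1 : ∫ t in Ioc 0 (2 * Real.pi), ∫ z, Φ (hJ.rot t z) = 2 * Real.pi * ∫ z, Φ z := by
    simp only [hJ.integral_rot]
    rw [setIntegral_const]
    simp [hpi.le]
  have e2 : ∫ z, ∫ t in Ioc 0 (2 * Real.pi), Φ (hJ.rot t z) = 0 := by
    have : ∀ z, ∫ t in Ioc 0 (2 * Real.pi), Φ (hJ.rot t z) = 0 := by
      intro z
      rw [← intervalIntegral.integral_of_le (by positivity)]
      exact h0 z
    simp [this]
  rw [e1, e2] at hswap
  have : (2 * Real.pi) ≠ 0 := by positivity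
  exact (mul_eq_zero.1 hswap).resolve_left this

end IsJ

end Pool.Agent.H275R3.Sh
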