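import Pool.Agent.H275R3.ShTop

/-!
# Disjoint embedded shells have disjoint fillings
-/

open Set Metric MeasureTheory Filter
open scoped ContDiff Topology RealInnerProductSpace ENNReal

noncomputable section

namespace Pool.Agent.H275R3.Sh

variable {V : Type*} [NormedAddCommGroup V] [InnerProductSpace ℝ V] [FiniteDimensional ℝ V]

lemma rank_gt (hdim : 3 ≤ Module.finrank ℝ V) : 1 < Module.rank ℝ V := by
  rw [← Module.finrank_eq_rank]
  exact_mod_cast (by omega : 1 < Module.finrank ℝ V)

lemma isPreconnected_shell (hdim : 3 ≤ Module.finrank ℝ V) {r₀ r₁ : ℝ} (h0 : 0 < r₀) :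
    IsPreconnected (shell V r₀ r₁) :=
  isPreconnected_norm_mem (rank_gt hdim) (isPreconnected_Ioo (a := r₀) (b := r₁))
    (fun _ ht => h0.trans ht.1)

omit [FiniteDimensional ℝ V] in
lemma exists_norm_eq' (hdim : 3 ≤ Module.finrank ℝ V) {r : ℝ} (hr : 0 ≤ r) : ∃ p : V, ‖p‖ = r := by
  have : Nontrivial V := Module.nontrivial_of_finrank_pos (R := ℝ) (by omega)
  exact exists_norm_eq V hr

/-- a filling function is constant on the other shell -/
lemma const_on (hdim : 3 ≤ Module.finrank ℝ V) {φ ψ : V → V} {r₀ r₁ s₀ s₁ : ℝ} (h0 : 0 < r₀)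
    {g : V → ℝ} (hg : Fill ψ r₀ r₁ s₀ s₁ g) (hφ : ContinuousOn φ (shell V r₀ r₁))
    (hd : Disjoint (φ '' shell V r₀ r₁) (ψ '' shell V r₀ r₁)) :
    (∀ x ∈ φ '' shell V r₀ r₁, g x = 0) ∨ (∀ x ∈ φ '' shell V r₀ r₁, g x = 1) := by
  by_contra hcon
  push Not at hcon
  obtain ⟨⟨x, hx, hgx⟩, ⟨y, hy, hgy⟩⟩ := hcon
  have hx1 : g x = 1 := (hg.off x (Set.disjoint_left.1 hd hx)).resolve_left hgx
  have hy0 : g y = 0 := (hg.off y (Set.disjoint_left.1 hd hy)).resolve_right hgy
  have hpre : IsPreconnected (φ '' shell V r₀ r₁) := (isPreconnected_shell hdim h0).image φ hφ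
  have := hpre.intermediate_value hy hx hg.cont.continuousOn
  have hmem : (1 / 2 : ℝ) ∈ Icc (g y) (g x) := by rw [hy0, hx1]; constructor <;> norm_num
  obtain ⟨w, hw, hgw⟩ := this hmem
  rcases hg.off w (Set.disjoint_left.1 hd hw) with h | h
  · rw [h] at hgw; norm_num at hgw
  · rw [h] at hgw; norm_num at hgw

variable [MeasurableSpace V] [BorelSpace V]

lemma nested_false (hdim : 3 ≤ Module.finrank ℝ V) {φ ψ : V → V} {r₀ r₁ s₀ s₁ : ℝ}
    (h0 : 0 < r₀) (h01 : r₀ < s₀) (hs01 : s₀ < s₁) (h12 : s₁ < r₁) {f g : V → ℝ}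
    (hf : Fill φ r₀ r₁ s₀ s₁ f) (hg : Fill ψ r₀ r₁ s₀ s₁ g)
    (hfc : HasCompactSupport f) (hgc : HasCompactSupport g)
    (hint : ∫ x, f x = ∫ x, g x)
    (hf1 : ∀ x ∈ ψ '' shell V r₀ r₁, f x = 1) (hg0 : ∀ x ∈ φ '' shell V r₀ r₁, g x = 0) :
    False := by
  obtain ⟨p, hp⟩ := exists_norm_eq' (V := V) hdim zero_le_one
  have hfp : f p = 0 := hf.out p hp.ge
  have hgp : g p = 0 := hg.out p hp.ge
  set P : Set V := {x | 0 < g x ∧ f x < 1} with hP
  have hkey : ∀ x ∈ P, g x = 1 ∧ f x = 0 := by
    rintro x ⟨h1, h2⟩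
    have h3 : x ∉ φ '' shell V r₀ r₁ := fun h => by
      rw [hg0 x h] at h1; exact lt_irrefl _ h1
    have h4 : x ∉ ψ '' shell V r₀ r₁ := fun h => by
      rw [hf1 x h] at h2; exact lt_irrefl _ h2
    refine ⟨(hg.off x h4).resolve_left h1.ne', (hf.off x h3).resolve_right h2.ne⟩
  have hPo : IsOpen P := (isOpen_lt continuous_const hg.cont).inter
    (isOpen_lt hf.cont continuous_const)
  have hP' : P = {x | 1 ≤ g x ∧ f x ≤ 0} := by
    ext x
    constructor
    · intro hx
      obtain ⟨h1, h2⟩ := hkey x hx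
      exact ⟨h1.ge, h2.le⟩
    · rintro ⟨h1, h2⟩
      exact ⟨by linarith, by linarith⟩
  have hPc : IsClosed P := by
    rw [hP']
    exact (isClosed_le continuous_const hg.cont).inter (isClosed_le hf.cont continuous_const)
  have hPe : P = ∅ := by
    rcases isClopen_iff.1 ⟨hPc, hPo⟩ with h | h
    · exact h
    · exfalso
      have : p ∈ P := by rw [h]; trivial
      rw [hP] at this
      have h1 := this.1
      rw [hgp] at h1; exact lt_irrefl _ h1
  have hle : ∀ x, g x ≤ f x := by
    intro x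
    by_cases h : 0 < g x
    · have h2 : 1 ≤ f x := by
        by_contra h3
        have : x ∈ P := ⟨h, not_le.1 h3⟩
        rw [hPe] at this; exact this
      linarith [hg.le_one x]
    · linarith [hf.nonneg x]
  obtain ⟨z, hz⟩ := exists_norm_eq' (V := V) hdim (r := (r₀ + s₀) / 2) (by linarith)
  have hzU : z ∈ shell V r₀ r₁ := ⟨by rw [hz]; linarith, by rw [hz]; linarith⟩
  have hfz : f (φ z) = 1 := by
    rw [hf.on z hzU]
    exact cut_one (by linarith) hs01 (by rw [hz]; linarith)
  have hgz : g (φ z) = 0 := hg0 _ ⟨z, hzU, rfl⟩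
  have hpos : 0 < ∫ x, (f x - g x) := by
    apply Continuous.integral_pos_of_hasCompactSupport_nonneg_nonzero (x := φ z)
    · exact hf.cont.sub hg.cont
    · exact hfc.sub hgc
    · intro x; simp only [Pi.zero_apply]; linarith [hle x]
    · rw [hfz, hgz]; norm_num
  rw [integral_sub (hf.cont.integrable_of_hasCompactSupport hfc)
    (hg.cont.integrable_of_hasCompactSupport hgc), hint, sub_self] at hpos
  exact lt_irrefl _ hpos

/-- Disjoint embedded shells have disjoint fillings. -/
theorem disjoint_fill (hdim : 3 ≤ Module.finrank ℝ V) {φ ψ : V → V} {r₀ r₁ s₀ s₁ : ℝ}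
    (h0 : 0 < r₀) (h01 : r₀ < s₀) (hs01 : s₀ < s₁) (h12 : s₁ < r₁) {f g : V → ℝ}
    (hf : Fill φ r₀ r₁ s₀ s₁ f) (hg : Fill ψ r₀ r₁ s₀ s₁ g)
    (hfc : HasCompactSupport f) (hgc : HasCompactSupport g)
    (hint : ∫ x, f x = ∫ x, g x)
    (hφ : ContinuousOn φ (shell V r₀ r₁)) (hψ : ContinuousOn ψ (shell V r₀ r₁))
    (hd : Disjoint (φ '' shell V r₀ r₁) (ψ '' shell V r₀ r₁)) (x : V) : f x = 0 ∨ g x = 0 := by
  obtain ⟨p, hp⟩ := exists_norm_eq' (V := V) hdim zero_le_one
  have hfp : f p = 0 := hf.out p hp.ge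
  have hgp : g p = 0 := hg.out p hp.ge
  rcases const_on hdim h0 hg hφ hd with hg' | hg'
  · rcases const_on hdim h0 hf hψ hd.symm with hf' | hf'
    · -- both zero
      set P : Set V := {x | 0 < f x ∧ 0 < g x} with hP
      have hkey : ∀ x ∈ P, f x = 1 ∧ g x = 1 := by
        rintro x ⟨h1, h2⟩
        have h3 : x ∉ φ '' shell V r₀ r₁ := fun h => by
          rw [hg' x h] at h2; exact lt_irrefl _ h2
        have h4 : x ∉ ψ '' shell V r₀ r₁ := fun h => by
          rw [hf' x h] at h1; exact lt_irrefl _ h1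
        exact ⟨(hf.off x h3).resolve_left h1.ne', (hg.off x h4).resolve_left h2.ne'⟩
      have hPo : IsOpen P := (isOpen_lt continuous_const hf.cont).inter
        (isOpen_lt continuous_const hg.cont)
      have hP' : P = {x | 1 ≤ f x ∧ 1 ≤ g x} := by
        ext x
        constructor
        · intro hx
          obtain ⟨h1, h2⟩ := hkey x hx
          exact ⟨h1.ge, h2.ge⟩
        · rintro ⟨h1, h2⟩
          exact ⟨by linarith, by linarith⟩
      have hPc : IsClosed P := by
        rw [hP']
        exact (isClosed_le continuous_const hf.cont).inter (isClosed_le continuous_const hg.cont)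
      have hPe : P = ∅ := by
        rcases isClopen_iff.1 ⟨hPc, hPo⟩ with h | h
        · exact h
        · exfalso
          have : p ∈ P := by rw [h]; trivial
          rw [hP] at this
          have h1 := this.1
          rw [hfp] at h1; exact lt_irrefl _ h1
      by_contra hcon
      rw [not_or] at hcon
      have : x ∈ P := ⟨lt_of_le_of_ne (hf.nonneg x) (Ne.symm hcon.1),
        lt_of_le_of_ne (hg.nonneg x) (Ne.symm hcon.2)⟩
      rw [hPe] at this; exact this
    · exact (nested_false hdim h0 h01 hs01 h12 hf hg hfc hgc hint hf' hg').elim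
  · rcases const_on hdim h0 hf hψ hd.symm with hf' | hf'
    · exact (nested_false hdim h0 h01 hs01 h12 hg hf hgc hfc hint.symm hg' hf').elim
    · -- both one
      exfalso
      set P : Set V := {x | f x < 1 ∧ g x < 1} with hP
      have hkey : ∀ x ∈ P, f x = 0 ∧ g x = 0 := by
        rintro x ⟨h1, h2⟩
        have h3 : x ∉ φ '' shell V r₀ r₁ := fun h => by
          rw [hg' x h] at h2; exact lt_irrefl _ h2
        have h4 : x ∉ ψ '' shell V r₀ r₁ := fun h => by
          rw [hf' x h] at h1; exact lt_irrefl _ h1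
        exact ⟨(hf.off x h3).resolve_right h1.ne, (hg.off x h4).resolve_right h2.ne⟩
      have hPo : IsOpen P := (isOpen_lt hf.cont continuous_const).inter
        (isOpen_lt hg.cont continuous_const)
      have hP' : P = {x | f x ≤ 0 ∧ g x ≤ 0} := by
        ext x
        constructor
        · intro hx
          obtain ⟨h1, h2⟩ := hkey x hx
          exact ⟨h1.le, h2.le⟩
        · rintro ⟨h1, h2⟩
          exact ⟨by linarith, by linarith⟩
      have hPc : IsClosed P := by
        rw [hP']
        exact (isClosed_le hf.cont continuous_const).inter (isClosed_le hg.cont continuous_const)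
      have hpP : p ∈ P := ⟨by rw [hfp]; exact one_pos, by rw [hgp]; exact one_pos⟩
      rcases isClopen_iff.1 ⟨hPc, hPo⟩ with h | h
      · rw [h] at hpP; exact hpP
      · obtain ⟨z, hz⟩ := exists_norm_eq' (V := V) hdim (r := (r₀ + s₀) / 2) (by linarith)
        have hzU : z ∈ shell V r₀ r₁ := ⟨by rw [hz]; linarith, by rw [hz]; linarith⟩
        have : φ z ∈ P := by rw [h]; trivial
        have h1 := this.2
        rw [hg' _ ⟨z, hzU, rfl⟩] at h1
        exact lt_irrefl _ h1

/-- The packing bound: `k` disjoint symplectically embedded shells `{λρ < ‖z‖ < λ}` in the unit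
ball satisfy `k λ^d ≤ 1`. -/
theorem packing_bound {J : V →L[ℝ] V} (hJ : IsJ J) (hdim : 3 ≤ Module.finrank ℝ V) {k : ℕ}
    {r₀ r₁ : ℝ} (h0 : 0 < r₀) (h1 : r₀ < r₁) (φ : Fin k → V → V)
    (hφ : ∀ i, ContDiffOn ℝ ∞ (φ i) (shell V r₀ r₁)) (hinj : ∀ i, InjOn (φ i) (shell V r₀ r₁))
    (hs : ∀ i, SympOn J (φ i) (shell V r₀ r₁)) (hmaps : ∀ i, MapsTo (φ i) (shell V r₀ r₁) (ball 0 1))
    (hd : ∀ i j, i ≠ j → Disjoint (φ i '' shell V r₀ r₁) (φ j '' shell V r₀ r₁)) :
    (k : ℝ) * r₁ ^ Module.finrank ℝ V ≤ 1 := by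
  have hnt : Nontrivial V := Module.nontrivial_of_finrank_pos (R := ℝ) (by omega)
  set d := Module.finrank ℝ V with hdd
  set μB : ℝ := (volume (ball (0 : V) 1)).toReal with hμB
  have hBfin : volume (ball (0 : V) 1) ≠ ⊤ := measure_ball_lt_top.ne
  have hBpos : 0 < μB := ENNReal.toReal_pos (measure_ball_pos volume (0 : V) one_pos).ne' hBfin
  have key : ∀ s₀ ∈ Ioo r₀ r₁, (k : ℝ) * s₀ ^ d ≤ 1 := by
    rintro s₀ ⟨h01, h12⟩
    have hs0 : 0 < s₀ := by linarith
    set s₁ := (s₀ + r₁) / 2 with hs1
    have a1 : s₀ < s₁ := by rw [hs1]; linarith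
    have a2 : s₁ < r₁ := by rw [hs1]; linarith
    choose f hf hfc hfi using fun i => exists_fill hJ hdim h0 h01 a1 a2 (hφ i) (hinj i) (hs i)
      (hmaps i)
    have hsum : ∀ x, ∑ i, f i x ≤ (ball (0 : V) 1).indicator (fun _ => (1 : ℝ)) x := by
      intro x
      by_cases hx : x ∈ ball (0 : V) 1
      · rw [indicator_of_mem hx]
        by_cases hex : ∃ i, f i x ≠ 0
        · obtain ⟨i, hi⟩ := hex
          rw [Finset.sum_eq_single i]
          · exact (hf i).le_one x
          · intro j _ hji
            exact (disjoint_fill hdim h0 h01 a1 a2 (hf j) (hf i) (hfc j) (hfc i)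
              (by rw [hfi, hfi]) (hφ j).continuousOn (hφ i).continuousOn (hd j i hji) x).resolve_right hi
          · intro h; exact absurd (Finset.mem_univ i) h
        · push Not at hex
          rw [Finset.sum_eq_zero (fun i _ => hex i)]
          exact zero_le_one
      · rw [indicator_of_notMem hx, Finset.sum_eq_zero]
        intro i _
        apply (hf i).out
        rw [mem_ball_zero_iff, not_lt] at hx
        exact hx
    have hint1 : ∫ x, ∑ i, f i x = (k : ℝ) * ∫ x : V, cut s₀ s₁ x := by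
      rw [integral_finsetSum]
      · simp [hfi]
      · intro i _
        exact (hf i).cont.integrable_of_hasCompactSupport (hfc i)
    have hint2 : ∫ x, (ball (0 : V) 1).indicator (fun _ => (1 : ℝ)) x = μB := by
      rw [integral_indicator measurableSet_ball, setIntegral_const]
      simp [hμB, Measure.real]
    have hint3 : ∫ x, ∑ i, f i x ≤ ∫ x, (ball (0 : V) 1).indicator (fun _ => (1 : ℝ)) x := by
      apply integral_mono
      · apply integrable_finsetSum
        intro i _
        exact (hf i).cont.integrable_of_hasCompactSupport (hfc i)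
      · exact (integrable_indicator_iff measurableSet_ball).2
          (integrableOn_const hBfin (by simp))
      · exact hsum
    have hcut : s₀ ^ d * μB ≤ ∫ x : V, cut s₀ s₁ x := by
      have e1 : ∫ x, (ball (0 : V) s₀).indicator (fun _ => (1 : ℝ)) x = s₀ ^ d * μB := by
        rw [integral_indicator measurableSet_ball, setIntegral_const, Measure.real,
          Measure.addHaar_ball volume (0 : V) hs0.le, ENNReal.toReal_mul,
          ENNReal.toReal_ofReal (by positivity)]
        simp [hμB, hdd]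
      rw [← e1]
      apply integral_mono
      · exact (integrable_indicator_iff measurableSet_ball).2
          (integrableOn_const measure_ball_lt_top.ne (by simp))
      · exact (contDiff_cut s₀ s₁).continuous.integrable_of_hasCompactSupport
          (hasCompactSupport_cut hs0 a1)
      · intro x
        by_cases hx : x ∈ ball (0 : V) s₀
        · rw [indicator_of_mem hx]
          rw [mem_ball_zero_iff] at hx
          rw [cut_one hs0 a1 hx.le]
        · rw [indicator_of_notMem hx]
          exact Real.smoothTransition.nonneg _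
    rw [hint1, hint2] at hint3
    have h4 : (k : ℝ) * (s₀ ^ d * μB) ≤ μB := by
      refine le_trans ?_ hint3
      exact mul_le_mul_of_nonneg_left hcut (by positivity)
    have h5 : ((k : ℝ) * s₀ ^ d) * μB ≤ 1 * μB := by linarith
    exact le_of_mul_le_mul_right h5 hBpos
  have hcont : Continuous (fun s : ℝ => (k : ℝ) * s ^ d) := by fun_prop
  have hclos : r₁ ∈ closure (Ioo r₀ r₁) := by
    rw [closure_Ioo h1.ne]; exact ⟨h1.le, le_rfl⟩
  have : closure (Ioo r₀ r₁) ⊆ {s | (k : ℝ) * s ^ d ≤ 1} :=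
    closure_minimal key (isClosed_le hcont continuous_const)
  exact this hclos

end Pool.Agent.H275R3.Sh
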