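import Pool.Agent.H275R3.ShJ

/-!
# Pushing forward an exact form with compact support
-/

open Set Metric MeasureTheory Filter
open scoped ContDiff Topology RealInnerProductSpace

noncomputable section

namespace Pool.Agent.H275R3.Sh

variable {V : Type*} [NormedAddCommGroup V] [InnerProductSpace ℝ V] [FiniteDimensional ℝ V]

/-- Local structure of an injective map with injective derivatives. -/
lemma local_inverse {φ : V → V} {U : Set V} (hU : IsOpen U) (hφ : ContDiffOn ℝ ∞ φ U)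
    (hA : ∀ z ∈ U, Function.Injective (fderiv ℝ φ z)) {z : V} (hz : z ∈ U) :
    ∃ L : V → V, ContDiffAt ℝ ∞ L (φ z) ∧ L (φ z) = z ∧
      (∀ᶠ y in 𝓝 (φ z), L y ∈ U ∧ φ (L y) = y) := by
  have hd : ContDiffAt ℝ ∞ φ z := hφ.contDiffAt (hU.mem_nhds hz)
  let e : V ≃L[ℝ] V := (LinearEquiv.ofInjectiveEndo (fderiv ℝ φ z : V →ₗ[ℝ] V) (hA z hz)).toContinuousLinearEquiv
  have he : HasFDerivAt φ (e : V →L[ℝ] V) z := by
    have h1 : (e : V →L[ℝ] V) = fderiv ℝ φ z := by
      ext v; rfl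
    rw [h1]
    exact (hd.differentiableAt (by simp)).hasFDerivAt
  let P := hd.toOpenPartialHomeomorph φ he (by simp)
  have hPt : φ z ∈ P.target := hd.image_mem_toOpenPartialHomeomorph_target he (by simp)
  have hPs : z ∈ P.source := hd.mem_toOpenPartialHomeomorph_source he (by simp)
  refine ⟨P.symm, hd.to_localInverse he (by simp), ?_, ?_⟩
  · exact P.left_inv hPs
  · have h1 : P.symm (φ z) = z := P.left_inv hPs
    have h2 : ContinuousAt P.symm (φ z) := P.continuousAt_symm hPt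
    have h3 : ∀ᶠ y in 𝓝 (φ z), P.symm y ∈ U := by
      apply h2.eventually_mem
      rw [h1]; exact hU.mem_nhds hz
    filter_upwards [h3, P.open_target.mem_nhds hPt] with y hy hyt
    exact ⟨hy, P.right_inv hyt⟩

lemma isOpen_image {φ : V → V} {U : Set V} (hU : IsOpen U) (hφ : ContDiffOn ℝ ∞ φ U)
    (hA : ∀ z ∈ U, Function.Injective (fderiv ℝ φ z)) : IsOpen (φ '' U) := by
  rw [isOpen_iff_mem_nhds]
  rintro _ ⟨z, hz, rfl⟩
  obtain ⟨L, -, -, h⟩ := local_inverse hU hφ hA hz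
  filter_upwards [h] with y hy
  exact ⟨L y, hy.1, hy.2⟩

/-- If `G` is smooth with `dG` supported in a compact subset `C` of `U`, then the push-forward of
`dG` under `φ`, extended by zero, is exact. -/
lemma exists_primitive {φ : V → V} {U : Set V} (hU : IsOpen U) (hφ : ContDiffOn ℝ ∞ φ U)
    (hinj : InjOn φ U) (hA : ∀ z ∈ U, Function.Injective (fderiv ℝ φ z)) {G : V → ℝ}
    (hG : ContDiff ℝ ∞ G) {C : Set V} (hC : IsCompact C) (hCU : C ⊆ U)
    (hGC : ∀ z ∈ U \ C, fderiv ℝ G z = 0) :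
    ∃ f : V → ℝ, ContDiff ℝ 1 f ∧ (∀ z ∈ U, (fderiv ℝ f (φ z)).comp (fderiv ℝ φ z) = fderiv ℝ G z) ∧
      (∀ x, x ∉ φ '' C → fderiv ℝ f x = 0) := by
  classical
  have hUo : IsOpen (φ '' U) := isOpen_image hU hφ hA
  have hCc : IsClosed (φ '' C) := (hC.image_of_continuousOn (hφ.continuousOn.mono hCU)).isClosed
  have hinv : ∀ z ∈ U, Function.invFunOn φ U (φ z) = z := by
    intro z hz
    have h1 : ∃ a ∈ U, φ a = φ z := ⟨z, hz, rfl⟩
    exact hinj (Function.invFunOn_mem h1) hz (Function.invFunOn_eq h1)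
  let g : V → ℝ := fun x => G (Function.invFunOn φ U x)
  have hgφ : ∀ z ∈ U, g (φ z) = G z := fun z hz => by simp only [g]; rw [hinv z hz]
  have hgL : ∀ z ∈ U, ∃ L : V → V, ContDiffAt ℝ ∞ L (φ z) ∧ L (φ z) = z ∧
      (∀ᶠ y in 𝓝 (φ z), L y ∈ U ∧ φ (L y) = y) ∧ g =ᶠ[𝓝 (φ z)] fun y => G (L y) := by
    intro z hz
    obtain ⟨L, h1, h2, h3⟩ := local_inverse hU hφ hA hz
    refine ⟨L, h1, h2, h3, ?_⟩
    filter_upwards [h3] with y hy
    rw [← hgφ (L y) hy.1, hy.2]
  have hgd : ∀ x ∈ φ '' U, ContDiffAt ℝ ∞ g x := by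
    rintro _ ⟨z, hz, rfl⟩
    obtain ⟨L, h1, h2, h3, h4⟩ := hgL z hz
    exact (hG.contDiffAt.comp (φ z) h1).congr_of_eventuallyEq h4
  have hcomp : ∀ z ∈ U, (fderiv ℝ g (φ z)).comp (fderiv ℝ φ z) = fderiv ℝ G z := by
    intro z hz
    have h1 : DifferentiableAt ℝ g (φ z) := (hgd _ ⟨z, hz, rfl⟩).differentiableAt (by simp)
    have h2 : DifferentiableAt ℝ φ z := (hφ.contDiffAt (hU.mem_nhds hz)).differentiableAt (by simp)
    rw [← fderiv_comp z h1 h2]
    apply Filter.EventuallyEq.fderiv_eq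
    filter_upwards [hU.mem_nhds hz] with y hy
    exact hgφ y hy
  have hgz : ∀ x ∈ φ '' U, x ∉ φ '' C → fderiv ℝ g x = 0 := by
    rintro _ ⟨z, hz, rfl⟩ hx
    obtain ⟨L, h1, h2, h3, h4⟩ := hgL z hz
    have hzC : z ∉ C := fun h => hx ⟨z, h, rfl⟩
    rw [h4.fderiv_eq]
    have h5 : DifferentiableAt ℝ L (φ z) := h1.differentiableAt (by simp)
    have h6 : fderiv ℝ (fun y => G (L y)) (φ z) = (fderiv ℝ G (L (φ z))).comp (fderiv ℝ L (φ z)) :=
      fderiv_comp (φ z) ((hG.differentiable (by simp)) _) h5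
    rw [h6, h2, hGC z ⟨hz, hzC⟩, ContinuousLinearMap.zero_comp]
  let θ : V → V →L[ℝ] ℝ := fun x => if x ∈ φ '' U then fderiv ℝ g x else 0
  have hθU : ∀ x ∈ φ '' U, θ =ᶠ[𝓝 x] fderiv ℝ g := by
    intro x hx
    filter_upwards [hUo.mem_nhds hx] with y hy
    simp only [θ, if_pos hy]
  have hθC : ∀ x, x ∉ φ '' C → θ =ᶠ[𝓝 x] fun _ => 0 := by
    intro x hx
    filter_upwards [hCc.isOpen_compl.mem_nhds hx] with y hy
    by_cases hyU : y ∈ φ '' U
    · simp only [θ, if_pos hyU]; exact hgz y hyU hy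
    · simp only [θ, if_neg hyU]
  have hθd : ContDiff ℝ ∞ θ := by
    rw [contDiff_iff_contDiffAt]
    intro x
    by_cases hx : x ∈ φ '' U
    · refine ContDiffAt.congr_of_eventuallyEq ?_ (hθU x hx)
      exact (hgd x hx).fderiv_right (by simp)
    · have hx' : x ∉ φ '' C := fun h => hx (image_mono hCU h)
      exact contDiffAt_const.congr_of_eventuallyEq (hθC x hx')
  obtain ⟨f, hf⟩ := convex_univ.exists_forall_hasFDerivAt_of_fderiv_symmetric (s := (univ : Set V))
    isOpen_univ (hθd.differentiable (by simp)).differentiableOn (by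
      intro a _ u v
      by_cases ha : a ∈ φ '' U
      · rw [(hθU a ha).fderiv_eq]
        have hsy : IsSymmSndFDerivAt ℝ g a := (hgd a ha).isSymmSndFDerivAt (by
          simp only [minSmoothness_of_isRCLikeNormedField]
          exact WithTop.coe_le_coe.2 (le_top : (2 : ℕ∞) ≤ ⊤))
        exact hsy u v
      · have ha' : a ∉ φ '' C := fun h => ha (image_mono hCU h)
        rw [(hθC a ha').fderiv_eq]
        simp)
  have hf' : ∀ x, fderiv ℝ f x = θ x := fun x => (hf x (mem_univ x)).fderiv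
  refine ⟨f, ?_, ?_, ?_⟩
  · rw [contDiff_one_iff_fderiv]
    refine ⟨fun x => (hf x (mem_univ x)).differentiableAt, ?_⟩
    have : fderiv ℝ f = θ := funext hf'
    rw [this]; exact hθd.continuous
  · intro z hz
    rw [hf', (hθU (φ z) ⟨z, hz, rfl⟩).self_of_nhds]
    exact hcomp z hz
  · intro x hx
    rw [hf', (hθC x hx).self_of_nhds]

end Pool.Agent.H275R3.Sh
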