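import Pool.Agent.H275R3.ShVol

/-!
# The filled region of an embedded shell
-/

open Set Metric MeasureTheory Filter
open scoped ContDiff Topology RealInnerProductSpace

noncomputable section

namespace Pool.Agent.H275R3.Sh

variable {V : Type*} [NormedAddCommGroup V] [InnerProductSpace ℝ V] [FiniteDimensional ℝ V]

/-- radial cut-off, `1` for `‖z‖ ≤ s₀`, `0` for `‖z‖ ≥ s₁` -/
def cut (s₀ s₁ : ℝ) (z : V) : ℝ :=
  Real.smoothTransition ((s₁ ^ 2 - ‖z‖ ^ 2) / (s₁ ^ 2 - s₀ ^ 2))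

/-- radial derivative factor -/
def cutk (s₀ s₁ t : ℝ) : ℝ :=
  deriv Real.smoothTransition ((s₁ ^ 2 - (max t 0) ^ 2) / (s₁ ^ 2 - s₀ ^ 2)) *
    (-2 / (s₁ ^ 2 - s₀ ^ 2))

omit [FiniteDimensional ℝ V] in
lemma contDiff_cut (s₀ s₁ : ℝ) : ContDiff ℝ ∞ (cut s₀ s₁ : V → ℝ) := by
  have h1 : ContDiff ℝ ∞ (fun z : V => (s₁ ^ 2 - ‖z‖ ^ 2) / (s₁ ^ 2 - s₀ ^ 2)) :=
    (contDiff_const.sub (contDiff_norm_sq ℝ)).div_const _
  exact Real.smoothTransition.contDiff.comp h1

lemma continuous_cutk (s₀ s₁ : ℝ) : Continuous (cutk s₀ s₁) := by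
  have h : Continuous (deriv Real.smoothTransition) :=
    (Real.smoothTransition.contDiff (n := 1)).continuous_deriv (by simp)
  unfold cutk
  exact (h.comp (by fun_prop)).mul continuous_const

lemma cutk_zero {s₀ s₁ : ℝ} (h0 : 0 < s₀) (h1 : s₀ < s₁) {t : ℝ} (ht : t ∉ Icc s₀ s₁) :
    cutk s₀ s₁ t = 0 := by
  have hpos : 0 < s₁ ^ 2 - s₀ ^ 2 := by nlinarith
  rw [mem_Icc, not_and_or, not_le, not_le] at ht
  have key : deriv Real.smoothTransition ((s₁ ^ 2 - (max t 0) ^ 2) / (s₁ ^ 2 - s₀ ^ 2)) = 0 := by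
    rcases ht with ht | ht
    · have h3 : max t 0 < s₀ := max_lt ht h0
      have h4 : 0 ≤ max t 0 := le_max_right _ _
      have h2 : 1 < (s₁ ^ 2 - (max t 0) ^ 2) / (s₁ ^ 2 - s₀ ^ 2) := by
        rw [lt_div_iff₀ hpos]; nlinarith
      have : Real.smoothTransition =ᶠ[𝓝 ((s₁ ^ 2 - (max t 0) ^ 2) / (s₁ ^ 2 - s₀ ^ 2))] fun _ => 1 := by
        filter_upwards [Ioi_mem_nhds h2] with y hy
        exact Real.smoothTransition.one_of_one_le (le_of_lt hy)
      rw [this.deriv_eq]; simp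
    · have h3 : s₁ < max t 0 := lt_max_of_lt_left ht
      have h2 : (s₁ ^ 2 - (max t 0) ^ 2) / (s₁ ^ 2 - s₀ ^ 2) < 0 := by
        rw [div_lt_iff₀ hpos]; nlinarith
      have : Real.smoothTransition =ᶠ[𝓝 ((s₁ ^ 2 - (max t 0) ^ 2) / (s₁ ^ 2 - s₀ ^ 2))] fun _ => 0 := by
        filter_upwards [Iio_mem_nhds h2] with y hy
        exact Real.smoothTransition.zero_of_nonpos (le_of_lt hy)
      rw [this.deriv_eq]; simp
  rw [cutk, key, zero_mul]

omit [FiniteDimensional ℝ V] in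
lemma fderiv_cut (s₀ s₁ : ℝ) (z v : V) :
    fderiv ℝ (cut s₀ s₁) z v = cutk s₀ s₁ ‖z‖ * ⟪z, v⟫ := by
  have h1 : HasFDerivAt (fun z : V => (s₁ ^ 2 - ‖z‖ ^ 2) / (s₁ ^ 2 - s₀ ^ 2))
      ((s₁ ^ 2 - s₀ ^ 2)⁻¹ • (-((2 : ℕ) • innerSL ℝ z : V →L[ℝ] ℝ))) z := by
    have h2 : HasFDerivAt (fun z : V => ‖z‖ ^ 2) ((2 : ℕ) • innerSL ℝ z : V →L[ℝ] ℝ) z :=
      (hasStrictFDerivAt_norm_sq z).hasFDerivAt
    have h3 := (h2.const_sub (s₁ ^ 2)).const_mul ((s₁ ^ 2 - s₀ ^ 2)⁻¹)
    refine h3.congr_of_eventuallyEq (Filter.Eventually.of_forall fun y => ?_)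
    simp only
    rw [div_eq_mul_inv, mul_comm]
  have h4 : HasDerivAt Real.smoothTransition
      (deriv Real.smoothTransition ((s₁ ^ 2 - ‖z‖ ^ 2) / (s₁ ^ 2 - s₀ ^ 2)))
      ((s₁ ^ 2 - ‖z‖ ^ 2) / (s₁ ^ 2 - s₀ ^ 2)) :=
    ((Real.smoothTransition.contDiff (n := 1)).differentiable (by simp) _).hasDerivAt
  have h5 : HasFDerivAt (cut s₀ s₁ : V → ℝ) _ z := h4.comp_hasFDerivAt z h1
  rw [h5.fderiv, cutk, max_eq_left (norm_nonneg z)]
  simp
  ring

omit [InnerProductSpace ℝ V] [FiniteDimensional ℝ V] in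
lemma cut_one {s₀ s₁ : ℝ} (h0 : 0 < s₀) (h1 : s₀ < s₁) {z : V} (hz : ‖z‖ ≤ s₀) :
    cut s₀ s₁ z = 1 := by
  have hpos : 0 < s₁ ^ 2 - s₀ ^ 2 := by nlinarith
  apply Real.smoothTransition.one_of_one_le
  rw [le_div_iff₀ hpos]
  nlinarith [norm_nonneg z]

omit [InnerProductSpace ℝ V] [FiniteDimensional ℝ V] in
lemma cut_zero {s₀ s₁ : ℝ} (h0 : 0 < s₀) (h1 : s₀ < s₁) {z : V} (hz : s₁ ≤ ‖z‖) :
    cut s₀ s₁ z = 0 := by
  have hpos : 0 < s₁ ^ 2 - s₀ ^ 2 := by nlinarith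
  apply Real.smoothTransition.zero_of_nonpos
  apply div_nonpos_of_nonpos_of_nonneg _ hpos.le
  nlinarith [norm_nonneg z]

lemma hasCompactSupport_cut {s₀ s₁ : ℝ} (h0 : 0 < s₀) (h1 : s₀ < s₁) :
    HasCompactSupport (cut s₀ s₁ : V → ℝ) := by
  refine HasCompactSupport.intro (isCompact_closedBall (0 : V) s₁) ?_
  intro z hz
  rw [mem_closedBall_zero_iff, not_le] at hz
  exact cut_zero h0 h1 hz.le

omit [FiniteDimensional ℝ V] in
/-- connectedness of radial sets -/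
lemma isPreconnected_norm_mem (hrank : 1 < Module.rank ℝ V) {T : Set ℝ} (hT : IsPreconnected T)
    (hpos : ∀ t ∈ T, 0 < t) : IsPreconnected {x : V | ‖x‖ ∈ T} := by
  have h1 : IsPreconnected (T ×ˢ sphere (0 : V) 1) := hT.prod (isPreconnected_sphere hrank 0 1)
  have h2 : {x : V | ‖x‖ ∈ T} = (fun p : ℝ × V => p.1 • p.2) '' (T ×ˢ sphere (0 : V) 1) := by
    ext x
    constructor
    · intro hx
      have hx0 : 0 < ‖x‖ := hpos _ hx
      refine ⟨(‖x‖, (‖x‖)⁻¹ • x), ⟨hx, ?_⟩, ?_⟩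
      · rw [mem_sphere_zero_iff_norm, norm_smul, norm_inv, norm_norm, inv_mul_cancel₀ hx0.ne']
      · simp only
        rw [smul_smul, mul_inv_cancel₀ hx0.ne', one_smul]
    · rintro ⟨⟨t, y⟩, ⟨ht, hy⟩, rfl⟩
      simp only at ht hy ⊢
      rw [mem_sphere_zero_iff_norm] at hy
      rw [mem_ofPred_eq, norm_smul, hy, mul_one, Real.norm_eq_abs, abs_of_pos (hpos t ht)]
      exact ht
  rw [h2]
  exact h1.image _ (by fun_prop)

/-- What we know about the filled region of an embedded shell. -/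
structure Fill (φ : V → V) (r₀ r₁ s₀ s₁ : ℝ) (f : V → ℝ) : Prop where
  cont : Continuous f
  on : ∀ z ∈ shell V r₀ r₁, f (φ z) = cut s₀ s₁ z
  off : ∀ x, x ∉ φ '' shell V r₀ r₁ → f x = 0 ∨ f x = 1
  out : ∀ x, 1 ≤ ‖x‖ → f x = 0
  nonneg : ∀ x, 0 ≤ f x
  le_one : ∀ x, f x ≤ 1
  open_image : IsOpen (φ '' shell V r₀ r₁)

variable [MeasurableSpace V] [BorelSpace V]

theorem exists_fill {J : V →L[ℝ] V} (hJ : IsJ J) (hdim : 3 ≤ Module.finrank ℝ V) {φ : V → V}
    {r₀ r₁ s₀ s₁ : ℝ} (h0 : 0 < r₀) (h01 : r₀ < s₀) (hs01 : s₀ < s₁) (h12 : s₁ < r₁)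
    (hφ : ContDiffOn ℝ ∞ φ (shell V r₀ r₁)) (hinj : InjOn φ (shell V r₀ r₁))
    (hs : SympOn J φ (shell V r₀ r₁)) (hmaps : MapsTo φ (shell V r₀ r₁) (ball 0 1)) :
    ∃ f : V → ℝ, Fill φ r₀ r₁ s₀ s₁ f ∧ HasCompactSupport f ∧
      ∫ x, f x = ∫ x : V, cut s₀ s₁ x := by
  set U := shell V r₀ r₁ with hUdef
  have hU : IsOpen U := isOpen_shell r₀ r₁
  have hs0 : 0 < s₀ := by linarith
  set C : Set V := {z | ‖z‖ ∈ Icc s₀ s₁} with hCdef
  have hC : IsCompact C := by
    have h1 : IsClosed C := isClosed_Icc.preimage continuous_norm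
    refine Metric.isCompact_of_isClosed_isBounded h1 ?_
    refine (Metric.isBounded_closedBall (x := (0 : V)) (r := s₁)).subset ?_
    intro z hz
    rw [mem_closedBall_zero_iff]; exact hz.2
  have hCU : C ⊆ U := fun z hz => ⟨by linarith [hz.1], by linarith [hz.2]⟩
  have hA : ∀ z ∈ U, Function.Injective (fderiv ℝ φ z) := fun z hz => hJ.inj_of (hs z hz)
  have hG : ContDiff ℝ ∞ (cut s₀ s₁ : V → ℝ) := contDiff_cut s₀ s₁
  have hGC : ∀ z ∈ U \ C, fderiv ℝ (cut s₀ s₁ : V → ℝ) z = 0 := by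
    intro z hz
    ext v
    rw [fderiv_cut, cutk_zero hs0 hs01 hz.2, zero_mul]; rfl
  obtain ⟨f₀, hf1, hfφ, hf0⟩ := exists_primitive hU hφ hinj hA hG hC hCU hGC
  have hUo : IsOpen (φ '' U) := isOpen_image hU hφ hA
  have hKc : IsCompact (φ '' C) := hC.image_of_continuousOn (hφ.continuousOn.mono hCU)
  have hrank : 1 < Module.rank ℝ V := by
    rw [← Module.finrank_eq_rank]
    exact_mod_cast (by omega : 1 < Module.finrank ℝ V)
  have hf1d : Differentiable ℝ f₀ := hf1.differentiable (by simp)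
  -- far away `f₀` is constant
  obtain ⟨ρ, hρ0, hρ1, hρ⟩ : ∃ ρ : ℝ, 0 < ρ ∧ ρ < 1 ∧ ∀ x ∈ φ '' C, ‖x‖ ≤ ρ := by
    by_cases hne : (φ '' C).Nonempty
    · obtain ⟨x, hx, hmax⟩ := hKc.exists_isMaxOn hne continuous_norm.continuousOn
      have hx1 : ‖x‖ < 1 := by
        obtain ⟨z, hz, rfl⟩ := hx
        have := hmaps (hCU hz)
        rwa [mem_ball_zero_iff] at this
      refine ⟨max ‖x‖ (1 / 2), by positivity, max_lt hx1 (by norm_num), fun y hy => ?_⟩
      exact (hmax hy).trans (le_max_left _ _)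
    · exact ⟨1 / 2, by norm_num, by norm_num, fun x hx => absurd ⟨x, hx⟩ hne⟩
  obtain ⟨a, ha⟩ : ∃ a, ∀ x : V, ρ < ‖x‖ → f₀ x = a := by
    have h1 : IsPreconnected {x : V | ‖x‖ ∈ Ioi ρ} :=
      isPreconnected_norm_mem hrank isPreconnected_Ioi (fun t ht => hρ0.trans ht)
    have h2 : IsOpen {x : V | ‖x‖ ∈ Ioi ρ} := isOpen_Ioi.preimage continuous_norm
    obtain ⟨a, ha⟩ := h2.exists_is_const_of_fderiv_eq_zero h1 hf1d.differentiableOn
      (fun x hx => hf0 x (fun h => absurd (hρ x h) (not_le.2 hx)))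
    exact ⟨a, fun x hx => ha x hx⟩
  -- on `U` the difference is constant
  obtain ⟨c, hc⟩ : ∃ c, ∀ z ∈ U, f₀ (φ z) = cut s₀ s₁ z + c := by
    have h1 : IsPreconnected U :=
      isPreconnected_norm_mem hrank (isPreconnected_Ioo (a := r₀) (b := r₁))
        (fun t ht => h0.trans ht.1)
    have hφd : DifferentiableOn ℝ φ U := hφ.differentiableOn (by simp)
    obtain ⟨c, hc⟩ := hU.exists_eq_add_of_fderiv_eq h1 (f := fun z => f₀ (φ z))
      (g := (cut s₀ s₁ : V → ℝ)) (hf1d.comp_differentiableOn hφd)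
      (hG.differentiable (by simp)).differentiableOn (by
        intro z hz
        have h2 : DifferentiableAt ℝ φ z := hφd.differentiableAt (hU.mem_nhds hz)
        rw [show (fun z => f₀ (φ z)) = f₀ ∘ φ from rfl, fderiv_comp z (hf1d (φ z)) h2]
        exact hfφ z hz)
    exact ⟨c, fun z hz => hc hz⟩
  set f : V → ℝ := fun x => f₀ x - a with hf
  set c' := c - a with hc'
  have hfU : ∀ z ∈ U, f (φ z) = cut s₀ s₁ z + c' := by
    intro z hz; simp only [hf, hc']; rw [hc z hz]; ring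
  have hfout : ∀ x : V, ρ < ‖x‖ → f x = 0 := by
    intro x hx; simp only [hf]; rw [ha x hx, sub_self]
  have hfcont : Continuous f := hf1.continuous.sub continuous_const
  have hfC1 : ContDiff ℝ 1 f := hf1.sub contDiff_const
  have hffd : ∀ x, fderiv ℝ f x = fderiv ℝ f₀ x := by
    intro x; simp only [hf]; rw [fderiv_sub_const]
  have hfloc : ∀ x, x ∉ φ '' C → ∀ᶠ y in 𝓝 x, f y = f x := by
    intro x hx
    obtain ⟨ε, hε, hball⟩ := Metric.isOpen_iff.1 hKc.isClosed.isOpen_compl x hx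
    filter_upwards [ball_mem_nhds x hε] with y hy
    exact isOpen_ball.is_const_of_fderiv_eq_zero (convex_ball x ε).isPreconnected
      (hfC1.differentiable (by simp)).differentiableOn
      (fun z hz => by rw [hffd]; exact hf0 z (hball hz)) hy (mem_ball_self hε)
  have hcutUC : ∀ z ∈ U, z ∉ C → (cut s₀ s₁ z = 0 ∨ cut s₀ s₁ z = 1) := by
    intro z _ hzC
    simp only [hCdef, mem_ofPred_eq, mem_Icc, not_and_or, not_le] at hzC
    rcases hzC with h | h
    · right; exact cut_one hs0 hs01 h.le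
    · left; exact cut_zero hs0 hs01 h.le
  -- a point in `C`
  obtain ⟨z₀, hz₀⟩ : ∃ z : V, z ∈ C := by
    have : Nontrivial V := Module.nontrivial_of_finrank_pos (R := ℝ) (by omega)
    obtain ⟨z, hz⟩ := exists_norm_eq V hs0.le
    exact ⟨z, by rw [hCdef, mem_ofPred_eq, hz]; exact ⟨le_rfl, hs01.le⟩⟩
  have hoff : ∀ p, p ∉ φ '' C → f p = c' ∨ f p = c' + 1 := by
    intro p hp
    by_contra hne
    rw [not_or] at hne
    set S : Set V := {x | x ∉ φ '' C ∧ f x = f p} with hS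
    have hSo : IsOpen S := by
      rw [isOpen_iff_mem_nhds]
      rintro x ⟨hx1, hx2⟩
      filter_upwards [hfloc x hx1, hKc.isClosed.isOpen_compl.mem_nhds hx1] with y hy1 hy2
      exact ⟨hy2, by rw [hy1, hx2]⟩
    have hSc : IsClosed S := by
      rw [← isOpen_compl_iff, isOpen_iff_mem_nhds]
      intro x hx
      by_cases hxK : x ∈ φ '' C
      · filter_upwards [hUo.mem_nhds (image_mono hCU hxK)] with y hy hyS
        obtain ⟨z, hz, rfl⟩ := hy
        have hzC : z ∉ C := fun h => hyS.1 ⟨z, h, rfl⟩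
        have h1 := hfU z hz
        rw [hyS.2] at h1
        rcases hcutUC z hz hzC with h | h
        · rw [h, zero_add] at h1; exact hne.1 h1
        · rw [h, add_comm] at h1; exact hne.2 h1
      · have hfx : f x ≠ f p := fun h => hx ⟨hxK, h⟩
        filter_upwards [hfloc x hxK] with y hy hyS
        exact hfx (by rw [← hy, hyS.2])
    have hclopen : IsClopen S := ⟨hSc, hSo⟩
    rcases isClopen_iff.1 hclopen with h | h
    · have : p ∈ S := ⟨hp, rfl⟩
      rw [h] at this; exact this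
    · have : φ z₀ ∈ S := by rw [h]; trivial
      exact this.1 ⟨z₀, hz₀, rfl⟩
  have hcutb : ∀ z : V, 0 ≤ cut s₀ s₁ z ∧ cut s₀ s₁ z ≤ 1 := fun z =>
    ⟨Real.smoothTransition.nonneg _, Real.smoothTransition.le_one _⟩
  have hrange : ∀ x, c' ≤ f x ∧ f x ≤ c' + 1 := by
    intro x
    by_cases hx : x ∈ φ '' C
    · obtain ⟨z, hz, rfl⟩ := hx
      rw [hfU z (hCU hz)]
      obtain ⟨h1, h2⟩ := hcutb z
      constructor <;> linarith
    · rcases hoff x hx with h | h <;> rw [h] <;> constructor <;> linarith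
  have hfcs : HasCompactSupport f := by
    refine HasCompactSupport.intro (isCompact_closedBall (0 : V) ρ) ?_
    intro z hz
    rw [mem_closedBall_zero_iff, not_le] at hz
    exact hfout z hz
  have hint : ∫ x, f x = ∫ x : V, cut s₀ s₁ x := by
    refine integral_eq hJ hdim h0.le h01 h12 hφ hinj hs (hG.of_le (by simp))
      (hasCompactSupport_cut hs0 hs01) (continuous_cutk s₀ s₁) (fun t ht => cutk_zero hs0 hs01 ht)
      (fderiv_cut s₀ s₁) hfC1 hfcs (fun z hz => by rw [hffd]; exact hfφ z hz) ?_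
    intro x hx
    rw [hffd]
    exact hf0 x (fun h => hx (image_mono hCU h))
  have hintpos : 0 < ∫ x : V, cut s₀ s₁ x := by
    apply Continuous.integral_pos_of_hasCompactSupport_nonneg_nonzero (x := 0)
    · exact hG.continuous
    · exact hasCompactSupport_cut hs0 hs01
    · intro z; exact (hcutb z).1
    · rw [cut_one hs0 hs01 (by simp [hs0.le])]; exact one_ne_zero
  -- the far away value
  obtain ⟨p, hp⟩ : ∃ p : V, ‖p‖ = 1 := by
    have : Nontrivial V := Module.nontrivial_of_finrank_pos (R := ℝ) (by omega)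
    exact exists_norm_eq V zero_le_one
  have hpout : f p = 0 := hfout p (by rw [hp]; exact hρ1)
  have hpK : p ∉ φ '' C := fun h => by
    have := hρ p h
    rw [hp] at this; linarith
  have hc0 : c' = 0 := by
    rcases hoff p hpK with h | h
    · rw [hpout] at h; exact h.symm
    · exfalso
      rw [hpout] at h
      have hneg : ∫ x, f x ≤ 0 := by
        apply integral_nonpos
        intro x
        have := (hrange x).2
        simp only [Pi.zero_apply]
        linarith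
      rw [hint] at hneg
      linarith
  refine ⟨f, ⟨hfcont, ?_, ?_, ?_, ?_, ?_, hUo⟩, hfcs, hint⟩
  · intro z hz; rw [hfU z hz, hc0, add_zero]
  · intro x hx
    have := hoff x (fun h => hx (image_mono hCU h))
    rw [hc0, zero_add] at this; exact this
  · intro x hx; exact hfout x (by linarith)
  · intro x; have := (hrange x).1; rw [hc0] at this; exact this
  · intro x; have := (hrange x).2; rw [hc0, zero_add] at this; exact this

end Pool.Agent.H275R3.Sh
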