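import Pool.Agent.H275R3.ShPrim

/-!
# The volume enclosed by an embedded shell
-/

open Set Metric MeasureTheory Filter
open scoped ContDiff Topology RealInnerProductSpace

noncomputable section

namespace Pool.Agent.H275R3.Sh

variable {V : Type*} [NormedAddCommGroup V] [InnerProductSpace ℝ V] [FiniteDimensional ℝ V]

/-- the open shell -/
def shell (V : Type*) [NormedAddCommGroup V] (r₀ r₁ : ℝ) : Set V := {z | r₀ < ‖z‖ ∧ ‖z‖ < r₁}

omit [InnerProductSpace ℝ V] [FiniteDimensional ℝ V] in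
lemma isOpen_shell (r₀ r₁ : ℝ) : IsOpen (shell V r₀ r₁) :=
  (isOpen_lt continuous_const continuous_norm).inter (isOpen_lt continuous_norm continuous_const)

/-- `φ` is symplectic on `U`. -/
def SympOn (J : V →L[ℝ] V) (φ : V → V) (U : Set V) : Prop :=
  ∀ z ∈ U, ∀ u v, ⟪J (fderiv ℝ φ z u), fderiv ℝ φ z v⟫ = ⟪J u, v⟫

/-- the closed one-form `φ^*λ - λ` -/
def eta (J : V →L[ℝ] V) (φ : V → V) (z : V) : V →L[ℝ] ℝ :=
  (innerSL ℝ (J (φ z))).comp (fderiv ℝ φ z) - innerSL ℝ (J z)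

omit [FiniteDimensional ℝ V] in
lemma eta_apply (J : V →L[ℝ] V) (φ : V → V) (z ξ : V) :
    eta J φ z ξ = ⟪J (φ z), fderiv ℝ φ z ξ⟫ - ⟪J z, ξ⟫ := by
  simp [eta]

omit [FiniteDimensional ℝ V] in
lemma contDiffOn_eta (J : V →L[ℝ] V) {φ : V → V} {U : Set V} (hU : IsOpen U)
    (hφ : ContDiffOn ℝ ∞ φ U) : ContDiffOn ℝ ∞ (eta J φ) U := by
  have h1 : ContDiffOn ℝ ∞ (fderiv ℝ φ) U := hφ.fderiv_of_isOpen hU (by simp)
  have h2 : ContDiffOn ℝ ∞ (fun z => innerSL ℝ (J (φ z))) U :=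
    (innerSL ℝ : V →L[ℝ] V →L[ℝ] ℝ).contDiff.comp_contDiffOn (J.contDiff.comp_contDiffOn hφ)
  have h3 : ContDiffOn ℝ ∞ (fun z : V => innerSL ℝ (J z)) U :=
    ((innerSL ℝ : V →L[ℝ] V →L[ℝ] ℝ).contDiff.comp J.contDiff).contDiffOn
  exact (h2.clm_comp h1).sub h3

omit [FiniteDimensional ℝ V] in
lemma eta_symm {J : V →L[ℝ] V} {φ : V → V} {U : Set V} (hU : IsOpen U)
    (hφ : ContDiffOn ℝ ∞ φ U) (hs : SympOn J φ U) {z : V} (hz : z ∈ U) (a b : V) :
    fderiv ℝ (eta J φ) z a b = fderiv ℝ (eta J φ) z b a := by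
  have hd : DifferentiableAt ℝ (eta J φ) z :=
    ((contDiffOn_eta J hU hφ).contDiffAt (hU.mem_nhds hz)).differentiableAt (by simp)
  have hφd : DifferentiableAt ℝ φ z := (hφ.contDiffAt (hU.mem_nhds hz)).differentiableAt (by simp)
  have hφ2 : DifferentiableAt ℝ (fderiv ℝ φ) z :=
    ((hφ.fderiv_of_isOpen hU (m := ∞) (by simp)).contDiffAt (hU.mem_nhds hz)).differentiableAt
      (by simp)
  have key : ∀ a b, fderiv ℝ (eta J φ) z a b = ⟪J (φ z), fderiv ℝ (fderiv ℝ φ) z a b⟫ := by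
    intro a b
    have e1 : fderiv ℝ (fun y => eta J φ y b) z a = fderiv ℝ (eta J φ) z a b := by
      rw [fderiv_clm_apply hd (differentiableAt_const _)]
      simp
    rw [← e1]
    have e2 : (fun y => eta J φ y b) = fun y => ⟪J (φ y), fderiv ℝ φ y b⟫ - ⟪J y, b⟫ := by
      funext y; rw [eta_apply]
    rw [e2]
    have hJφ : HasFDerivAt (fun y => J (φ y)) (J.comp (fderiv ℝ φ z)) z :=
      J.hasFDerivAt.comp z hφd.hasFDerivAt
    have hb : HasFDerivAt (fun y => fderiv ℝ φ y b) ((fderiv ℝ (fderiv ℝ φ) z).flip b) z := by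
      have := hφ2.hasFDerivAt.clm_apply (hasFDerivAt_const b z)
      simpa using this
    have h1 := hJφ.inner ℝ hb
    have h2 : HasFDerivAt (fun y => ⟪J y, b⟫) (((innerSL ℝ : V →L[ℝ] V →L[ℝ] ℝ).flip b).comp J) z :=
      ((innerSL ℝ : V →L[ℝ] V →L[ℝ] ℝ).flip b).hasFDerivAt.comp z J.hasFDerivAt
    have h12 : HasFDerivAt (fun y => ⟪J (φ y), fderiv ℝ φ y b⟫ - ⟪J y, b⟫) _ z := h1.sub h2
    rw [h12.fderiv]
    have h3 := hs z hz a b
    simp only [sub_apply, ContinuousLinearMap.comp_apply, ContinuousLinearMap.prod_apply,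
      fderivInnerCLM_apply, ContinuousLinearMap.flip_apply, innerSL_apply_apply]
    rw [h3]
    ring
  have hsy : IsSymmSndFDerivAt ℝ φ z := (hφ.contDiffAt (hU.mem_nhds hz)).isSymmSndFDerivAt (by
    simp only [minSmoothness_of_isRCLikeNormedField]
    exact WithTop.coe_le_coe.2 (le_top : (2 : ℕ∞) ≤ ⊤))
  rw [key, key, hsy a b]

/-- existence of a third orthonormal vector -/
lemma exists_third (hdim : 3 ≤ Module.finrank ℝ V) (u v : V) :
    ∃ w : V, ‖w‖ = 1 ∧ ⟪u, w⟫ = 0 ∧ ⟪v, w⟫ = 0 := by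
  classical
  set K : Submodule ℝ V := Submodule.span ℝ ((({u, v} : Finset V) : Set V)) with hK
  have h1 : Module.finrank ℝ K ≤ 2 :=
    (finrank_span_finset_le_card ({u, v} : Finset V)).trans Finset.card_le_two
  have h2 : Kᗮ ≠ ⊥ := by
    intro h
    have h3 := Submodule.finrank_add_finrank_orthogonal K
    rw [h, finrank_bot] at h3
    omega
  obtain ⟨x, hx, hx0⟩ := Submodule.exists_mem_ne_zero_of_ne_bot h2
  have hn : ‖x‖ ≠ 0 := norm_ne_zero_iff.2 hx0
  have hu : ⟪u, x⟫ = 0 := (Submodule.mem_orthogonal K x).1 hx u (Submodule.subset_span (by simp))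
  have hv : ⟪v, x⟫ = 0 := (Submodule.mem_orthogonal K x).1 hx v (Submodule.subset_span (by simp))
  refine ⟨(‖x‖)⁻¹ • x, ?_, ?_, ?_⟩
  · rw [norm_smul, norm_inv, norm_norm, inv_mul_cancel₀ hn]
  · rw [inner_smul_right, hu, mul_zero]
  · rw [inner_smul_right, hv, mul_zero]

variable [MeasurableSpace V] [BorelSpace V]

/-- The central identity: the integral of a compactly supported function whose differential is the
push-forward of the differential of a radial function. -/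
theorem integral_eq {J : V →L[ℝ] V} (hJ : IsJ J) (hdim : 3 ≤ Module.finrank ℝ V) {φ : V → V}
    {r₀ r₁ s₀ s₁ : ℝ} (h0 : 0 ≤ r₀) (h01 : r₀ < s₀) (h12 : s₁ < r₁)
    (hφ : ContDiffOn ℝ ∞ φ (shell V r₀ r₁)) (hinj : InjOn φ (shell V r₀ r₁))
    (hs : SympOn J φ (shell V r₀ r₁)) {G : V → ℝ} (hG : ContDiff ℝ 1 G) (hGc : HasCompactSupport G)
    {k : ℝ → ℝ} (hk : Continuous k) (hks : ∀ t, t ∉ Icc s₀ s₁ → k t = 0)
    (hGk : ∀ z v, fderiv ℝ G z v = k ‖z‖ * ⟪z, v⟫)
    {f : V → ℝ} (hf : ContDiff ℝ 1 f) (hfc : HasCompactSupport f)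
    (hfφ : ∀ z ∈ shell V r₀ r₁, (fderiv ℝ f (φ z)).comp (fderiv ℝ φ z) = fderiv ℝ G z)
    (hf0 : ∀ x, x ∉ φ '' (shell V r₀ r₁) → fderiv ℝ f x = 0) :
    ∫ x, f x = ∫ x, G x := by
  set U := shell V r₀ r₁ with hUdef
  have hU : IsOpen U := isOpen_shell r₀ r₁
  have hCU : ∀ z : V, ‖z‖ ∈ Icc s₀ s₁ → z ∈ U := fun z hz => ⟨by linarith [hz.1], by linarith [hz.2]⟩
  -- the pointwise identity
  have hpt : ∀ z ∈ U, fderiv ℝ f (φ z) (φ z) = k ‖z‖ * ⟪J (φ z), fderiv ℝ φ z (J z)⟫ := by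
    intro z hz
    have hAinj := hJ.inj_of (hs z hz)
    have hAsurj : Function.Surjective (fderiv ℝ φ z : V →ₗ[ℝ] V) :=
      LinearMap.surjective_of_injective (f := (fderiv ℝ φ z : V →ₗ[ℝ] V)) hAinj
    obtain ⟨u, hu⟩ := hAsurj (φ z)
    have hu' : fderiv ℝ φ z u = φ z := hu
    have e1 : fderiv ℝ f (φ z) (φ z) = fderiv ℝ G z u := by
      rw [← hfφ z hz, ContinuousLinearMap.comp_apply, hu']
    have e2 : ⟪J (φ z), fderiv ℝ φ z (J z)⟫ = ⟪z, u⟫ := by
      conv_lhs => rw [← hu']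
      rw [hs z hz u (J z), hJ.iso, real_inner_comm]
    rw [e1, hGk, e2]
  -- circle averages
  set Φ : V → ℝ := fun z => k ‖z‖ * eta J φ z (J z) with hΦ
  have hkc : Continuous (fun z : V => k ‖z‖) := hk.comp continuous_norm
  have hC : IsClosed {z : V | ‖z‖ ∈ Icc s₀ s₁} := isClosed_Icc.preimage continuous_norm
  have hΦc : Continuous Φ := by
    rw [continuous_iff_continuousAt]
    intro z
    by_cases hz : ‖z‖ ∈ Icc s₀ s₁
    · have h1 : ContinuousAt (eta J φ) z :=
        ((contDiffOn_eta J hU hφ).contDiffAt (hU.mem_nhds (hCU z hz))).continuousAt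
      exact hkc.continuousAt.mul (h1.clm_apply J.continuous.continuousAt)
    · have : Φ =ᶠ[𝓝 z] fun _ => 0 := by
        filter_upwards [hC.isOpen_compl.mem_nhds hz] with y hy
        simp only [hΦ]
        rw [hks _ hy, zero_mul]
      exact continuousAt_const.congr this.symm
  have hΦs : HasCompactSupport Φ := by
    refine HasCompactSupport.intro (isCompact_closedBall (0 : V) s₁) ?_
    intro z hz
    rw [mem_closedBall_zero_iff, not_le] at hz
    simp only [hΦ]
    rw [hks _ (fun h => by linarith [h.2]), zero_mul]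
  have hΦ0 : ∫ z, Φ z = 0 := by
    apply hJ.integral_zero_of_circle hΦc hΦs
    intro z
    have hk' : ∀ t, Φ (hJ.rot t z) = k ‖z‖ * eta J φ (hJ.rot t z) (J (hJ.rot t z)) := by
      intro t; simp only [hΦ, hJ.norm_rot]
    simp only [hk', intervalIntegral.integral_const_mul]
    by_cases hz : ‖z‖ ∈ Icc s₀ s₁
    · have hz0 : 0 < ‖z‖ := by linarith [hz.1]
      obtain ⟨u, hun, hzu⟩ : ∃ u : V, ‖u‖ = 1 ∧ z = ‖z‖ • u := by
        refine ⟨(‖z‖)⁻¹ • z, ?_, ?_⟩
        · rw [norm_smul, norm_inv, norm_norm, inv_mul_cancel₀ hz0.ne']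
        · rw [smul_smul, mul_inv_cancel₀ hz0.ne', one_smul]
      obtain ⟨w, hw1, hw2, hw3⟩ := exists_third hdim u (J u)
      have hgc := great_circle (η := eta J φ) (r := ‖z‖) hU
        ((contDiffOn_eta J hU hφ).of_le (by simp)) (fun x hx a b => eta_symm hU hφ hs hx a b)
        (fun x hx => hCU x (by rw [hx, abs_of_pos hz0]; exact hz)) hun
        (by rw [hJ.norm_map, hun]) hw1 (hJ.self' u) hw2 hw3
      have : ∫ t in (0 : ℝ)..(2 * Real.pi), eta J φ (hJ.rot t z) (J (hJ.rot t z)) = 0 := by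
        refine Eq.trans ?_ hgc
        apply intervalIntegral.integral_congr
        intro t _
        have e1 : hJ.rot t z = ‖z‖ • (Real.cos t • u + Real.sin t • J u) := by
          conv_lhs => rw [hzu]
          simp only [IsJ.rot, map_smul, smul_add, smul_smul]
          congr 1
          · rw [mul_comm]
          · rw [mul_comm]
        have e2 : J (hJ.rot t z) = ‖z‖ • (-Real.sin t • u + Real.cos t • J u) := by
          rw [e1, map_smul, map_add, map_smul, map_smul, hJ.sq]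
          congr 1
          rw [smul_neg, neg_smul, add_comm]
        simp only
        rw [e2, e1]
      rw [this, mul_zero]
    · rw [hks _ hz, zero_mul]
  -- change of variables
  have hmeas : MeasurableSet U := hU.measurableSet
  have hcv := integral_image_eq_integral_abs_det_fderiv_smul (μ := (volume : Measure V)) hmeas
    (f := φ) (f' := fderiv ℝ φ)
    (fun z hz => ((hφ.contDiffAt (hU.mem_nhds hz)).differentiableAt (by simp)).hasFDerivAt.hasFDerivWithinAt)
    hinj (fun x => fderiv ℝ f x x)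
  have e1 : ∫ x in φ '' U, fderiv ℝ f x x = ∫ x, fderiv ℝ f x x := by
    apply setIntegral_eq_integral_of_forall_compl_eq_zero
    intro x hx
    rw [hf0 x hx]; rfl
  have e2 : ∫ z in U, |(fderiv ℝ φ z).det| • fderiv ℝ f (φ z) (φ z) =
      ∫ z in U, (Φ z + fderiv ℝ G z z) := by
    apply setIntegral_congr_fun hmeas
    intro z hz
    simp only [hΦ]
    rw [hJ.abs_det (hs z hz), one_smul, hpt z hz, hGk, eta_apply, hJ.iso]
    ring
  have e3 : ∫ z in U, (Φ z + fderiv ℝ G z z) = ∫ z, (Φ z + fderiv ℝ G z z) := by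
    apply setIntegral_eq_integral_of_forall_compl_eq_zero
    intro z hz
    have hz' : ‖z‖ ∉ Icc s₀ s₁ := fun h => hz (hCU z h)
    simp only [hΦ]
    rw [hGk, hks _ hz']; ring
  have hGi : Integrable (fun z => fderiv ℝ G z z) := by
    have hcont : Continuous (fun z => fderiv ℝ G z z) :=
      (hG.continuous_fderiv (by simp)).clm_apply continuous_id
    refine hcont.integrable_of_hasCompactSupport ?_
    refine (hGc.fderiv ℝ).mono ?_
    intro z hz hz'
    apply hz
    simp only [hz', zero_apply]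
  have e4 : ∫ z, (Φ z + fderiv ℝ G z z) = ∫ z, fderiv ℝ G z z := by
    rw [integral_add (hΦc.integrable_of_hasCompactSupport hΦs) hGi, hΦ0, zero_add]
  have e5 : ∫ x, fderiv ℝ f x x = ∫ z, fderiv ℝ G z z := by
    rw [← e1, hcv, e2, e3, e4]
  rw [euler_int hf hfc, euler_int hG hGc] at e5
  have hd : (Module.finrank ℝ V : ℝ) ≠ 0 := by
    have : 0 < Module.finrank ℝ V := by omega
    exact_mod_cast this.ne'
  have := mul_left_cancel₀ (neg_ne_zero.2 hd) e5
  exact this

end Pool.Agent.H275R3.Sh
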